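import Mathlib

set_option autoImplicit false

/-!
# Rank-three matroids from partial linear spaces
-/

namespace Pool.Agent.N357.Plane

open Set

/-- independence: at most two points, or three points that are not on a common line of `L` -/
def PI {P : Type} (L : Set (Set P)) (I : Set P) : Prop :=
  I.encard ≤ 2 ∨ (I.encard = 3 ∧ ∀ l ∈ L, ¬ I ⊆ l)

/-- any two distinct points are on at most one line of `L` -/
def Lin {P : Type} (L : Set (Set P)) : Prop :=
  ∀ l ∈ L, ∀ l' ∈ L, ∀ a b, a ≠ b → a ∈ l → b ∈ l → a ∈ l' → b ∈ l' → l = l'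

theorem PI_subset {P : Type} {L : Set (Set P)} {I J : Set P} (hJ : PI L J) (h : I ⊆ J) :
    PI L I := by
  by_cases h2 : I.encard ≤ 2
  · exact Or.inl h2
  · have h3 : J.encard ≤ 3 := by
      rcases hJ with hJ | hJ
      · exact hJ.trans (by norm_num)
      · exact hJ.1.le
    have hJf : J.Finite := by
      rw [← encard_lt_top_iff]
      exact lt_of_le_of_lt h3 (by decide)
    have h4 : I = J := by
      apply hJf.eq_of_subset_of_encard_le' h
      refine h3.trans ?_
      rw [not_le] at h2
      exact Order.add_one_le_of_lt h2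
    rw [h4]
    exact hJ

theorem PI_aug {P : Type} [Finite P] {L : Set (Set P)} (hL : Lin L) {I J : Set P} (hI : PI L I)
    (hJ : PI L J) (h : I.ncard < J.ncard) : ∃ e ∈ J, e ∉ I ∧ PI L (insert e I) := by
  have hIf : I.Finite := I.toFinite
  have hJf : J.Finite := J.toFinite
  obtain ⟨e0, he0, he0I⟩ := Set.exists_mem_notMem_of_ncard_lt_ncard h
  have hJ3 : J.ncard ≤ 3 := by
    have h1 : J.encard ≤ 3 := by
      rcases hJ with hJ | hJ
      · exact hJ.trans (by norm_num)
      · exact hJ.1.le
    rw [← hJf.cast_ncard_eq] at h1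
    exact_mod_cast h1
  by_cases h1 : I.ncard ≤ 1
  · refine ⟨e0, he0, he0I, Or.inl ?_⟩
    rw [encard_insert_of_notMem he0I, ← hIf.cast_ncard_eq]
    have : ((I.ncard : ℕ∞)) ≤ 1 := by exact_mod_cast h1
    calc (I.ncard : ℕ∞) + 1 ≤ 1 + 1 := by gcongr
      _ = 2 := by norm_num
  · have hI2 : I.ncard = 2 := by omega
    have hJ3' : J.ncard = 3 := by omega
    obtain ⟨a, b, hab, rfl⟩ := ncard_eq_two.1 hI2
    have hJ' : ∀ l ∈ L, ¬ J ⊆ l := by
      rcases hJ with hJ | hJ
      · exfalso
        rw [← hJf.cast_ncard_eq, hJ3'] at hJ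
        exact absurd hJ (by decide)
      · exact hJ.2
    have hcard : ∀ e, e ∉ ({a, b} : Set P) → (insert e ({a, b} : Set P)).encard = 3 := by
      intro e he
      rw [encard_insert_of_notMem he, encard_pair hab]
      norm_num
    by_cases hex : ∃ l ∈ L, a ∈ l ∧ b ∈ l
    · obtain ⟨l, hl, hal, hbl⟩ := hex
      obtain ⟨e, heJ, hel⟩ := Set.not_subset.1 (hJ' l hl)
      have heI : e ∉ ({a, b} : Set P) := by
        rintro (rfl | rfl)
        · exact hel hal
        · exact hel hbl
      refine ⟨e, heJ, heI, Or.inr ⟨hcard e heI, fun l' hl' hsub => ?_⟩⟩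
      have h3 : l = l' := hL l hl l' hl' a b hab hal hbl (hsub (by simp)) (hsub (by simp))
      rw [h3] at hel
      exact hel (hsub (by simp))
    · push Not at hex
      refine ⟨e0, he0, he0I, Or.inr ⟨hcard e0 he0I, fun l' hl' hsub => ?_⟩⟩
      exact hex l' hl' (hsub (by simp)) (hsub (by simp))

/-- the matroid on `P` in which a set is independent when it has at most two points or consists of
three points that are not on a common line -/
noncomputable def mat {P : Type} [Finite P] (L : Set (Set P)) (hL : Lin L) : Matroid P :=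
  (IndepMatroid.ofFinite (E := univ) finite_univ (PI L) (Or.inl (by simp))
    (fun _ _ h h' => PI_subset h h') (fun _ _ h h' h'' => PI_aug hL h h' h'')
    (fun _ _ => subset_univ _)).matroid

variable {P : Type} [Finite P] {L : Set (Set P)} {hL : Lin L}

@[simp] theorem mat_E : (mat L hL).E = univ := rfl

theorem mat_indep {I : Set P} : (mat L hL).Indep I ↔ PI L I := by
  unfold mat
  rw [IndepMatroid.matroid_Indep]
  rfl

instance mat_finite : (mat L hL).Finite := ⟨toFinite _⟩

theorem mat_pair (a b : P) : (mat L hL).Indep {a, b} := by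
  rw [mat_indep]
  left
  refine (encard_insert_le _ _).trans ?_
  rw [encard_singleton]
  norm_num

theorem mem_closure_pair {a b x : P} (hab : a ≠ b) :
    x ∈ (mat L hL).closure {a, b} ↔ x = a ∨ x = b ∨ ∃ l ∈ L, a ∈ l ∧ b ∈ l ∧ x ∈ l := by
  rw [(mat_pair a b).mem_closure_iff']
  simp only [mat_E, mem_univ, true_and, mem_insert_iff, mem_singleton_iff]
  constructor
  · intro h
    by_cases hx : x = a ∨ x = b
    · rcases hx with hx | hx
      · exact Or.inl hx
      · exact Or.inr (Or.inl hx)
    · right; right
      have hxI : x ∉ ({a, b} : Set P) := by simpa using hx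
      have h1 : ¬ (mat L hL).Indep (insert x {a, b}) := fun h2 => hx (by simpa using h h2)
      rw [mat_indep] at h1
      by_contra hcon
      push Not at hcon
      apply h1
      right
      refine ⟨?_, fun l hl hsub => ?_⟩
      · rw [encard_insert_of_notMem hxI, encard_pair hab]
        norm_num
      · exact hcon l hl (hsub (by simp)) (hsub (by simp)) (hsub (by simp))
  · rintro (rfl | rfl | ⟨l, hl, hal, hbl, hxl⟩)
    · intro; simp
    · intro; simp
    · intro h1
      rw [mat_indep] at h1
      by_contra hx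
      have hxI : x ∉ ({a, b} : Set P) := by simpa using hx
      have h3 : (insert x ({a, b} : Set P)).encard = 3 := by
        rw [encard_insert_of_notMem hxI, encard_pair hab]
        norm_num
      rcases h1 with h1 | h1
      · rw [h3] at h1
        exact absurd h1 (by decide)
      · apply h1.2 l hl
        rintro y (rfl | rfl | rfl) <;> assumption

/-- a line with two points is a flat of rank two -/
theorem line_isFlat {l : Set P} (hl : l ∈ L) {a b : P} (hab : a ≠ b) (ha : a ∈ l) (hb : b ∈ l) :
    (mat L hL).IsFlat l ∧ (mat L hL).eRk l = 2 := by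
  have h1 : (mat L hL).closure {a, b} = l := by
    ext x
    rw [mem_closure_pair hab]
    constructor
    · rintro (rfl | rfl | ⟨l', hl', h1, h2, h3⟩)
      · exact ha
      · exact hb
      · rwa [hL l hl l' hl' a b hab ha hb h1 h2]
    · intro hx
      exact Or.inr (Or.inr ⟨l, hl, ha, hb, hx⟩)
  rw [← h1]
  refine ⟨(mat L hL).isFlat_closure _, ?_⟩
  rw [Matroid.eRk_closure_eq, (mat_pair a b).eRk_eq_encard, encard_pair hab]

/-- a pair that is on no common line is a flat of rank two -/
theorem pair_isFlat {a b : P} (hab : a ≠ b) (h : ∀ l ∈ L, a ∈ l → b ∉ l) :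
    (mat L hL).IsFlat {a, b} ∧ (mat L hL).eRk {a, b} = 2 := by
  have h1 : (mat L hL).closure {a, b} = {a, b} := by
    ext x
    rw [mem_closure_pair hab]
    constructor
    · rintro (rfl | rfl | ⟨l', hl', h1, h2, h3⟩)
      · simp
      · simp
      · exact absurd h2 (h l' hl' h1)
    · rintro (rfl | rfl)
      · exact Or.inl rfl
      · exact Or.inr (Or.inl rfl)
  constructor
  · rw [← h1]
    exact (mat L hL).isFlat_closure _
  · rw [(mat_pair a b).eRk_eq_encard, encard_pair hab]

theorem mat_rank {a b c : P} (hab : a ≠ b) (hac : a ≠ c) (hbc : b ≠ c)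
    (h : ∀ l ∈ L, a ∈ l → b ∈ l → c ∉ l) : (mat L hL).eRank = 3 := by
  have hcard : ({a, b, c} : Set P).encard = 3 := by
    rw [encard_insert_of_notMem (by simp [hab, hac]), encard_pair hbc]
    norm_num
  have h1 : (mat L hL).Indep {a, b, c} := by
    rw [mat_indep]
    exact Or.inr ⟨hcard, fun l hl hsub => h l hl (hsub (by simp)) (hsub (by simp))
      (hsub (by simp))⟩
  apply le_antisymm
  · obtain ⟨B, hB⟩ := (mat L hL).exists_isBase
    rw [← hB.encard_eq_eRank]
    have h2 := mat_indep.1 hB.indep
    rcases h2 with h2 | h2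
    · exact h2.trans (by norm_num)
    · exact h2.1.le
  · rw [← hcard]
    exact h1.encard_le_eRank

end Pool.Agent.N357.Plane
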