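import Mathlib
import Pool.Agent.N357.Plane

set_option autoImplicit false

/-!
# Breaking the lines through a point of a projective plane

Points `(c, t)` with `c` in `K ∪ {∞}` and `t` in a subset `S` of the finite field `K`; the line of
`(a, b)` consists of the points `(x, a + b x)` and `(∞, b)`.
-/

namespace Pool.Agent.N357.Broken

open Set Matroid Pool.Agent.N357.Plane

variable {K : Type} [Field K] {S : Set K}

/-- the value of the line `f = (a, b)` in the class `c` -/
def val (f : K × K) : Option K → K
  | some x => f.1 + f.2 * x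
  | none => f.2

/-- the line of `f` -/
def line (S : Set K) (f : K × K) : Set (Option K × S) := {x | val f x.1 = (x.2 : K)}

theorem val_unique {f g : K × K} {c d : Option K} (hcd : c ≠ d) (h1 : val f c = val g c)
    (h2 : val f d = val g d) : f = g := by
  obtain ⟨a, b⟩ := f
  obtain ⟨a', b'⟩ := g
  rcases c with _ | x <;> rcases d with _ | y
  · exact absurd rfl hcd
  · simp only [val] at h1 h2
    subst h1
    simp only [Prod.mk.injEq, and_true]
    exact add_right_cancel h2
  · simp only [val] at h1 h2
    subst h2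
    simp only [Prod.mk.injEq, and_true]
    exact add_right_cancel h1
  · simp only [val] at h1 h2
    have hxy : x - y ≠ 0 := by
      intro h
      exact hcd (by rw [sub_eq_zero.1 h])
    have h3 : (b - b') * (x - y) = 0 := by linear_combination h1 - h2
    have h4 : b = b' := by
      rcases mul_eq_zero.1 h3 with h | h
      · exact sub_eq_zero.1 h
      · exact absurd h hxy
    subst h4
    simp only [Prod.mk.injEq, and_true]
    exact add_right_cancel h1

theorem val_exists {c d : Option K} (hcd : c ≠ d) (s t : K) :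
    ∃ f : K × K, val f c = s ∧ val f d = t := by
  rcases c with _ | x <;> rcases d with _ | y
  · exact absurd rfl hcd
  · exact ⟨(t - s * y, s), rfl, by simp [val]⟩
  · exact ⟨(s - t * x, t), by simp [val], rfl⟩
  · have hxy : x - y ≠ 0 := by
      intro h
      exact hcd (by rw [sub_eq_zero.1 h])
    refine ⟨(s - (s - t) / (x - y) * x, (s - t) / (x - y)), ?_, ?_⟩
    · simp only [val]
      ring
    · simp only [val]
      field_simp
      ring

theorem lin (S : Set K) : Lin (range (line S)) := by
  rintro _ ⟨f, rfl⟩ _ ⟨g, rfl⟩ ⟨c, s⟩ ⟨d, t⟩ hab h1 h2 h3 h4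
  have hcd : c ≠ d := by
    rintro rfl
    apply hab
    have : (s : K) = t := by
      have h5 : val f c = s := h1
      have h6 : val f c = t := h2
      rw [← h5, ← h6]
    rw [Subtype.ext this]
  have h5 : val f c = s := h1
  have h6 : val f d = t := h2
  have h7 : val g c = s := h3
  have h8 : val g d = t := h4
  rw [val_unique hcd (h5.trans h7.symm) (h6.trans h8.symm)]

variable [Finite K]

/-- the matroid -/
noncomputable def M (S : Set K) : Matroid (Option K × S) := mat (range (line S)) (lin S)

instance : (M S).Finite := mat_finite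

theorem M_E : (M S).E = univ := rfl

theorem pencil_ncard (c : Option K) (t : K) : ({g : K × K | val g c = t}).ncard ≤ Nat.card K := by
  rw [← Set.ncard_univ K]
  rcases c with _ | x
  · apply ncard_le_ncard_of_injOn (fun g : K × K => g.1) (fun _ _ => mem_univ _)
    rintro ⟨a, b⟩ h1 ⟨a', b'⟩ h2 h3
    simp only [mem_ofPred_eq, val] at h1 h2 h3
    rw [h1, h2, h3]
  · apply ncard_le_ncard_of_injOn (fun g : K × K => g.2) (fun _ _ => mem_univ _)
    rintro ⟨a, b⟩ h1 ⟨a', b'⟩ h2 h3
    simp only [mem_ofPred_eq, val] at h1 h2 h3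
    subst h3
    rw [← h2] at h1
    rw [add_right_cancel h1]

/-- the number of points that are pairwise not collinear with `e` -/
theorem degree_bound (e : Option K × S) (R : Set (Option K × S)) (he : e ∉ R)
    (hR : ∀ x ∈ R, ∀ y ∈ R, x ≠ y → ∀ f : K × K, ¬ (e ∈ line S f ∧ x ∈ line S f ∧ y ∈ line S f)) :
    R.ncard + 1 ≤ Nat.card K + S.ncard := by
  classical
  obtain ⟨c, t⟩ := e
  have hSf : S.Finite := S.toFinite
  set R1 := {x ∈ R | x.1 = c} with hR1
  set R2 := {x ∈ R | x.1 ≠ c} with hR2
  have h1 : R = R1 ∪ R2 := by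
    ext x
    simp only [hR1, hR2, mem_union, mem_ofPred_eq]
    tauto
  have h2 : R1.ncard + 1 ≤ S.ncard := by
    have h3 : R1.ncard ≤ (S \ {(t : K)}).ncard := by
      apply ncard_le_ncard_of_injOn (fun x : Option K × S => (x.2 : K))
      · rintro ⟨d, s⟩ ⟨hxR, hxc⟩
        simp only at hxc
        subst hxc
        refine ⟨s.2, ?_⟩
        intro h
        simp only [mem_singleton_iff] at h
        apply he
        have h5 : t = s := Subtype.ext h.symm
        rw [h5]
        exact hxR
      · rintro ⟨d, s⟩ ⟨-, hxc⟩ ⟨d', s'⟩ ⟨-, hxc'⟩ h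
        simp only at hxc hxc' h
        rw [hxc, hxc', Subtype.ext h]
    have h4 := ncard_sdiff_singleton_add_one t.2 hSf
    omega
  have h3 : R2.ncard ≤ Nat.card K := by
    refine le_trans ?_ (pencil_ncard c (t : K))
    have hex : ∀ x : Option K × S, x.1 ≠ c → ∃ f : K × K, val f c = t ∧ val f x.1 = x.2 :=
      fun x hx => val_exists (Ne.symm hx) _ _
    choose! F hF using hex
    apply ncard_le_ncard_of_injOn F
    · rintro x ⟨-, hx⟩
      exact (hF x hx).1
    · rintro x ⟨hxR, hx⟩ y ⟨hyR, hy⟩ hxy
      by_contra hne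
      refine hR x hxR y hyR hne (F x) ⟨(hF x hx).1, (hF x hx).2, ?_⟩
      change val (F x) y.1 = y.2
      rw [show F x = F y from hxy]
      exact (hF y hy).2
  have h4 : R.ncard ≤ R1.ncard + R2.ncard := by
    rw [h1]
    exact ncard_union_le _ _
  omega

theorem line_ncard (f : K × K) : (line S f).ncard ≤ Nat.card K + 1 := by
  have h1 : (line S f).ncard ≤ (univ : Set (Option K)).ncard := by
    apply ncard_le_ncard_of_injOn (fun x : Option K × S => x.1) (fun _ _ => mem_univ _)
    rintro ⟨c, s⟩ h1 ⟨d, t⟩ h2 h3
    simp only at h3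
    subst h3
    have h5 : val f c = s := h1
    have h6 : val f c = t := h2
    have : (s : K) = t := by rw [← h5, ← h6]
    rw [Subtype.ext this]
  rw [ncard_univ, Finite.card_option] at h1
  exact h1


/-- `N` is a copy of the uniform matroid of rank two with `m` elements -/
def IsLine (m : ℕ) {α : Type} (N : Matroid α) : Prop :=
  N.E.Finite ∧ N.E.ncard = m ∧ ∀ I ⊆ N.E, N.Indep I ↔ I.encard ≤ 2

theorem no_line_minor {m : ℕ} (hm : Nat.card K + S.ncard ≤ m) (hS : 2 ≤ S.ncard)
    {N : Matroid (Option K × S)} (hN : N.IsMinor (M S)) : ¬ IsLine m N := by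
  rintro ⟨hfin, hcard, hind⟩
  obtain ⟨C, D, hC, hD, hCD, rfl⟩ := hN.exists_eq_contract_delete_disjoint
  have hE : ∀ x, x ∈ ((M S) ／ C ＼ D).E ↔ x ∉ C ∧ x ∉ D := by
    intro x
    simp [M_E]
  rcases C.eq_empty_or_nonempty with rfl | ⟨e, he⟩
  · rw [Matroid.contract_empty] at hind hcard hE
    have h3 : 2 < ((M S) ＼ D).E.ncard := by
      rw [hcard]
      have : 0 < Nat.card K := Nat.card_pos
      omega
    obtain ⟨a, ha, b, hb, c, hc, hab, hac, hbc⟩ := (Set.two_lt_ncard (toFinite _)).1 h3
    have htri : ∀ x ∈ ((M S) ＼ D).E, x ≠ a → x ≠ b → ∃ f, a ∈ line S f ∧ b ∈ line S f ∧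
        x ∈ line S f := by
      intro x hx hxa hxb
      have hcard3 : ({x, a, b} : Set (Option K × S)).encard = 3 := by
        rw [encard_insert_of_notMem (by simp [hxa, hxb]), encard_pair hab]
        norm_num
      have hsub : ({x, a, b} : Set (Option K × S)) ⊆ ((M S) ＼ D).E := by
        rintro y (rfl | rfl | rfl) <;> assumption
      have h1 : ¬ ((M S) ＼ D).Indep {x, a, b} := by
        rw [hind _ hsub, hcard3]
        decide
      rw [Matroid.delete_indep_iff] at h1
      have h2 : Disjoint ({x, a, b} : Set (Option K × S)) D := by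
        rw [Set.disjoint_left]
        intro y hy
        exact (hsub hy).2
      have h4 : ¬ (M S).Indep {x, a, b} := fun h => h1 ⟨h, h2⟩
      unfold M at h4
      rw [mat_indep] at h4
      by_contra hcon
      push Not at hcon
      apply h4
      right
      refine ⟨hcard3, ?_⟩
      rintro _ ⟨f, rfl⟩ hsub'
      exact hcon f (hsub' (by simp)) (hsub' (by simp)) (hsub' (by simp))
    obtain ⟨f, hfa, hfb, -⟩ := htri c hc (Ne.symm hac) (Ne.symm hbc)
    have hsub : ((M S) ＼ D).E ⊆ line S f := by
      intro x hx
      by_cases hxa : x = a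
      · rwa [hxa]
      by_cases hxb : x = b
      · rwa [hxb]
      obtain ⟨g, hga, hgb, hgx⟩ := htri x hx hxa hxb
      rw [lin S _ ⟨f, rfl⟩ _ ⟨g, rfl⟩ a b hab hfa hfb hga hgb]
      exact hgx
    have h4 := ncard_le_ncard hsub (toFinite _)
    have h5 := line_ncard (S := S) f
    omega
  · have hnot : e ∉ ((M S) ／ C ＼ D).E := by
      rw [hE]
      tauto
    have h1 := degree_bound e ((M S) ／ C ＼ D).E hnot (by
      rintro x hx y hy hxy f ⟨h1, h2, h3⟩
      have hpair : ((M S) ／ C ＼ D).Indep {x, y} := by
        rw [hind _ (by rintro z (rfl | rfl) <;> assumption), encard_pair hxy]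
      rw [Matroid.delete_indep_iff] at hpair
      have hC' : C = {e} ∪ (C \ {e}) := by
        rw [Set.union_sdiff_cancel]
        simpa using he
      have h4 : ((M S) ／ {e}).Indep {x, y} := by
        have h5 := hpair.1
        rw [hC', ← Matroid.contract_contract] at h5
        exact h5.of_contract
      have he1 : (M S).Indep {e} := by
        have := mat_pair (hL := lin S) e e
        rwa [Set.pair_eq_singleton] at this
      rw [he1.contract_indep_iff] at h4
      have h5 := h4.2
      unfold M at h5
      rw [mat_indep] at h5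
      have hex : e ≠ x := by
        rintro rfl
        exact hnot hx
      have hey : e ≠ y := by
        rintro rfl
        exact hnot hy
      have h6 : ({x, y} ∪ {e} : Set (Option K × S)).encard = 3 := by
        rw [Set.union_singleton, encard_insert_of_notMem (by simp [hex, hey]), encard_pair hxy]
        norm_num
      rcases h5 with h5 | h5
      · rw [h6] at h5
        exact absurd h5 (by decide)
      · apply h5.2 _ ⟨f, rfl⟩
        rintro z ((rfl | rfl) | rfl) <;> assumption)
    omega

end Pool.Agent.N357.Broken
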