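import Mathlib
import Pool.Agent.N357.Broken

set_option autoImplicit false

/-!
# Counting the flats of rank two
-/

namespace Pool.Agent.N357.Broken

open Set Matroid Pool.Agent.N357.Plane

variable {K : Type} [Field K] [Finite K] {S : Set K}

/-- two different points on the line of `f` -/
theorem two_points (hS : 2 ≤ S.ncard) (f : K × K) (hf : f.2 ≠ 0 ∨ f.1 ∈ S) :
    ∃ x y : Option K × S, x.1 ≠ y.1 ∧ x ∈ line S f ∧ y ∈ line S f := by
  obtain ⟨a, b⟩ := f
  by_cases hb : b = 0
  · subst hb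
    have ha : a ∈ S := by
      rcases hf with hf | hf
      · exact absurd rfl hf
      · exact hf
    refine ⟨(some 0, ⟨a, ha⟩), (some 1, ⟨a, ha⟩), ?_, ?_, ?_⟩
    · simp
    · change val (a, 0) (some 0) = a
      simp [val]
    · change val (a, 0) (some 1) = a
      simp [val]
  · obtain ⟨s, hs, t, ht, hst⟩ := (Set.one_lt_ncard (toFinite S)).1 (by omega : 1 < S.ncard)
    refine ⟨(some ((s - a) / b), ⟨s, hs⟩), (some ((t - a) / b), ⟨t, ht⟩), ?_, ?_, ?_⟩
    · simp only [ne_eq, Option.some.injEq]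
      intro h
      rw [div_left_inj' hb] at h
      exact hst (sub_left_injective h)
    · change val (a, b) (some ((s - a) / b)) = s
      simp only [val]
      field_simp
      ring
    · change val (a, b) (some ((t - a) / b)) = t
      simp only [val]
      field_simp
      ring

/-- the indices of the flats -/
abbrev Idx (S : Set K) : Type :=
  {f : K × K // f.2 ≠ 0 ∨ f.1 ∈ S} ⊕ (Option K × {T : Set S // T.ncard = 2})

/-- the flats -/
def fl : Idx S → Set (Option K × S)
  | Sum.inl f => line S f.1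
  | Sum.inr (c, T) => {x | x.1 = c ∧ x.2 ∈ T.1}

theorem fl_isFlat (hS : 2 ≤ S.ncard) (i : Idx S) :
    (M S).IsFlat (fl i) ∧ (M S).eRk (fl i) = 2 := by
  rcases i with f | ⟨c, T, hT⟩
  · obtain ⟨x, y, hxy, hx, hy⟩ := two_points hS f.1 f.2
    exact line_isFlat ⟨f.1, rfl⟩ (fun h => hxy (by rw [h])) hx hy
  · obtain ⟨s, t, hst, rfl⟩ := ncard_eq_two.1 hT
    have h1 : fl (Sum.inr (c, ⟨{s, t}, hT⟩) : Idx S) = {(c, s), (c, t)} := by
      ext ⟨d, u⟩
      simp only [fl, mem_insert_iff, mem_singleton_iff, Prod.mk.injEq]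
      constructor
      · rintro ⟨h1, h2⟩
        simp only at h1 h2
        rcases h2 with h2 | h2
        · exact Or.inl ⟨h1, h2⟩
        · exact Or.inr ⟨h1, h2⟩
      · rintro (⟨h1, h2⟩ | ⟨h1, h2⟩)
        · exact ⟨h1, Or.inl h2⟩
        · exact ⟨h1, Or.inr h2⟩
    rw [h1]
    apply pair_isFlat
    · intro h
      exact hst (congrArg Prod.snd h)
    · rintro _ ⟨f, rfl⟩ h2 h3
      have h4 : val f c = s := h2
      have h5 : val f c = t := h3
      exact hst (Subtype.ext (h4.symm.trans h5))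

theorem fl_injective (hS : 2 ≤ S.ncard) : Function.Injective (fl : Idx S → _) := by
  rintro (f | ⟨c, T⟩) (g | ⟨d, U⟩) h
  · obtain ⟨x, y, hxy, hx, hy⟩ := two_points hS f.1 f.2
    have h1 : line S f.1 = line S g.1 := h
    have hx' : x ∈ line S g.1 := h1 ▸ hx
    have hy' : y ∈ line S g.1 := h1 ▸ hy
    have h2 : val f.1 x.1 = val g.1 x.1 := Eq.trans (show val f.1 x.1 = x.2 from hx) (Eq.symm hx')
    have h3 : val f.1 y.1 = val g.1 y.1 := Eq.trans (show val f.1 y.1 = y.2 from hy) (Eq.symm hy')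
    rw [Subtype.ext (val_unique hxy h2 h3)]
  · exfalso
    obtain ⟨x, y, hxy, hx, hy⟩ := two_points hS f.1 f.2
    have h1 : line S f.1 = fl (Sum.inr (d, U)) := h
    rw [h1] at hx hy
    exact hxy (hx.1.trans hy.1.symm)
  · exfalso
    obtain ⟨x, y, hxy, hx, hy⟩ := two_points hS g.1 g.2
    have h1 : fl (Sum.inr (c, T)) = line S g.1 := h
    rw [← h1] at hx hy
    exact hxy (hx.1.trans hy.1.symm)
  · obtain ⟨s, hs⟩ : T.1.Nonempty := by
      apply nonempty_of_ncard_ne_zero
      rw [T.2]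
      norm_num
    have h1 : (c, s) ∈ fl (Sum.inr (c, T) : Idx S) := ⟨rfl, hs⟩
    rw [h] at h1
    have hcd : c = d := h1.1
    subst hcd
    have h2 : T.1 = U.1 := by
      ext t
      constructor
      · intro ht
        have h3 : (c, t) ∈ fl (Sum.inr (c, T) : Idx S) := ⟨rfl, ht⟩
        rw [h] at h3
        exact h3.2
      · intro ht
        have h3 : (c, t) ∈ fl (Sum.inr (c, U) : Idx S) := ⟨rfl, ht⟩
        rw [← h] at h3
        exact h3.2
    rw [Subtype.ext h2]

theorem card_pairs {β : Type} [Finite β] : Nat.card {T : Set β // T.ncard = 2} =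
    (Nat.card β).choose 2 := by
  have h1 := Set.ncard_powerset_ncard (finite_univ (α := β)) 2
  rw [ncard_univ] at h1
  rw [← h1]
  change Nat.card {T : Set β | T.ncard = 2} = _
  rw [Nat.card_coe_set_eq]
  congr 1
  ext T
  simp

theorem card_idx : Nat.card (Idx S) =
    (Nat.card K - 1) * Nat.card K + S.ncard + (Nat.card K + 1) * S.ncard.choose 2 := by
  rw [Nat.card_sum, Nat.card_prod, card_pairs, Finite.card_option, Nat.card_coe_set_eq]
  congr 1
  have h1 : {f : K × K | f.2 ≠ 0 ∨ f.1 ∈ S} = (univ ×ˢ {0}ᶜ) ∪ (S ×ˢ {0}) := by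
    ext ⟨a, b⟩
    simp only [mem_ofPred_eq, mem_union, mem_prod, mem_univ, true_and, mem_compl_iff,
      mem_singleton_iff]
    tauto
  change Nat.card {f : K × K | f.2 ≠ 0 ∨ f.1 ∈ S} = _
  rw [Nat.card_coe_set_eq, h1, ncard_union_eq, ncard_prod, ncard_prod, ncard_singleton, ncard_univ,
    ncard_compl, ncard_singleton, mul_one, mul_comm]
  rw [Set.disjoint_left]
  rintro ⟨a, b⟩ ⟨-, h2⟩ ⟨-, h3⟩
  exact h2 h3

theorem many_flats (hS : 2 ≤ S.ncard) :
    (Nat.card K - 1) * Nat.card K + S.ncard + (Nat.card K + 1) * S.ncard.choose 2 ≤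
      {F | (M S).IsFlat F ∧ (M S).eRk F = 2}.ncard := by
  rw [← card_idx, ← ncard_univ, ← ncard_image_of_injective univ (fl_injective hS)]
  apply ncard_le_ncard
  · rintro _ ⟨i, -, rfl⟩
    exact fl_isFlat hS i
  · exact toFinite _

end Pool.Agent.N357.Broken
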