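import Mathlib

set_option autoImplicit false

/-!
# Direct sums of finitary and cofinitary matroids
-/

namespace Pool.Agent.N357.Infinite

open Set Matroid

universe u

variable {S : Type u}

/-- `M` is a direct sum of finitary and cofinitary matroids: there is a partition such that circuits
and cocircuits are in one part each, and each part has no infinite circuits or no infinite
cocircuits -/
def Good (M : Matroid S) : Prop :=
  ∃ r : Setoid S, (∀ C, M.IsCircuit C → ∀ x ∈ C, ∀ y ∈ C, r x y) ∧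
    (∀ K, M.IsCocircuit K → ∀ x ∈ K, ∀ y ∈ K, r x y) ∧
    ∀ z, (∀ C, M.IsCircuit C → (∀ x ∈ C, r x z) → C.Finite) ∨
      (∀ K, M.IsCocircuit K → (∀ x ∈ K, r x z) → K.Finite)

theorem Good.dual {M : Matroid S} (h : Good M) : Good M✶ := by
  obtain ⟨r, h1, h2, h3⟩ := h
  refine ⟨r, fun C hC => h2 C hC, fun K hK => h1 K (by rwa [dual_isCocircuit_iff] at hK), ?_⟩
  intro z
  rcases h3 z with h | h
  · exact Or.inr fun K hK => h K (by rwa [dual_isCocircuit_iff] at hK)
  · exact Or.inl fun C hC => h C hC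

theorem good_of_finitary {M : Matroid S} (h : M.Finitary) : Good M := by
  refine ⟨⊤, fun _ _ _ _ _ _ => trivial, fun _ _ _ _ _ _ => trivial, fun z => Or.inl ?_⟩
  intro C hC _
  exact hC.finite

theorem Good.restrict {M : Matroid S} (h : Good M) {R : Set S} (hR : R ⊆ M.E) :
    Good (M ↾ R) := by
  obtain ⟨r, h1, h2, h3⟩ := h
  have hcirc : ∀ C, (M ↾ R).IsCircuit C → M.IsCircuit C := by
    intro C hC
    rw [restrict_isCircuit_iff hR] at hC
    exact hC.1
  have hcoc : ∀ K, (M ↾ R).IsCocircuit K → ∃ K', K ⊆ K' ∧ M.IsCocircuit K' := by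
    intro K hK
    rw [isCocircuit_def, ← delete_compl hR, dual_delete] at hK
    obtain ⟨K', hK1, hK2, hK3⟩ := hK.exists_subset_isCircuit_of_contract
    exact ⟨K', hK2, hK1⟩
  refine ⟨r, fun C hC => h1 C (hcirc C hC), ?_, ?_⟩
  · intro K hK x hx y hy
    obtain ⟨K', hKK', hK'⟩ := hcoc K hK
    exact h2 K' hK' x (hKK' hx) y (hKK' hy)
  · intro z
    rcases h3 z with h | h
    · exact Or.inl fun C hC => h C (hcirc C hC)
    · right
      intro K hK hKz
      obtain ⟨K', hKK', hK'⟩ := hcoc K hK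
      apply (h K' hK' ?_).subset hKK'
      intro x hx
      obtain ⟨y, hy⟩ := hK.nonempty
      exact r.trans (h2 K' hK' x hx y (hKK' hy)) (hKz y hy)

theorem Good.contract {M : Matroid S} (h : Good M) (C : Set S) : Good (M ／ C) := by
  rw [← dual_delete_dual, delete_eq_restrict]
  apply Good.dual
  apply h.dual.restrict
  exact sdiff_subset


theorem map_isCircuit {M : Matroid S} {f : S → S} {hf : InjOn f M.E} {C : Set S}
    (hC : (M.map f hf).IsCircuit C) : ∃ C₀, M.IsCircuit C₀ ∧ C = f '' C₀ := by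
  obtain ⟨C₀, h1, rfl⟩ := map_dep_iff.1 hC.dep
  refine ⟨C₀, ⟨h1, ?_⟩, rfl⟩
  intro D hD hDC
  have h2 : (M.map f hf).Dep (f '' D) := map_dep_iff.2 ⟨D, hD, rfl⟩
  have h3 : f '' D = f '' C₀ := hC.eq_of_dep_subset h2 (image_mono hDC)
  have h4 := (hf.image_eq_image_iff hD.subset_ground h1.subset_ground).1 h3
  exact h4.ge

/-- the transported equivalence relation -/
def mapSetoid (r : Setoid S) (E : Set S) (f : S → S) (hf : InjOn f E) : Setoid S where
  r a b := a = b ∨ ∃ x ∈ E, ∃ y ∈ E, a = f x ∧ b = f y ∧ r x y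
  iseqv := by
    refine ⟨fun a => Or.inl rfl, ?_, ?_⟩
    · rintro a b (h | ⟨x, hx, y, hy, h1, h2, h3⟩)
      · exact Or.inl h.symm
      · exact Or.inr ⟨y, hy, x, hx, h2, h1, r.symm h3⟩
    · rintro a b c (h | ⟨x, hx, y, hy, h1, h2, h3⟩) (h' | ⟨x', hx', y', hy', h1', h2', h3'⟩)
      · exact Or.inl (h.trans h')
      · exact Or.inr ⟨x', hx', y', hy', h.trans h1', h2', h3'⟩
      · exact Or.inr ⟨x, hx, y, hy, h1, h'.symm.trans h2, h3⟩
      · refine Or.inr ⟨x, hx, y', hy', h1, h2', ?_⟩
        have h4 : y = x' := hf hy hx' (h2.symm.trans h1')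
        rw [← h4] at h3'
        exact r.trans h3 h3'

theorem Good.map {M : Matroid S} (h : Good M) (f : S → S) (hf : InjOn f M.E) :
    Good (M.map f hf) := by
  obtain ⟨r, h1, h2, h3⟩ := h
  have hcoc : ∀ K, (M.map f hf).IsCocircuit K → ∃ K₀, M.IsCocircuit K₀ ∧ K = f '' K₀ := by
    intro K hK
    rw [isCocircuit_def, map_dual] at hK
    exact map_isCircuit hK
  refine ⟨mapSetoid r M.E f hf, ?_, ?_, ?_⟩
  · intro C hC x hx y hy
    obtain ⟨C₀, hC₀, rfl⟩ := map_isCircuit hC
    obtain ⟨x, hx, rfl⟩ := hx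
    obtain ⟨y, hy, rfl⟩ := hy
    exact Or.inr ⟨x, hC₀.subset_ground hx, y, hC₀.subset_ground hy, rfl, rfl, h1 C₀ hC₀ x hx y hy⟩
  · intro K hK x hx y hy
    obtain ⟨C₀, hC₀, rfl⟩ := hcoc K hK
    obtain ⟨x, hx, rfl⟩ := hx
    obtain ⟨y, hy, rfl⟩ := hy
    exact Or.inr ⟨x, hC₀.subset_ground hx, y, hC₀.subset_ground hy, rfl, rfl, h2 C₀ hC₀ x hx y hy⟩
  · intro z
    have key : ∀ w ∈ M.E, ∀ C₀ ⊆ M.E, (∀ x ∈ f '' C₀, mapSetoid r M.E f hf x (f w)) →
        ∀ x ∈ C₀, r x w := by
      intro w hw C₀ hC₀ hx x hxC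
      rcases hx (f x) (mem_image_of_mem f hxC) with h | ⟨x', hx', w', hw', h4, h5, h6⟩
      · rw [hf (hC₀ hxC) hw h]
      · rw [hf (hC₀ hxC) hx' h4, hf hw hw' h5]
        exact h6
    by_cases hz : z ∈ f '' M.E
    · obtain ⟨w, hw, rfl⟩ := hz
      rcases h3 w with h | h
      · left
        intro C hC hCz
        obtain ⟨C₀, hC₀, rfl⟩ := map_isCircuit hC
        exact (h C₀ hC₀ (key w hw C₀ hC₀.subset_ground hCz)).image f
      · right
        intro C hC hCz
        obtain ⟨C₀, hC₀, rfl⟩ := hcoc C hC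
        exact (h C₀ hC₀ (key w hw C₀ hC₀.subset_ground hCz)).image f
    · left
      intro C hC hCz
      exfalso
      obtain ⟨x, hx⟩ := hC.nonempty
      rcases hCz x hx with h | ⟨x', hx', w', hw', h4, h5, h6⟩
      · rw [← h] at hz
        exact hz (hC.subset_ground hx)
      · exact hz ⟨w', hw', h5.symm⟩

section sums

variable {ι : Type u} {M : ι → Matroid S}
  {hM : Pairwise (Function.onFun Disjoint fun i => (M i).E)}

theorem sum_dual : (Matroid.disjointSigma M hM)✶ =
    Matroid.disjointSigma (fun i => (M i)✶) (by simpa using hM) := by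
  apply ext_isBase
  · simp
  · intro B hB
    rw [dual_ground, disjointSigma_ground_eq] at hB
    rw [dual_isBase_iff (by rwa [disjointSigma_ground_eq]), disjointSigma_isBase_iff,
      disjointSigma_isBase_iff, disjointSigma_ground_eq]
    have h1 : ∀ i, ((⋃ i, (M i).E) \ B) ∩ (M i).E = (M i).E \ (B ∩ (M i).E) := by
      intro i
      ext x
      simp only [mem_inter_iff, mem_sdiff, mem_iUnion]
      constructor
      · rintro ⟨⟨-, h2⟩, h3⟩
        exact ⟨h3, fun h => h2 h.1⟩
      · rintro ⟨h2, h3⟩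
        exact ⟨⟨⟨i, h2⟩, fun h => h3 ⟨h, h2⟩⟩, h2⟩
    have h2 : ∀ i, (M i)✶.IsBase (B ∩ (M i).E) ↔ (M i).IsBase ((M i).E \ (B ∩ (M i).E)) := by
      intro i
      rw [dual_isBase_iff inter_subset_right]
    simp only [dual_ground, h1, h2]
    constructor
    · rintro ⟨h3, -⟩
      exact ⟨h3, by simpa using hB⟩
    · rintro ⟨h3, -⟩
      exact ⟨h3, sdiff_subset⟩

theorem sum_isCircuit {C : Set S} (hC : (Matroid.disjointSigma M hM).IsCircuit C) :
    ∃ i, (M i).IsCircuit C := by
  have h1 := hC.not_indep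
  have hCE := hC.subset_ground
  rw [disjointSigma_ground_eq] at hCE
  rw [disjointSigma_indep_iff] at h1
  have h2 : ∃ i, ¬ (M i).Indep (C ∩ (M i).E) := by
    by_contra hcon
    push Not at hcon
    exact h1 ⟨hcon, hCE⟩
  obtain ⟨i, hi⟩ := h2
  have h3 : ¬ (Matroid.disjointSigma M hM).Indep (C ∩ (M i).E) := by
    rw [disjointSigma_indep_iff]
    rintro ⟨h3, -⟩
    apply hi
    have := h3 i
    rwa [inter_assoc, inter_self] at this
  have h4 : C ∩ (M i).E = C := hC.eq_of_not_indep_subset h3 inter_subset_left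
  refine ⟨i, ⟨⟨by rwa [h4] at hi, inter_eq_left.1 h4⟩, ?_⟩⟩
  intro D hD hDC
  have h5 : ¬ (Matroid.disjointSigma M hM).Indep D := by
    rw [disjointSigma_indep_iff]
    rintro ⟨h5, -⟩
    apply hD.not_indep
    have := h5 i
    rwa [inter_eq_left.2 hD.subset_ground] at this
  exact (hC.eq_of_not_indep_subset h5 hDC).ge

theorem good_sum (h : ∀ i, Good (M i)) : Good (Matroid.disjointSigma M hM) := by
  choose r h1 h2 h3 using h
  have hdisj : ∀ i j x, x ∈ (M i).E → x ∈ (M j).E → i = j := by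
    intro i j x hi hj
    by_contra hne
    exact Set.disjoint_left.1 (hM hne) hi hj
  have hcoc : ∀ K, (Matroid.disjointSigma M hM).IsCocircuit K → ∃ i, (M i).IsCocircuit K := by
    intro K hK
    rw [isCocircuit_def, sum_dual] at hK
    exact sum_isCircuit hK
  let R : Setoid S :=
    { r := fun a b => a = b ∨ ∃ i, a ∈ (M i).E ∧ b ∈ (M i).E ∧ r i a b
      iseqv := by
        refine ⟨fun a => Or.inl rfl, ?_, ?_⟩
        · rintro a b (h | ⟨i, h4, h5, h6⟩)
          · exact Or.inl h.symm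
          · exact Or.inr ⟨i, h5, h4, (r i).symm h6⟩
        · rintro a b c (h | ⟨i, h4, h5, h6⟩) (h' | ⟨j, h4', h5', h6'⟩)
          · exact Or.inl (h.trans h')
          · exact Or.inr ⟨j, by rwa [h], h5', by rwa [h]⟩
          · exact Or.inr ⟨i, h4, by rwa [← h'], by rwa [← h']⟩
          · have := hdisj i j b h5 h4'
            subst this
            exact Or.inr ⟨i, h4, h5', (r i).trans h6 h6'⟩ }
  refine ⟨R, ?_, ?_, ?_⟩
  · intro C hC x hx y hy
    obtain ⟨i, hi⟩ := sum_isCircuit hC
    exact Or.inr ⟨i, hi.subset_ground hx, hi.subset_ground hy, h1 i C hi x hx y hy⟩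
  · intro C hC x hx y hy
    obtain ⟨i, hi⟩ := hcoc C hC
    exact Or.inr ⟨i, hi.subset_ground hx, hi.subset_ground hy, h2 i C hi x hx y hy⟩
  · intro z
    have key : ∀ i, z ∈ (M i).E → ∀ j, ∀ C ⊆ (M j).E, C.Nonempty → (∀ x ∈ C, R x z) →
        i = j ∧ ∀ x ∈ C, r i x z := by
      intro i hz j C hC hne hCz
      have hij : i = j := by
        obtain ⟨x, hx⟩ := hne
        rcases hCz x hx with h | ⟨l, h4, h5, h6⟩
        · rw [h] at hx
          exact hdisj i j z hz (hC hx)
        · rw [hdisj j l x (hC hx) h4, hdisj i l z hz h5]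
      subst hij
      refine ⟨rfl, fun x hx => ?_⟩
      rcases hCz x hx with h | ⟨l, h4, h5, h6⟩
      · rw [h]
      · rwa [hdisj i l z hz h5]
    by_cases hz : ∃ i, z ∈ (M i).E
    · obtain ⟨i, hz⟩ := hz
      rcases h3 i z with h | h
      · left
        intro C hC hCz
        obtain ⟨j, hj⟩ := sum_isCircuit hC
        obtain ⟨hij, h4⟩ := key i hz j C hj.subset_ground hj.nonempty hCz
        subst hij
        exact h C hj h4
      · right
        intro C hC hCz
        obtain ⟨j, hj⟩ := hcoc C hC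
        obtain ⟨hij, h4⟩ := key i hz j C hj.subset_ground hj.nonempty hCz
        subst hij
        exact h C hj h4
    · left
      intro C hC hCz
      exfalso
      obtain ⟨x, hx⟩ := hC.nonempty
      rcases hCz x hx with h | ⟨l, h4, h5, h6⟩
      · obtain ⟨j, hj⟩ := sum_isCircuit hC
        rw [h] at hx
        exact hz ⟨j, hj.subset_ground hx⟩
      · exact hz ⟨l, h5⟩

end sums

section example_matroid

variable {A B : Set S}

open Classical in
/-- elements of `A` are sent to `a` -/
noncomputable def gmap (A : Set S) (a x : S) : S := if x ∈ A then a else x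

/-- the rank-one uniform matroid on `C` -/
noncomputable def rankOne (C : Set S) (a : S) : Matroid S := (freeOn {a}).comapOn C (fun _ => a)

/-- `A` is a parallel class, `{a} ∪ B` is a circuit for every `a` in `A` -/
noncomputable def NAB (A B : Set S) (a : S) : Matroid S :=
  ((rankOne (insert a B) a)✶).comapOn (A ∪ B) (gmap A a)

theorem rankOne_indep {C : Set S} {a : S} {I : Set S} :
    (rankOne C a).Indep I ↔ I ⊆ C ∧ I.Subsingleton := by
  rw [rankOne, comapOn_indep_iff, freeOn_indep_iff]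
  constructor
  · rintro ⟨-, h2, h3⟩
    refine ⟨h3, fun x hx y hy => h2 hx hy rfl⟩
  · rintro ⟨h3, h2⟩
    refine ⟨?_, fun x hx y hy _ => h2 hx hy, h3⟩
    rintro _ ⟨x, -, rfl⟩
    rfl

theorem rankOne_isBase {C : Set S} {a : S} {I : Set S} (hC : C.Nonempty) :
    (rankOne C a).IsBase I ↔ ∃ c ∈ C, I = {c} := by
  rw [isBase_iff_maximal_indep]
  constructor
  · intro h
    have h1 := rankOne_indep.1 h.prop
    rcases I.eq_empty_or_nonempty with rfl | ⟨c, hc⟩
    · obtain ⟨c, hc⟩ := hC
      have h2 : (rankOne C a).Indep {c} :=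
        rankOne_indep.2 ⟨by simpa using hc, subsingleton_singleton⟩
      have h3 := h.le_of_ge h2 (empty_subset _)
      exact absurd (h3 rfl) (notMem_empty c)
    · exact ⟨c, h1.1 hc, h1.2.eq_singleton_of_mem hc⟩
  · rintro ⟨c, hc, rfl⟩
    refine ⟨rankOne_indep.2 ⟨by simpa using hc, subsingleton_singleton⟩, ?_⟩
    intro J hJ hcJ
    have h1 := rankOne_indep.1 hJ
    rw [h1.2.eq_singleton_of_mem (hcJ rfl)]

theorem NAB_indep {a : S} (ha : a ∈ A) (hAB : Disjoint A B) {I : Set S} :
    (NAB A B a).Indep I ↔ I ⊆ A ∪ B ∧ (I ∩ A).Subsingleton ∧ ((I ∩ A).Nonempty → ¬ B ⊆ I) := by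
  have hne : (insert a B).Nonempty := insert_nonempty _ _
  have hgA : ∀ x ∈ A, gmap A a x = a := fun x hx => if_pos hx
  have hgB : ∀ x ∉ A, gmap A a x = x := fun x hx => if_neg hx
  have hBA : ∀ x ∈ B, x ∉ A := fun x hx h => Set.disjoint_left.1 hAB h hx
  rw [NAB, comapOn_indep_iff, dual_indep_iff_exists']
  constructor
  · rintro ⟨⟨-, D, hD, hdis⟩, hinj, hsub⟩
    refine ⟨hsub, ?_, ?_⟩
    · intro x hx y hy
      exact hinj hx.1 hy.1 (by rw [hgA x hx.2, hgA y hy.2])
    · rintro ⟨x, hxI, hxA⟩ hBI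
      obtain ⟨c, hc, rfl⟩ := (rankOne_isBase hne).1 hD
      rw [Set.disjoint_right] at hdis
      apply hdis (a := c) rfl
      rcases hc with rfl | hc
      · exact ⟨x, hxI, hgA x hxA⟩
      · exact ⟨c, hBI hc, hgB c (hBA c hc)⟩
  · rintro ⟨hsub, h1, h2⟩
    refine ⟨⟨?_, ?_⟩, ?_, hsub⟩
    · rintro _ ⟨x, hx, rfl⟩
      change _ ∈ insert a B
      by_cases hxA : x ∈ A
      · rw [hgA x hxA]
        exact mem_insert _ _
      · rw [hgB x hxA]
        exact mem_insert_of_mem _ ((hsub hx).resolve_left hxA)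
    · by_cases hIA : (I ∩ A).Nonempty
      · obtain ⟨b, hb, hbI⟩ := not_subset.1 (h2 hIA)
        refine ⟨{b}, (rankOne_isBase hne).2 ⟨b, mem_insert_of_mem _ hb, rfl⟩, ?_⟩
        rw [Set.disjoint_singleton_right]
        rintro ⟨x, hx, hxb⟩
        by_cases hxA : x ∈ A
        · rw [hgA x hxA] at hxb
          rw [hxb] at ha
          exact hBA b hb ha
        · rw [hgB x hxA] at hxb
          rw [hxb] at hx
          exact hbI hx
      · refine ⟨{a}, (rankOne_isBase hne).2 ⟨a, mem_insert _ _, rfl⟩, ?_⟩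
        rw [Set.disjoint_singleton_right]
        rintro ⟨x, hx, hxa⟩
        by_cases hxA : x ∈ A
        · exact hIA ⟨x, hx, hxA⟩
        · rw [hgB x hxA] at hxa
          rw [hxa] at hxA
          exact hxA ha
    · intro x hx y hy hxy
      by_cases hxA : x ∈ A
      · by_cases hyA : y ∈ A
        · exact h1 ⟨hx, hxA⟩ ⟨hy, hyA⟩
        · rw [hgA x hxA, hgB y hyA] at hxy
          rw [← hxy] at hyA
          exact absurd ha hyA
      · by_cases hyA : y ∈ A
        · rw [hgB x hxA, hgA y hyA] at hxy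
          rw [hxy] at hxA
          exact absurd ha hxA
        · rwa [hgB x hxA, hgB y hyA] at hxy

theorem NAB_not_good {a : S} (ha : a ∈ A) (hAB : Disjoint A B) (hA : A.Infinite)
    (hB : B.Infinite) : ¬ Good (NAB A B a) := by
  have hBA : ∀ x ∈ B, x ∉ A := fun x hx h => Set.disjoint_left.1 hAB h hx
  have hE : (NAB A B a).E = A ∪ B := rfl
  obtain ⟨b, hb⟩ := hB.nonempty
  have hcirc : (NAB A B a).IsCircuit (insert a B) := by
    rw [isCircuit_iff_dep_forall_sdiff_singleton_indep]
    refine ⟨⟨?_, ?_⟩, ?_⟩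
    · rw [NAB_indep ha hAB]
      rintro ⟨-, -, h⟩
      exact h ⟨a, mem_insert _ _, ha⟩ (subset_insert _ _)
    · rw [hE]
      exact insert_subset (Or.inl ha) subset_union_right
    · rintro e he
      rw [NAB_indep ha hAB]
      refine ⟨?_, ?_, ?_⟩
      · exact sdiff_subset.trans (insert_subset (Or.inl ha) subset_union_right)
      · rintro x ⟨⟨hx, -⟩, hxA⟩ y ⟨⟨hy, -⟩, hyA⟩
        have h1 : x = a := hx.resolve_right (fun h => hBA x h hxA)
        have h2 : y = a := hy.resolve_right (fun h => hBA y h hyA)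
        rw [h1, h2]
      · rintro ⟨x, ⟨hx, hxe⟩, hxA⟩ hsub
        have h1 : x = a := hx.resolve_right (fun h => hBA x h hxA)
        rcases he with rfl | he
        · exact hxe h1
        · exact (hsub he).2 rfl
  have hbase1 : (NAB A B a).IsBase B := by
    rw [isBase_iff_maximal_indep]
    refine ⟨?_, ?_⟩
    · rw [NAB_indep ha hAB]
      refine ⟨subset_union_right, ?_, ?_⟩
      · rintro x ⟨hx, hxA⟩
        exact absurd hxA (hBA x hx)
      · rintro ⟨x, hx, hxA⟩
        exact absurd hxA (hBA x hx)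
    · intro J hJ hBJ x hx
      rw [NAB_indep ha hAB] at hJ
      rcases hJ.1 hx with h | h
      · exact absurd hBJ (hJ.2.2 ⟨x, hx, h⟩)
      · exact h
  have hbase2 : ∀ a' ∈ A, (NAB A B a).IsBase (insert a' (B \ {b})) := by
    intro a' ha'
    rw [isBase_iff_maximal_indep]
    refine ⟨?_, ?_⟩
    · rw [NAB_indep ha hAB]
      refine ⟨insert_subset (Or.inl ha') (sdiff_subset.trans subset_union_right), ?_, ?_⟩
      · rintro x ⟨hx, hxA⟩ y ⟨hy, hyA⟩
        have h1 : x = a' := hx.resolve_right (fun h => hBA x h.1 hxA)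
        have h2 : y = a' := hy.resolve_right (fun h => hBA y h.1 hyA)
        rw [h1, h2]
      · rintro - hsub
        rcases hsub hb with h | h
        · rw [h] at hb
          exact hBA a' hb ha'
        · exact h.2 rfl
    · intro J hJ hBJ x hx
      rw [NAB_indep ha hAB] at hJ
      have haJ : a' ∈ J := hBJ (mem_insert _ _)
      have hbJ : b ∉ J := by
        intro h
        apply hJ.2.2 ⟨a', haJ, ha'⟩
        intro y hy
        by_cases hyb : y = b
        · rwa [hyb]
        · exact hBJ (mem_insert_of_mem _ ⟨hy, hyb⟩)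
      rcases hJ.1 hx with h | h
      · left
        exact hJ.2.1 ⟨hx, h⟩ ⟨haJ, ha'⟩
      · right
        refine ⟨h, ?_⟩
        rintro rfl
        exact hbJ hx
  have hcocirc : (NAB A B a).IsCocircuit (insert b A) := by
    rw [isCocircuit_def, isCircuit_iff_dep_forall_sdiff_singleton_indep]
    refine ⟨⟨?_, ?_⟩, ?_⟩
    · rw [dual_indep_iff_exists']
      rintro ⟨-, D, hD, hdis⟩
      have h1 : D ⊆ B := by
        intro x hx
        rcases hD.subset_ground hx with h | h
        · exact absurd hx (Set.disjoint_left.1 hdis (mem_insert_of_mem _ h))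
        · exact h
      have h2 : D = B := hD.eq_of_subset_indep hbase1.indep h1
      rw [h2] at hdis
      exact Set.disjoint_left.1 hdis (mem_insert _ _) hb
    · rw [dual_ground, hE]
      exact insert_subset (Or.inr hb) subset_union_left
    · intro e he
      rw [dual_indep_iff_exists']
      refine ⟨sdiff_subset.trans (insert_subset (Or.inr hb) subset_union_left), ?_⟩
      rcases he with rfl | he
      · refine ⟨B, hbase1, ?_⟩
        rw [Set.disjoint_left]
        rintro x ⟨hx, hxe⟩ hxB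
        exact hBA x hxB (hx.resolve_left hxe)
      · refine ⟨insert e (B \ {b}), hbase2 e he, ?_⟩
        rw [Set.disjoint_left]
        rintro x ⟨hx, hxe⟩ hxB
        have h1 := hxB.resolve_left hxe
        exact hBA x h1.1 (hx.resolve_left h1.2)
  rintro ⟨r, h1, h2, h3⟩
  rcases h3 b with h | h
  · have h4 := h _ hcirc fun x hx => h1 _ hcirc x hx b (mem_insert_of_mem _ hb)
    exact hB (h4.subset (subset_insert _ _))
  · have h4 := h _ hcocirc fun x hx => h2 _ hcocirc x hx b (mem_insert _ _)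
    exact hA (h4.subset (subset_insert _ _))

end example_matroid

end Pool.Agent.N357.Infinite
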