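import Mathlib

set_option autoImplicit false

/-!
# `M(K_4)`-minors of principal truncations

If the principal truncation of `G` along `F` has an `M(K_4)`-minor, then so has `G`.
-/

namespace Pool.Agent.N357.K4

open Set Matroid

/-- independence in `M(K_4)`; the four triangles are 024, 035, 123, 145 -/
def K4Ind (I : Finset (Fin 6)) : Prop :=
  I.card ≤ 3 ∧ I ≠ {0, 2, 4} ∧ I ≠ {0, 3, 5} ∧ I ≠ {1, 2, 3} ∧ I ≠ {1, 4, 5}

instance : DecidablePred K4Ind := fun I => by unfold K4Ind; infer_instance

theorem k4_pair : ∀ i : Fin 6, i ≠ 0 → K4Ind {0, i} := by decide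

theorem k4_single : ∀ i : Fin 6, K4Ind {i} := by decide

theorem k4_erase : ∀ J : Finset (Fin 6), K4Ind (insert 0 J) → K4Ind J := by decide

universe u

variable {α : Type u}

/-- the elements `x 0, …, x 5` form an `M(K_4)` after contracting `C` -/
def Conf (M : Matroid α) (x : Fin 6 → α) (C : Set α) : Prop :=
  Function.Injective x ∧ Disjoint (range x) C ∧
    ∀ I : Finset (Fin 6), M.Indep (x '' (I : Set (Fin 6)) ∪ C) ↔ K4Ind I

/-- `M` has an `M(K_4)`-minor -/
def HasK4 (M : Matroid α) : Prop := ∃ x C, Conf M x C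

/-- the elements `x 0, …, x 5` form an `M(K_4)` in the principal truncation along `F` -/
structure PT (G : Matroid α) (F : Set α) (x : Fin 6 → α) : Prop where
  inj : Function.Injective x
  sub : F ⊆ G.E
  h : ∀ I : Finset (Fin 6), (G.Indep (x '' (I : Set (Fin 6))) ∧
    ¬ F ⊆ G.closure (x '' (I : Set (Fin 6)))) ↔ K4Ind I

section tools

variable {G : Matroid α}

theorem toolA {I J : Set α} (hI : G.Indep I) (h : I ⊆ G.closure J) : I.encard ≤ J.encard := by
  refine (hI.encard_le_eRk_of_subset h).trans ?_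
  rw [Matroid.eRk_closure_eq]
  exact G.eRk_le_encard J

theorem toolB {I J : Set α} (hI : G.Indep I) (hIf : I.Finite) (h : I ⊆ G.closure J)
    (hc : J.encard ≤ I.encard) : G.closure I = G.closure J := by
  have h1 : G.IsRkFinite I := G.isRkFinite_of_finite hIf
  rw [h1.closure_eq_closure_of_subset_of_eRk_ge_eRk h ?_, Matroid.closure_closure]
  rw [Matroid.eRk_closure_eq, hI.eRk_eq_encard]
  exact (G.eRk_le_encard J).trans hc

theorem encard_im {x : Fin 6 → α} (hx : Function.Injective x) (I : Finset (Fin 6)) :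
    (x '' (I : Set (Fin 6))).encard = I.card := by
  rw [hx.encard_image, encard_coe_eq_coe_finsetCard]

end tools

namespace PT

variable {G : Matroid α} {F : Set α} {x : Fin 6 → α}

theorem ind (hP : PT G F x) {I : Finset (Fin 6)} (hI : K4Ind I) :
    G.Indep (x '' (I : Set (Fin 6))) := ((hP.h I).2 hI).1

theorem notsub (hP : PT G F x) {I : Finset (Fin 6)} (hI : K4Ind I) :
    ¬ F ⊆ G.closure (x '' (I : Set (Fin 6))) := ((hP.h I).2 hI).2

theorem line (hP : PT G F x) {I : Finset (Fin 6)} (hI : ¬ K4Ind I)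
    (h : G.Indep (x '' (I : Set (Fin 6)))) : F ⊆ G.closure (x '' (I : Set (Fin 6))) := by
  by_contra hcon
  exact hI ((hP.h I).1 ⟨h, hcon⟩)

theorem mem_ground (hP : PT G F x) (i : Fin 6) : x i ∈ G.E := by
  have h1 : K4Ind {i} := k4_single i
  exact (hP.ind h1).subset_ground (by simp)

theorem fin (x : Fin 6 → α) (I : Finset (Fin 6)) : (x '' (I : Set (Fin 6))).Finite :=
  I.finite_toSet.image x

theorem relabel (hP : PT G F x) (g : Fin 6 → Fin 6) (hg : Function.Injective g)
    (hK : ∀ I : Finset (Fin 6), K4Ind (I.image g) ↔ K4Ind I) : PT G F (x ∘ g) where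
  inj := hP.inj.comp hg
  sub := hP.sub
  h := by
    intro I
    have h1 : (x ∘ g) '' (I : Set (Fin 6)) = x '' ((I.image g : Finset (Fin 6)) : Set (Fin 6)) := by
      rw [Finset.coe_image, ← image_comp]
    rw [h1, hP.h, hK]

theorem ind_relabel {g : Fin 6 → Fin 6} {I J : Finset (Fin 6)} (h : I.image g = J) :
    G.Indep ((x ∘ g) '' (I : Set (Fin 6))) ↔ G.Indep (x '' (J : Set (Fin 6))) := by
  rw [image_comp, ← Finset.coe_image, h]

theorem mem_cl (hP : PT G F x) {J : Finset (Fin 6)} {i : Fin 6} (hJ : K4Ind J)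
    (hd : ¬ G.Indep (x '' ((insert i J : Finset (Fin 6)) : Set (Fin 6)))) :
    x i ∈ G.closure (x '' (J : Set (Fin 6))) := by
  by_contra hn
  apply hd
  rw [Finset.coe_insert, image_insert_eq, Matroid.insert_indep_iff]
  exact ⟨hP.ind hJ, fun _ => ⟨hP.mem_ground i, hn⟩⟩

/-- all six elements are in the closure of a triple, if the lines are dependent -/
theorem sub_cl (hP : PT G F x) {J I : Finset (Fin 6)} (h : ∀ i ∈ I, x i ∈ G.closure
    (x '' (J : Set (Fin 6)))) : x '' (I : Set (Fin 6)) ⊆ G.closure (x '' (J : Set (Fin 6))) := by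
  rintro _ ⟨i, hi, rfl⟩
  exact h i hi

theorem eq_cl (hP : PT G F x) {J I : Finset (Fin 6)} (hI : G.Indep (x '' (I : Set (Fin 6))))
    (h : ∀ i ∈ I, x i ∈ G.closure (x '' (J : Set (Fin 6)))) (hc : J.card ≤ I.card) :
    G.closure (x '' (I : Set (Fin 6))) = G.closure (x '' (J : Set (Fin 6))) := by
  apply toolB hI (fin x I) (hP.sub_cl h)
  rw [encard_im hP.inj, encard_im hP.inj]
  exact_mod_cast hc

theorem mem_cl_of_mem (hP : PT G F x) {J : Finset (Fin 6)} {i : Fin 6} (h : i ∈ J) :
    x i ∈ G.closure (x '' (J : Set (Fin 6))) := by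
  apply G.mem_closure_of_mem' (mem_image_of_mem x (by exact_mod_cast h)) (hP.mem_ground i)

/-- two independent lines with common point `x 0` -/
theorem two_lines (hP : PT G F x) (h1 : G.Indep (x '' (({0, 2, 4} : Finset (Fin 6)) : Set (Fin 6))))
    (h2 : G.Indep (x '' (({0, 3, 5} : Finset (Fin 6)) : Set (Fin 6))))
    (hR : ∀ f ∈ F, ¬ F ⊆ G.closure {f}) :
    ∃ f ∈ F, f ∉ G.closure {x 0} ∧ F ⊆ G.closure {x 0, f} ∧ x 0 ∈ G.closure F := by
  have hF1 := hP.line (by decide) h1
  have hF2 := hP.line (by decide) h2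
  obtain ⟨f, hf, hf0⟩ := not_subset.1 (hP.notsub (I := {0}) (by decide))
  have e0 : x '' (({0} : Finset (Fin 6)) : Set (Fin 6)) = {x 0} := by simp
  rw [e0] at hf0
  have hi0 : G.Indep {x 0} := by
    rw [← e0]
    exact hP.ind (by decide)
  have hif : G.Indep {f, x 0} := by
    rw [Matroid.insert_indep_iff]
    exact ⟨hi0, fun _ => ⟨hP.sub hf, hf0⟩⟩
  have hsub : F ⊆ G.closure {x 0, f} := by
    intro g hg
    by_contra hgn
    have hgn' : g ∉ G.closure {f, x 0} := by rwa [pair_comm]
    have hig : G.Indep {g, f, x 0} := by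
      rw [Matroid.insert_indep_iff]
      exact ⟨hif, fun _ => ⟨hP.sub hg, hgn'⟩⟩
    have hfx : f ≠ x 0 := by
      rintro rfl
      exact hf0 (G.mem_closure_of_mem' rfl (hP.sub hf))
    have hgf : g ∉ ({f, x 0} : Set α) := fun h => hgn' (G.mem_closure_of_mem' h (hP.sub hg))
    have hcard : ({g, f, x 0} : Set α).encard = 3 := by
      rw [encard_insert_of_notMem hgf, encard_pair hfx]
      norm_num
    have c1 : G.closure {g, f, x 0} =
        G.closure (x '' (({0, 2, 4} : Finset (Fin 6)) : Set (Fin 6))) := by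
      apply toolB hig (by simp)
      · rintro y (rfl | rfl | rfl)
        · exact hF1 hg
        · exact hF1 hf
        · exact hP.mem_cl_of_mem (by decide)
      · rw [encard_im hP.inj, hcard]
        decide
    have c2 : G.closure {g, f, x 0} =
        G.closure (x '' (({0, 3, 5} : Finset (Fin 6)) : Set (Fin 6))) := by
      apply toolB hig (by simp)
      · rintro y (rfl | rfl | rfl)
        · exact hF2 hg
        · exact hF2 hf
        · exact hP.mem_cl_of_mem (by decide)
      · rw [encard_im hP.inj, hcard]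
        decide
    have c3 := hP.eq_cl (I := {0, 2, 3}) (J := {0, 2, 4}) (hP.ind (by decide)) (by
      intro i hi
      fin_cases hi
      · exact hP.mem_cl_of_mem (by decide)
      · exact hP.mem_cl_of_mem (by decide)
      · rw [← c1, c2]
        exact hP.mem_cl_of_mem (by decide)) (by decide)
    apply hP.notsub (I := {0, 2, 3}) (by decide)
    rw [c3]
    exact hF1
  refine ⟨f, hf, hf0, hsub, ?_⟩
  obtain ⟨g, hg, hgf⟩ := not_subset.1 (hR f hf)
  have h3 := Matroid.closure_exchange (M := G) (e := g) (f := x 0) (X := {f}) ⟨hsub hg, hgf⟩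
  exact G.closure_subset_closure (insert_subset hg (by simpa using hf)) h3.1

theorem three_lines (hP : PT G F x)
    (h1 : G.Indep (x '' (({0, 2, 4} : Finset (Fin 6)) : Set (Fin 6))))
    (h2 : G.Indep (x '' (({0, 3, 5} : Finset (Fin 6)) : Set (Fin 6))))
    (hR : ∀ f ∈ F, ¬ F ⊆ G.closure {f}) {i : Fin 6} (hi : K4Ind {0, i})
    (hi' : x i ∈ G.closure F) (h0i : (0 : Fin 6) ≠ i) : False := by
  obtain ⟨f, hf, hf0, hsub, hx0⟩ := hP.two_lines h1 h2 hR
  have e0 : x '' (({0, i} : Finset (Fin 6)) : Set (Fin 6)) = {x 0, x i} := by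
    simp [image_pair]
  have h3 := hP.ind hi
  have h4 := hP.notsub hi
  rw [e0] at h3 h4
  have h5 : G.closure F ⊆ G.closure {x 0, f} :=
    G.closure_subset_closure_of_subset_closure hsub
  have h6 : G.closure {x 0, x i} = G.closure {x 0, f} := by
    apply toolB h3 (by simp)
    · rintro y (rfl | rfl)
      · exact h5 hx0
      · exact h5 hi'
    · rw [encard_pair (fun h => h0i (hP.inj h))]
      refine (encard_insert_le _ _).trans ?_
      rw [encard_singleton]
      norm_num
  apply h4
  rw [h6]
  exact hsub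

/-- all elements are in the closure of `J` -/
theorem all_cl (hP : PT G F x) {J : Finset (Fin 6)} (hJ : J.card ≤ 3)
    (h : ∀ i, x i ∈ G.closure (x '' (J : Set (Fin 6)))) {I : Finset (Fin 6)}
    (hI : G.Indep (x '' (I : Set (Fin 6)))) : I.card ≤ 3 := by
  have h1 := toolA hI (hP.sub_cl fun i _ => h i)
  rw [encard_im hP.inj, encard_im hP.inj] at h1
  have h2 : I.card ≤ J.card := by exact_mod_cast h1
  omega

/-- the image of a union -/
theorem cl_of_cl (J K : Finset (Fin 6)) (h : x '' (K : Set (Fin 6)) ⊆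
    G.closure (x '' (J : Set (Fin 6)))) : G.closure (x '' (K : Set (Fin 6))) ⊆
    G.closure (x '' (J : Set (Fin 6))) := G.closure_subset_closure_of_subset_closure h

/-- an element on a dependent line through two points of the closure of `J` -/
theorem line_cl (hP : PT G F x) {J K : Finset (Fin 6)} {i : Fin 6} (hK : K4Ind K)
    (hd : ¬ G.Indep (x '' ((insert i K : Finset (Fin 6)) : Set (Fin 6))))
    (h : ∀ k ∈ K, x k ∈ G.closure (x '' (J : Set (Fin 6)))) :
    x i ∈ G.closure (x '' (J : Set (Fin 6))) :=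
  cl_of_cl J K (hP.sub_cl h) (hP.mem_cl hK hd)

/-- no independent line -/
theorem none (hP : PT G F x)
    (h1 : ¬ G.Indep (x '' (({0, 2, 4} : Finset (Fin 6)) : Set (Fin 6))))
    (h2 : ¬ G.Indep (x '' (({0, 3, 5} : Finset (Fin 6)) : Set (Fin 6))))
    (h3 : ¬ G.Indep (x '' (({1, 2, 3} : Finset (Fin 6)) : Set (Fin 6))))
    (h4 : ¬ G.Indep (x '' (({1, 4, 5} : Finset (Fin 6)) : Set (Fin 6)))) : HasK4 G := by
  refine ⟨x, ∅, hP.inj, disjoint_empty _, fun I => ?_⟩
  rw [union_empty]
  constructor
  · intro hI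
    refine ⟨?_, ?_, ?_, ?_, ?_⟩
    · apply hP.all_cl (J := {1, 3, 5}) (by decide) _ hI
      have m1 : x 1 ∈ G.closure (x '' (({1, 3, 5} : Finset (Fin 6)) : Set (Fin 6))) :=
        hP.mem_cl_of_mem (by decide)
      have m3 : x 3 ∈ G.closure (x '' (({1, 3, 5} : Finset (Fin 6)) : Set (Fin 6))) :=
        hP.mem_cl_of_mem (by decide)
      have m5 : x 5 ∈ G.closure (x '' (({1, 3, 5} : Finset (Fin 6)) : Set (Fin 6))) :=
        hP.mem_cl_of_mem (by decide)
      have m0 : x 0 ∈ G.closure (x '' (({1, 3, 5} : Finset (Fin 6)) : Set (Fin 6))) := by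
        apply hP.line_cl (K := {3, 5}) (by decide) h2
        simpa using And.intro m3 m5
      have m2 : x 2 ∈ G.closure (x '' (({1, 3, 5} : Finset (Fin 6)) : Set (Fin 6))) := by
        apply hP.line_cl (K := {1, 3}) (by decide)
        · rwa [show (insert 2 {1, 3} : Finset (Fin 6)) = {1, 2, 3} by decide]
        · simpa using And.intro m1 m3
      have m4 : x 4 ∈ G.closure (x '' (({1, 3, 5} : Finset (Fin 6)) : Set (Fin 6))) := by
        apply hP.line_cl (K := {1, 5}) (by decide)
        · rwa [show (insert 4 {1, 5} : Finset (Fin 6)) = {1, 4, 5} by decide]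
        · simpa using And.intro m1 m5
      intro i
      fin_cases i <;> assumption
    · rintro rfl
      exact h1 hI
    · rintro rfl
      exact h2 hI
    · rintro rfl
      exact h3 hI
    · rintro rfl
      exact h4 hI
  · intro hI
    exact hP.ind hI

/-- exactly one independent line -/
theorem one_line (hP : PT G F x)
    (h1 : G.Indep (x '' (({0, 2, 4} : Finset (Fin 6)) : Set (Fin 6))))
    (h2 : ¬ G.Indep (x '' (({0, 3, 5} : Finset (Fin 6)) : Set (Fin 6))))
    (h3 : ¬ G.Indep (x '' (({1, 2, 3} : Finset (Fin 6)) : Set (Fin 6))))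
    (h4 : ¬ G.Indep (x '' (({1, 4, 5} : Finset (Fin 6)) : Set (Fin 6)))) : False := by
  have m1 : x 1 ∈ G.closure (x '' (({1, 3, 5} : Finset (Fin 6)) : Set (Fin 6))) :=
    hP.mem_cl_of_mem (by decide)
  have m3 : x 3 ∈ G.closure (x '' (({1, 3, 5} : Finset (Fin 6)) : Set (Fin 6))) :=
    hP.mem_cl_of_mem (by decide)
  have m5 : x 5 ∈ G.closure (x '' (({1, 3, 5} : Finset (Fin 6)) : Set (Fin 6))) :=
    hP.mem_cl_of_mem (by decide)
  have m0 : x 0 ∈ G.closure (x '' (({1, 3, 5} : Finset (Fin 6)) : Set (Fin 6))) := by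
    apply hP.line_cl (K := {3, 5}) (by decide) h2
    simpa using And.intro m3 m5
  have m2 : x 2 ∈ G.closure (x '' (({1, 3, 5} : Finset (Fin 6)) : Set (Fin 6))) := by
    apply hP.line_cl (K := {1, 3}) (by decide)
    · rwa [show (insert 2 {1, 3} : Finset (Fin 6)) = {1, 2, 3} by decide]
    · simpa using And.intro m1 m3
  have m4 : x 4 ∈ G.closure (x '' (({1, 3, 5} : Finset (Fin 6)) : Set (Fin 6))) := by
    apply hP.line_cl (K := {1, 5}) (by decide)
    · rwa [show (insert 4 {1, 5} : Finset (Fin 6)) = {1, 4, 5} by decide]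
    · simpa using And.intro m1 m5
  have h5 := hP.eq_cl (I := {0, 2, 4}) (J := {1, 3, 5}) h1 (by simpa using And.intro m0 (And.intro m2 m4)) (by decide)
  apply hP.notsub (I := {1, 3, 5}) (by decide)
  rw [← h5]
  exact hP.line (by decide) h1

/-- exactly two independent lines, case `f` in the plane of the other lines -/
theorem two_in (hP : PT G F x)
    (h3 : ¬ G.Indep (x '' (({1, 2, 3} : Finset (Fin 6)) : Set (Fin 6))))
    (h4 : ¬ G.Indep (x '' (({1, 4, 5} : Finset (Fin 6)) : Set (Fin 6))))
    {f : α} (hfE : f ∈ G.E) (hsub : F ⊆ G.closure {x 0, f})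
    (hf1 : f ∈ G.closure {x 2, x 4}) (hf2 : f ∈ G.closure {x 3, x 5}) : HasK4 G := by
  have hfx : ∀ i : Fin 6, i ≠ 0 → f ≠ x i := by
    rintro i hi rfl
    have h5 : K4Ind {0, i} := k4_pair i hi
    apply hP.notsub h5
    simpa [image_pair] using hsub
  -- independent sets containing `f`
  have key : ∀ J : Finset (Fin 6), (0 : Fin 6) ∉ J → K4Ind (insert 0 J) → K4Ind J →
      f ∉ G.closure (x '' (J : Set (Fin 6))) := by
    intro J h0 hJ hJ' hf
    apply hP.notsub hJ
    refine hsub.trans (G.closure_subset_closure_of_subset_closure ?_)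
    rintro y (rfl | rfl)
    · exact hP.mem_cl_of_mem (by simp)
    · exact G.closure_subset_closure (image_mono (by simp)) hf
  let x' : Fin 6 → α := Function.update x 0 f
  have hx'0 : x' 0 = f := Function.update_self 0 f x
  have hx'i : ∀ i : Fin 6, i ≠ 0 → x' i = x i := fun i hi => Function.update_of_ne hi f x
  have hinj : Function.Injective x' := by
    intro i j hij
    by_cases hi : i = 0
    · by_cases hj : j = 0
      · rw [hi, hj]
      · rw [hi, hx'0, hx'i j hj] at hij
        exact absurd hij (hfx j hj)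
    · by_cases hj : j = 0
      · rw [hj, hx'0, hx'i i hi] at hij
        exact absurd hij.symm (hfx i hi)
      · rw [hx'i i hi, hx'i j hj] at hij
        exact hP.inj hij
  have him : ∀ J : Finset (Fin 6), (0 : Fin 6) ∉ J → x' '' (J : Set (Fin 6)) =
      x '' (J : Set (Fin 6)) := by
    intro J h0
    apply image_congr
    intro i hi
    apply hx'i
    rintro rfl
    exact h0 (by exact_mod_cast hi)
  refine ⟨x', ∅, hinj, disjoint_empty _, fun I => ?_⟩
  rw [union_empty]
  -- the plane
  have m2 : x 2 ∈ G.closure (x '' (({2, 3, 4} : Finset (Fin 6)) : Set (Fin 6))) :=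
    hP.mem_cl_of_mem (by decide)
  have m3 : x 3 ∈ G.closure (x '' (({2, 3, 4} : Finset (Fin 6)) : Set (Fin 6))) :=
    hP.mem_cl_of_mem (by decide)
  have m4 : x 4 ∈ G.closure (x '' (({2, 3, 4} : Finset (Fin 6)) : Set (Fin 6))) :=
    hP.mem_cl_of_mem (by decide)
  have m1 : x 1 ∈ G.closure (x '' (({2, 3, 4} : Finset (Fin 6)) : Set (Fin 6))) := by
    apply hP.line_cl (K := {2, 3}) (by decide) h3
    simpa using And.intro m2 m3
  have m5 : x 5 ∈ G.closure (x '' (({2, 3, 4} : Finset (Fin 6)) : Set (Fin 6))) := by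
    apply hP.line_cl (K := {1, 4}) (by decide)
    · rwa [show (insert 5 {1, 4} : Finset (Fin 6)) = {1, 4, 5} by decide]
    · simpa using And.intro m1 m4
  have mf : f ∈ G.closure (x '' (({2, 3, 4} : Finset (Fin 6)) : Set (Fin 6))) := by
    refine G.closure_subset_closure_of_subset_closure ?_ hf1
    rintro y (rfl | rfl)
    · exact m2
    · exact m4
  have hall : ∀ i, x' i ∈ G.closure (x '' (({2, 3, 4} : Finset (Fin 6)) : Set (Fin 6))) := by
    intro i
    by_cases hi : i = 0
    · rw [hi, hx'0]
      exact mf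
    · rw [hx'i i hi]
      fin_cases i
      · exact absurd rfl hi
      all_goals assumption
  constructor
  · intro hI
    refine ⟨?_, ?_, ?_, ?_, ?_⟩
    · have h5 : x' '' (I : Set (Fin 6)) ⊆
          G.closure (x '' (({2, 3, 4} : Finset (Fin 6)) : Set (Fin 6))) := by
        rintro _ ⟨i, -, rfl⟩
        exact hall i
      have h6 := toolA hI h5
      rw [encard_im hinj, encard_im hP.inj] at h6
      have h7 : I.card ≤ ({2, 3, 4} : Finset (Fin 6)).card := by exact_mod_cast h6
      exact h7.trans (by decide)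
    · rintro rfl
      have h5 : x' '' (({0, 2, 4} : Finset (Fin 6)) : Set (Fin 6)) = insert f {x 2, x 4} := by
        simp [image_insert_eq, hx'0, hx'i 2 (by decide), hx'i 4 (by decide)]
      rw [h5, Matroid.insert_indep_iff] at hI
      have h6 : f ∉ ({x 2, x 4} : Set α) := by
        rintro (h | h)
        · exact hfx 2 (by decide) h
        · exact hfx 4 (by decide) h
      exact (hI.2 h6).2 hf1
    · rintro rfl
      have h5 : x' '' (({0, 3, 5} : Finset (Fin 6)) : Set (Fin 6)) = insert f {x 3, x 5} := by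
        simp [image_insert_eq, hx'0, hx'i 3 (by decide), hx'i 5 (by decide)]
      rw [h5, Matroid.insert_indep_iff] at hI
      have h6 : f ∉ ({x 3, x 5} : Set α) := by
        rintro (h | h)
        · exact hfx 3 (by decide) h
        · exact hfx 5 (by decide) h
      exact (hI.2 h6).2 hf2
    · rintro rfl
      rw [him _ (by decide)] at hI
      exact h3 hI
    · rintro rfl
      rw [him _ (by decide)] at hI
      exact h4 hI
  · intro hI
    by_cases h0 : (0 : Fin 6) ∈ I
    · obtain ⟨J, hJ0, rfl⟩ : ∃ J : Finset (Fin 6), (0 : Fin 6) ∉ J ∧ I = insert 0 J :=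
        ⟨I.erase 0, Finset.notMem_erase _ _, (Finset.insert_erase h0).symm⟩
      have hJ : K4Ind J := k4_erase J hI
      rw [Finset.coe_insert, image_insert_eq, hx'0, him J hJ0, Matroid.insert_indep_iff]
      exact ⟨hP.ind hJ, fun _ => ⟨hfE, key J hJ0 hI hJ⟩⟩
    · rw [him I h0]
      exact hP.ind hI

/-- exactly two independent lines, case `f` not in the plane of the other lines -/
theorem two_out (hP : PT G F x)
    (h1 : G.Indep (x '' (({0, 2, 4} : Finset (Fin 6)) : Set (Fin 6))))
    (h2 : G.Indep (x '' (({0, 3, 5} : Finset (Fin 6)) : Set (Fin 6))))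
    (h3 : ¬ G.Indep (x '' (({1, 2, 3} : Finset (Fin 6)) : Set (Fin 6))))
    (h4 : ¬ G.Indep (x '' (({1, 4, 5} : Finset (Fin 6)) : Set (Fin 6))))
    {f : α} (hf : f ∈ F) (hf0 : f ∉ G.closure {x 0}) (hsub : F ⊆ G.closure {x 0, f})
    (hfP : f ∉ G.closure (x '' (({2, 3, 4} : Finset (Fin 6)) : Set (Fin 6)))) : HasK4 G := by
  have m2 : x 2 ∈ G.closure (x '' (({2, 3, 4} : Finset (Fin 6)) : Set (Fin 6))) :=
    hP.mem_cl_of_mem (by decide)
  have m3 : x 3 ∈ G.closure (x '' (({2, 3, 4} : Finset (Fin 6)) : Set (Fin 6))) :=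
    hP.mem_cl_of_mem (by decide)
  have m4 : x 4 ∈ G.closure (x '' (({2, 3, 4} : Finset (Fin 6)) : Set (Fin 6))) :=
    hP.mem_cl_of_mem (by decide)
  have m1 : x 1 ∈ G.closure (x '' (({2, 3, 4} : Finset (Fin 6)) : Set (Fin 6))) := by
    apply hP.line_cl (K := {2, 3}) (by decide) h3
    simpa using And.intro m2 m3
  have m5 : x 5 ∈ G.closure (x '' (({2, 3, 4} : Finset (Fin 6)) : Set (Fin 6))) := by
    apply hP.line_cl (K := {1, 4}) (by decide)
    · rwa [show (insert 5 {1, 4} : Finset (Fin 6)) = {1, 4, 5} by decide]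
    · simpa using And.intro m1 m4
  have hall : ∀ i, i ≠ 0 → x i ∈ G.closure (x '' (({2, 3, 4} : Finset (Fin 6)) :
      Set (Fin 6))) := by
    intro i hi
    fin_cases i
    · exact absurd rfl hi
    all_goals assumption
  have hfx : f ∉ range x := by
    rintro ⟨i, rfl⟩
    by_cases hi : i = 0
    · rw [hi] at hf0
      exact hf0 (G.mem_closure_of_mem' rfl (hP.mem_ground 0))
    · exact hfP (hall i hi)
  have hfE := hP.sub hf
  have hF1 := hP.line (by decide) h1
  have hF2 := hP.line (by decide) h2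
  refine ⟨x, {f}, hP.inj, by simpa using hfx, fun I => ?_⟩
  have hfI : f ∉ x '' (I : Set (Fin 6)) := fun h => hfx (image_subset_range _ _ h)
  rw [union_singleton, Matroid.insert_indep_iff]
  constructor
  · rintro ⟨hI, hfc⟩
    have hfc' := (hfc hfI).2
    refine ⟨?_, ?_, ?_, ?_, ?_⟩
    · -- the rank is at most four
      have h5 : G.Indep (insert f (x '' (I : Set (Fin 6)))) := by
        rw [Matroid.insert_indep_iff]
        exact ⟨hI, hfc⟩
      have m0 : x 0 ∈ G.closure (x '' (({0, 2, 3, 4} : Finset (Fin 6)) : Set (Fin 6))) :=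
        hP.mem_cl_of_mem (by decide)
      have hle : G.closure (x '' (({2, 3, 4} : Finset (Fin 6)) : Set (Fin 6))) ⊆
          G.closure (x '' (({0, 2, 3, 4} : Finset (Fin 6)) : Set (Fin 6))) := by
        apply G.closure_subset_closure
        apply image_mono
        intro i hi
        simp only [Finset.coe_insert, Finset.coe_singleton, mem_insert_iff,
          mem_singleton_iff] at hi ⊢
        tauto
      have hle' : G.closure (x '' (({0, 2, 4} : Finset (Fin 6)) : Set (Fin 6))) ⊆
          G.closure (x '' (({0, 2, 3, 4} : Finset (Fin 6)) : Set (Fin 6))) := by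
        apply G.closure_subset_closure
        apply image_mono
        intro i hi
        simp only [Finset.coe_insert, Finset.coe_singleton, mem_insert_iff,
          mem_singleton_iff] at hi ⊢
        tauto
      have h6 : insert f (x '' (I : Set (Fin 6))) ⊆
          G.closure (x '' (({0, 2, 3, 4} : Finset (Fin 6)) : Set (Fin 6))) := by
        apply insert_subset
        · exact hle' (hF1 hf)
        · rintro _ ⟨i, -, rfl⟩
          by_cases hi : i = 0
          · rw [hi]
            exact m0
          · exact hle (hall i hi)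
      have h7 := toolA h5 h6
      rw [encard_insert_of_notMem hfI, encard_im hP.inj, encard_im hP.inj] at h7
      have h8 : I.card + 1 ≤ ({0, 2, 3, 4} : Finset (Fin 6)).card := by exact_mod_cast h7
      have h9 : ({0, 2, 3, 4} : Finset (Fin 6)).card = 4 := by decide
      omega
    · rintro rfl
      exact hfc' (hF1 hf)
    · rintro rfl
      exact hfc' (hF2 hf)
    · rintro rfl
      exact h3 hI
    · rintro rfl
      exact h4 hI
  · intro hI
    refine ⟨hP.ind hI, fun _ => ⟨hfE, fun hfc => ?_⟩⟩
    by_cases h0 : (0 : Fin 6) ∈ I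
    · apply hP.notsub hI
      refine hsub.trans (G.closure_subset_closure_of_subset_closure ?_)
      rintro y (rfl | rfl)
      · exact hP.mem_cl_of_mem h0
      · exact hfc
    · apply hfP
      refine G.closure_subset_closure_of_subset_closure ?_ hfc
      rintro _ ⟨i, hi, rfl⟩
      apply hall
      rintro rfl
      exact h0 (by exact_mod_cast hi)

theorem core_two (hP : PT G F x)
    (h1 : G.Indep (x '' (({0, 2, 4} : Finset (Fin 6)) : Set (Fin 6))))
    (h2 : G.Indep (x '' (({0, 3, 5} : Finset (Fin 6)) : Set (Fin 6))))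
    (hR : ∀ f ∈ F, ¬ F ⊆ G.closure {f}) : HasK4 G := by
  obtain ⟨f, hf, hf0, hsub, hx0⟩ := hP.two_lines h1 h2 hR
  by_cases h3 : G.Indep (x '' (({1, 2, 3} : Finset (Fin 6)) : Set (Fin 6)))
  · exfalso
    have hP' := hP.relabel ![2, 5, 0, 3, 4, 1] (by decide) (by decide)
    obtain ⟨-, -, -, -, hx2⟩ := hP'.two_lines
      ((ind_relabel (by decide)).2 h1)
      ((ind_relabel (by decide)).2 h3) hR
    exact hP.three_lines h1 h2 hR (i := 2) (by decide) hx2 (by decide)
  by_cases h4 : G.Indep (x '' (({1, 4, 5} : Finset (Fin 6)) : Set (Fin 6)))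
  · exfalso
    have hP' := hP.relabel ![4, 3, 0, 5, 2, 1] (by decide) (by decide)
    obtain ⟨-, -, -, -, hx2⟩ := hP'.two_lines
      ((ind_relabel (by decide)).2 h1)
      ((ind_relabel (by decide)).2 h4) hR
    exact hP.three_lines h1 h2 hR (i := 4) (by decide) hx2 (by decide)
  by_cases hfP : f ∈ G.closure (x '' (({2, 3, 4} : Finset (Fin 6)) : Set (Fin 6)))
  · -- `x 0` is not in the plane
    have m2 : x 2 ∈ G.closure (x '' (({2, 3, 4} : Finset (Fin 6)) : Set (Fin 6))) :=
      hP.mem_cl_of_mem (by decide)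
    have m3 : x 3 ∈ G.closure (x '' (({2, 3, 4} : Finset (Fin 6)) : Set (Fin 6))) :=
      hP.mem_cl_of_mem (by decide)
    have m4 : x 4 ∈ G.closure (x '' (({2, 3, 4} : Finset (Fin 6)) : Set (Fin 6))) :=
      hP.mem_cl_of_mem (by decide)
    have m1 : x 1 ∈ G.closure (x '' (({2, 3, 4} : Finset (Fin 6)) : Set (Fin 6))) := by
      apply hP.line_cl (K := {2, 3}) (by decide) h3
      simpa using And.intro m2 m3
    have m5 : x 5 ∈ G.closure (x '' (({2, 3, 4} : Finset (Fin 6)) : Set (Fin 6))) := by
      apply hP.line_cl (K := {1, 4}) (by decide)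
      · rwa [show (insert 5 {1, 4} : Finset (Fin 6)) = {1, 4, 5} by decide]
      · simpa using And.intro m1 m4
    have hx0P : x 0 ∉ G.closure (x '' (({2, 3, 4} : Finset (Fin 6)) : Set (Fin 6))) := by
      intro m0
      have h5 := hP.eq_cl (I := {0, 2, 4}) (J := {2, 3, 4}) h1 (by simpa using And.intro m0 (And.intro m2 m4)) (by decide)
      apply hP.notsub (I := {2, 3, 4}) (by decide)
      rw [← h5]
      exact hP.line (by decide) h1
    have hF1 := hP.line (by decide) h1
    have hF2 := hP.line (by decide) h2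
    have e1 : x '' (({0, 2, 4} : Finset (Fin 6)) : Set (Fin 6)) = insert (x 0) {x 2, x 4} := by
      simp [image_insert_eq]
    have e2 : x '' (({0, 3, 5} : Finset (Fin 6)) : Set (Fin 6)) = insert (x 0) {x 3, x 5} := by
      simp [image_insert_eq]
    rw [e1] at hF1
    rw [e2] at hF2
    refine hP.two_in h3 h4 (hP.sub hf) hsub ?_ ?_
    · by_contra hcon
      have h5 := Matroid.closure_exchange (M := G) (e := f) (f := x 0) (X := {x 2, x 4})
        ⟨hF1 hf, hcon⟩
      apply hx0P
      refine G.closure_subset_closure_of_subset_closure ?_ h5.1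
      rintro y (rfl | rfl | rfl)
      · exact hfP
      · exact m2
      · exact m4
    · by_contra hcon
      have h5 := Matroid.closure_exchange (M := G) (e := f) (f := x 0) (X := {x 3, x 5})
        ⟨hF2 hf, hcon⟩
      apply hx0P
      refine G.closure_subset_closure_of_subset_closure ?_ h5.1
      rintro y (rfl | rfl | rfl)
      · exact hfP
      · exact m3
      · exact m5
  · exact hP.two_out h1 h2 h3 h4 hf hf0 hsub hfP

/-- **The core lemma**: principal truncation does not create an `M(K_4)`-minor -/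
theorem core (hP : PT G F x) : HasK4 G := by
  by_cases hR : ∃ f ∈ F, F ⊆ G.closure {f}
  · obtain ⟨f, hf, hsub⟩ := hR
    have hfE := hP.sub hf
    have hfx : f ∉ range x := by
      rintro ⟨i, rfl⟩
      have h1 : K4Ind {i} := k4_single i
      apply hP.notsub h1
      simpa using hsub
    refine ⟨x, {f}, hP.inj, by simpa using hfx, fun I => ?_⟩
    have hfI : f ∉ x '' (I : Set (Fin 6)) := fun h => hfx (image_subset_range _ _ h)
    rw [union_singleton, Matroid.insert_indep_iff, ← hP.h I]
    refine and_congr_right fun hI => ?_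
    constructor
    · intro h hsub'
      exact (h hfI).2 (hsub' hf)
    · intro h _
      refine ⟨hfE, fun hf' => h ?_⟩
      exact hsub.trans (G.closure_subset_closure_of_subset_closure (by simpa using hf'))
  · push Not at hR
    by_cases h1 : G.Indep (x '' (({0, 2, 4} : Finset (Fin 6)) : Set (Fin 6))) <;>
    by_cases h2 : G.Indep (x '' (({0, 3, 5} : Finset (Fin 6)) : Set (Fin 6))) <;>
    by_cases h3 : G.Indep (x '' (({1, 2, 3} : Finset (Fin 6)) : Set (Fin 6))) <;>
    by_cases h4 : G.Indep (x '' (({1, 4, 5} : Finset (Fin 6)) : Set (Fin 6)))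
    · exact hP.core_two h1 h2 hR
    · exact hP.core_two h1 h2 hR
    · exact hP.core_two h1 h2 hR
    · exact hP.core_two h1 h2 hR
    · refine (hP.relabel ![2, 5, 0, 3, 4, 1] (by decide) (by decide)).core_two ?_ ?_ hR
      · exact (ind_relabel (by decide)).2 h1
      · exact (ind_relabel (by decide)).2 h3
    · refine (hP.relabel ![2, 5, 0, 3, 4, 1] (by decide) (by decide)).core_two ?_ ?_ hR
      · exact (ind_relabel (by decide)).2 h1
      · exact (ind_relabel (by decide)).2 h3
    · refine (hP.relabel ![4, 3, 0, 5, 2, 1] (by decide) (by decide)).core_two ?_ ?_ hR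
      · exact (ind_relabel (by decide)).2 h1
      · exact (ind_relabel (by decide)).2 h4
    · exact (hP.one_line h1 h2 h3 h4).elim
    · refine (hP.relabel ![3, 4, 0, 2, 5, 1] (by decide) (by decide)).core_two ?_ ?_ hR
      · exact (ind_relabel (by decide)).2 h2
      · exact (ind_relabel (by decide)).2 h3
    · refine (hP.relabel ![3, 4, 0, 2, 5, 1] (by decide) (by decide)).core_two ?_ ?_ hR
      · exact (ind_relabel (by decide)).2 h2
      · exact (ind_relabel (by decide)).2 h3
    · refine (hP.relabel ![5, 2, 0, 4, 3, 1] (by decide) (by decide)).core_two ?_ ?_ hR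
      · exact (ind_relabel (by decide)).2 h2
      · exact (ind_relabel (by decide)).2 h4
    · refine ((hP.relabel ![0, 1, 3, 2, 5, 4] (by decide) (by decide)).one_line ?_ ?_ ?_ ?_).elim
      · exact (ind_relabel (by decide)).2 h2
      · exact fun h => h1 ((ind_relabel (by decide)).1 h)
      · exact fun h => h3 ((ind_relabel (by decide)).1 h)
      · exact fun h => h4 ((ind_relabel (by decide)).1 h)
    · refine (hP.relabel ![1, 0, 2, 4, 3, 5] (by decide) (by decide)).core_two ?_ ?_ hR
      · exact (ind_relabel (by decide)).2 h3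
      · exact (ind_relabel (by decide)).2 h4
    · refine ((hP.relabel ![2, 5, 3, 0, 1, 4] (by decide) (by decide)).one_line ?_ ?_ ?_ ?_).elim
      · exact (ind_relabel (by decide)).2 h3
      · exact fun h => h1 ((ind_relabel (by decide)).1 h)
      · exact fun h => h2 ((ind_relabel (by decide)).1 h)
      · exact fun h => h4 ((ind_relabel (by decide)).1 h)
    · refine ((hP.relabel ![4, 3, 5, 0, 1, 2] (by decide) (by decide)).one_line ?_ ?_ ?_ ?_).elim
      · exact (ind_relabel (by decide)).2 h4
      · exact fun h => h1 ((ind_relabel (by decide)).1 h)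
      · exact fun h => h2 ((ind_relabel (by decide)).1 h)
      · exact fun h => h3 ((ind_relabel (by decide)).1 h)
    · exact hP.none h1 h2 h3 h4

end PT

end Pool.Agent.N357.K4
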