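import Mathlib
import Pool.Agent.N357.K4Core

set_option autoImplicit false

/-!
# Closure properties of the class of matroids without `M(K_4)`-minor
-/

namespace Pool.Agent.N357.K4

open Set Matroid

universe u v

variable {α : Type u} {β : Type v}

theorem k4_empty : K4Ind ∅ := by decide

theorem HasK4.of_restrict {M : Matroid α} {R : Set α} (h : HasK4 (M ↾ R)) : HasK4 M := by
  obtain ⟨x, C, hx, hd, h⟩ := h
  have hC : C ⊆ R := by
    have := (h ∅).2 k4_empty
    rw [restrict_indep_iff] at this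
    exact subset_union_right.trans this.2
  have hxR : ∀ i, x i ∈ R := by
    intro i
    have := (h {i}).2 (k4_single i)
    rw [restrict_indep_iff] at this
    exact this.2 (Or.inl (by simp))
  refine ⟨x, C, hx, hd, fun I => ?_⟩
  rw [← h I, restrict_indep_iff, and_iff_left]
  apply union_subset _ hC
  rintro _ ⟨i, -, rfl⟩
  exact hxR i

theorem HasK4.of_contract {M : Matroid α} {X : Set α} (h : HasK4 (M ／ X)) : HasK4 M := by
  obtain ⟨x, C, hx, hd, h⟩ := h
  obtain ⟨B, hB⟩ := M.exists_isBasis' X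
  have hC : Disjoint X C := by
    have := (h ∅).2 k4_empty
    rw [hB.contract_indep_iff] at this
    exact this.2.mono_right subset_union_right
  have hxX : ∀ i, x i ∉ X := by
    intro i hi
    have := (h {i}).2 (k4_single i)
    rw [hB.contract_indep_iff] at this
    exact Set.disjoint_left.1 this.2 hi (Or.inl (by simp))
  refine ⟨x, C ∪ B, hx, ?_, fun I => ?_⟩
  · rw [disjoint_union_right]
    refine ⟨hd, ?_⟩
    rw [Set.disjoint_left]
    rintro _ ⟨i, rfl⟩ hi
    exact hxX i (hB.subset hi)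
  · rw [← h I, hB.contract_indep_iff, ← union_assoc, and_iff_left]
    rw [disjoint_union_right]
    refine ⟨?_, hC⟩
    rw [Set.disjoint_right]
    rintro _ ⟨i, -, rfl⟩
    exact hxX i

theorem HasK4.of_isMinor {M N : Matroid α} (h : HasK4 N) (hN : N.IsMinor M) : HasK4 M := by
  obtain ⟨C, D, rfl⟩ := hN
  rw [delete_eq_restrict] at h
  exact h.of_restrict.of_contract

/-- the permutation of the labels which exchanges opposite edges -/
def dl : Fin 6 → Fin 6 := ![1, 0, 5, 4, 3, 2]

theorem k4_dual : ∀ I : Finset (Fin 6), (∃ B : Finset (Fin 6), (K4Ind B ∧ B.card = 3) ∧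
    Disjoint (I.image dl) B) ↔ K4Ind I := by decide +kernel

theorem k4_base : ∀ B : Finset (Fin 6), (K4Ind B ∧ B.card = 3) ↔
    (K4Ind B ∧ ∀ J : Finset (Fin 6), K4Ind J → B ⊆ J → J ⊆ B) := by decide +kernel

theorem HasK4.dual {M : Matroid α} (h : HasK4 M) : HasK4 M✶ := by
  obtain ⟨x, C, hx, hd, h⟩ := h
  have hCi : M.Indep C := by simpa using (h ∅).2 k4_empty
  have hxE : ∀ i, x i ∈ M.E := by
    intro i
    exact ((h {i}).2 (k4_single i)).subset_ground (Or.inl (by simp))
  set N := (M ／ C) ↾ (range x) with hN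
  have hNi : ∀ I : Finset (Fin 6), N.Indep (x '' (I : Set (Fin 6))) ↔ K4Ind I := by
    intro I
    rw [hN, restrict_indep_iff, hCi.contract_indep_iff, ← h I]
    constructor
    · rintro ⟨⟨-, h1⟩, -⟩
      exact h1
    · intro h1
      exact ⟨⟨hd.mono_left (image_subset_range _ _), h1⟩, image_subset_range _ _⟩
  have hsub : range x ⊆ (M ／ C).E := by
    rintro _ ⟨i, rfl⟩
    exact ⟨hxE i, fun hi => Set.disjoint_left.1 hd ⟨i, rfl⟩ hi⟩
  have hNE : N.E = range x := rfl
  have himg : ∀ S : Set α, S ⊆ range x → ∃ B : Finset (Fin 6), x '' (B : Set (Fin 6)) = S := by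
    intro S hS
    obtain ⟨T, rfl⟩ := subset_range_iff_exists_image_eq.1 hS
    exact ⟨T.toFinite.toFinset, by simp⟩
  have himgsub : ∀ I J : Finset (Fin 6), x '' (I : Set (Fin 6)) ⊆ x '' (J : Set (Fin 6)) ↔
      I ⊆ J := by
    intro I J
    rw [image_subset_image_iff hx, Finset.coe_subset]
  have hbase : ∀ B : Finset (Fin 6), N.IsBase (x '' (B : Set (Fin 6))) ↔
      (K4Ind B ∧ B.card = 3) := by
    intro B
    rw [k4_base, isBase_iff_maximal_indep]
    constructor
    · intro h1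
      refine ⟨(hNi B).1 h1.prop, fun J hJ hBJ => ?_⟩
      exact (himgsub J B).1 (h1.le_of_ge ((hNi J).2 hJ) ((himgsub B J).2 hBJ))
    · rintro ⟨h1, h2⟩
      refine ⟨(hNi B).2 h1, fun S hS hBS => ?_⟩
      obtain ⟨J, rfl⟩ := himg S hS.subset_ground
      exact (himgsub J B).2 (h2 J ((hNi J).1 hS) ((himgsub B J).1 hBS))
  have hK : HasK4 N✶ := by
    refine ⟨x ∘ dl, ∅, hx.comp (by decide), disjoint_empty _, fun I => ?_⟩
    rw [union_empty, dual_indep_iff_exists', image_comp, ← Finset.coe_image, ← k4_dual I]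
    constructor
    · rintro ⟨-, S, hS, hdis⟩
      obtain ⟨B, rfl⟩ := himg S hS.subset_ground
      refine ⟨B, (hbase B).1 hS, ?_⟩
      rw [disjoint_image_iff hx, Finset.disjoint_coe] at hdis
      exact hdis
    · rintro ⟨B, hB, hdis⟩
      refine ⟨image_subset_range _ _, _, (hbase B).2 hB, ?_⟩
      rw [disjoint_image_iff hx, Finset.disjoint_coe]
      exact hdis
  rw [hN, ← delete_compl hsub, dual_contract_delete, delete_eq_restrict] at hK
  exact hK.of_contract.of_restrict

theorem hasK4_dual_iff {M : Matroid α} : HasK4 M✶ ↔ HasK4 M :=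
  ⟨fun h => by simpa using h.dual, fun h => h.dual⟩

theorem k4_conn : ∀ S : Finset (Fin 6), (∀ L ∈ ({{0, 2, 4}, {0, 3, 5}, {1, 2, 3}, {1, 4, 5}} :
    Finset (Finset (Fin 6))), L ⊆ S ∨ Disjoint L S) → S = ∅ ∨ S = Finset.univ := by
  decide +kernel

theorem k4_line_proper : ∀ L ∈ ({{0, 2, 4}, {0, 3, 5}, {1, 2, 3}, {1, 4, 5}} :
    Finset (Finset (Fin 6))), ¬ K4Ind L ∧ ∀ J : Finset (Fin 6), J ⊆ L → J ≠ L → K4Ind J := by
  decide +kernel

theorem HasK4.of_sum {M : Matroid α} {N : Matroid β} (h : HasK4 (M.sum N)) :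
    HasK4 M ∨ HasK4 N := by
  classical
  obtain ⟨x, C, hx, hd, h⟩ := h
  set S : Finset (Fin 6) := Finset.univ.filter (fun i => x i ∈ range Sum.inl) with hS
  have hS1 : ∀ i ∈ S, x i ∈ range Sum.inl := fun i hi => (Finset.mem_filter.1 hi).2
  have hS2 : ∀ i ∉ S, x i ∈ range Sum.inr := by
    intro i hi
    rcases hxi : x i with a | b
    · exfalso
      apply hi
      rw [hS, Finset.mem_filter]
      exact ⟨Finset.mem_univ _, a, hxi.symm⟩
    · exact ⟨b, rfl⟩
  have hA : ∀ I : Finset (Fin 6), Sum.inl ⁻¹' (x '' (I : Set (Fin 6)) ∪ C) =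
      Sum.inl ⁻¹' (x '' ((I ∩ S : Finset (Fin 6)) : Set (Fin 6)) ∪ C) := by
    intro I
    ext a
    simp only [mem_preimage, mem_union, mem_image, Finset.coe_inter, mem_inter_iff,
      Finset.mem_coe]
    constructor
    · rintro (⟨i, hi, hia⟩ | ha)
      · left
        refine ⟨i, ⟨hi, ?_⟩, hia⟩
        rw [hS, Finset.mem_filter]
        exact ⟨Finset.mem_univ _, a, hia.symm⟩
      · exact Or.inr ha
    · rintro (⟨i, hi, hia⟩ | ha)
      · exact Or.inl ⟨i, hi.1, hia⟩
      · exact Or.inr ha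
  have hB : ∀ I : Finset (Fin 6), Sum.inr ⁻¹' (x '' (I : Set (Fin 6)) ∪ C) =
      Sum.inr ⁻¹' (x '' ((I \ S : Finset (Fin 6)) : Set (Fin 6)) ∪ C) := by
    intro I
    ext a
    simp only [mem_preimage, mem_union, mem_image, Finset.coe_sdiff, mem_sdiff,
      Finset.mem_coe]
    constructor
    · rintro (⟨i, hi, hia⟩ | ha)
      · left
        refine ⟨i, ⟨hi, fun hiS => ?_⟩, hia⟩
        obtain ⟨b, hb⟩ := hS1 i hiS
        rw [hia] at hb
        exact absurd hb (by simp)
      · exact Or.inr ha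
    · rintro (⟨i, hi, hia⟩ | ha)
      · exact Or.inl ⟨i, hi.1, hia⟩
      · exact Or.inr ha
  simp only [sum_indep_iff] at h
  have hcase := k4_conn S (by
    intro L hL
    obtain ⟨hL1, hL2⟩ := k4_line_proper L hL
    by_contra hcon
    push Not at hcon
    obtain ⟨h1, h2⟩ := hcon
    apply hL1
    rw [← h L, hA, hB]
    refine ⟨?_, ?_⟩
    · refine ((h (L ∩ S)).2 (hL2 _ Finset.inter_subset_left ?_)).1
      intro heq
      exact h1 (Finset.inter_eq_left.1 heq)
    · refine ((h (L \ S)).2 (hL2 _ Finset.sdiff_subset ?_)).2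
      intro heq
      exact h2 (Finset.sdiff_eq_self_iff_disjoint.1 heq))
  have h0 := (h ∅).2 k4_empty
  rcases hcase with hcase | hcase
  · right
    have hx' : ∀ i, ∃ b, x i = Sum.inr b := by
      intro i
      obtain ⟨b, hb⟩ := hS2 i (by rw [hcase]; simp)
      exact ⟨b, hb.symm⟩
    choose y hy using hx'
    refine ⟨y, Sum.inr ⁻¹' C, ?_, ?_, fun I => ?_⟩
    · intro i j hij
      apply hx
      rw [hy, hy, hij]
    · rw [Set.disjoint_left]
      rintro _ ⟨i, rfl⟩ hi
      exact Set.disjoint_left.1 hd ⟨i, rfl⟩ (by rw [hy]; exact hi)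
    · rw [← h I]
      have e1 : Sum.inr ⁻¹' (x '' (I : Set (Fin 6)) ∪ C) = y '' (I : Set (Fin 6)) ∪
          Sum.inr ⁻¹' C := by
        ext b
        simp only [mem_preimage, mem_union, mem_image, hy, Sum.inr.injEq]
      have e2 : Sum.inl ⁻¹' (x '' (I : Set (Fin 6)) ∪ C) =
          Sum.inl ⁻¹' (x '' ((∅ : Finset (Fin 6)) : Set (Fin 6)) ∪ C) := by
        rw [hA I, hcase, Finset.inter_empty]
      rw [e1, e2, and_iff_right h0.1]
  · left
    have hx' : ∀ i, ∃ b, x i = Sum.inl b := by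
      intro i
      obtain ⟨b, hb⟩ := hS1 i (by rw [hcase]; simp)
      exact ⟨b, hb.symm⟩
    choose y hy using hx'
    refine ⟨y, Sum.inl ⁻¹' C, ?_, ?_, fun I => ?_⟩
    · intro i j hij
      apply hx
      rw [hy, hy, hij]
    · rw [Set.disjoint_left]
      rintro _ ⟨i, rfl⟩ hi
      exact Set.disjoint_left.1 hd ⟨i, rfl⟩ (by rw [hy]; exact hi)
    · rw [← h I]
      have e1 : Sum.inl ⁻¹' (x '' (I : Set (Fin 6)) ∪ C) = y '' (I : Set (Fin 6)) ∪
          Sum.inl ⁻¹' C := by
        ext b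
        simp only [mem_preimage, mem_union, mem_image, hy, Sum.inl.injEq]
      have e2 : Sum.inr ⁻¹' (x '' (I : Set (Fin 6)) ∪ C) =
          Sum.inr ⁻¹' (x '' ((∅ : Finset (Fin 6)) : Set (Fin 6)) ∪ C) := by
        rw [hB I, hcase, Finset.sdiff_eq_empty_iff_subset.2 (Finset.subset_univ _)]
      rw [e1, e2, and_iff_left h0.2]

/-- the general form of the core lemma -/
theorem hasK4_of_truncation {M : Matroid α} {F C : Set α} {x : Fin 6 → α}
    (hF : F ⊆ M.E) (hx : Function.Injective x) (hd : Disjoint (range x) C)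
    (h : ∀ I : Finset (Fin 6), (M.Indep (x '' (I : Set (Fin 6)) ∪ C) ∧
      ¬ F ⊆ M.closure (x '' (I : Set (Fin 6)) ∪ C)) ↔ K4Ind I) : HasK4 M := by
  have hCi : M.Indep C := by simpa using ((h ∅).2 k4_empty).1
  have hP : PT (M ／ C) (F \ C) x := by
    refine ⟨hx, ?_, fun I => ?_⟩
    · rw [contract_ground]
      exact sdiff_subset_sdiff_left hF
    · rw [← h I, hCi.contract_indep_iff, contract_closure_eq]
      have h1 : Disjoint (x '' (I : Set (Fin 6))) C := hd.mono_left (image_subset_range _ _)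
      have h2 : F \ C ⊆ M.closure (x '' (I : Set (Fin 6)) ∪ C) \ C ↔
          F ⊆ M.closure (x '' (I : Set (Fin 6)) ∪ C) := by
        constructor
        · intro h3 f hf
          by_cases hfC : f ∈ C
          · exact M.mem_closure_of_mem' (Or.inr hfC) (hF hf)
          · exact (h3 ⟨hf, hfC⟩).1
        · rintro h3 f ⟨hf, hfC⟩
          exact ⟨h3 hf, hfC⟩
      rw [h2, and_iff_right h1]
  exact hP.core.of_contract

end Pool.Agent.N357.K4
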