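import Mathlib
import Pool.Agent.N357.K4Class

set_option autoImplicit false

/-!
# Principal extensions, truncations and bipartite induction
-/

namespace Pool.Agent.N357.K4

open Set Matroid

universe u v

variable {α : Type u}

/-- the independent sets of the principal extension -/
def PEInd (M : Matroid α) (F : Set α) (e : α) (I : Set α) : Prop :=
  M.Indep (I \ {e}) ∧ (e ∈ I → ¬ F ⊆ M.closure (I \ {e}))

theorem PE_aug {M : Matroid α} [M.Finite] {F : Set α} {e : α} (he : e ∉ M.E) (hF : F ⊆ M.E)
    {I J : Set α} (hI : PEInd M F e I) (hJ : PEInd M F e J) (hlt : I.ncard < J.ncard) :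
    ∃ y ∈ J, y ∉ I ∧ PEInd M F e (insert y I) := by
  obtain ⟨hI1, hI2⟩ := hI
  obtain ⟨hJ1, hJ2⟩ := hJ
  have hI0f : (I \ {e}).Finite := M.ground_finite.subset hI1.subset_ground
  have hJ0f : (J \ {e}).Finite := M.ground_finite.subset hJ1.subset_ground
  have hJf : J.Finite := (hJ0f.insert e).subset (by simp)
  have hIf : I.Finite := (hI0f.insert e).subset (by simp)
  by_cases heI : e ∈ I
  · have hIc := ncard_sdiff_singleton_add_one heI hIf
    have hJc : J.ncard ≤ (J \ {e}).ncard + 1 := by
      by_cases heJ : e ∈ J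
      · rw [ncard_sdiff_singleton_add_one heJ hJf]
      · rw [sdiff_singleton_eq_self heJ]
        omega
    obtain ⟨f, hf, hfI⟩ := not_subset.1 (hI2 heI)
    have hins : ∀ y, y ≠ e → insert y I \ {e} = insert y (I \ {e}) := by
      intro y hye
      rw [insert_sdiff_of_notMem]
      simpa using hye
    by_contra hcon
    push Not at hcon
    have hbad : ∀ y ∈ J \ {e}, y ∉ M.closure (I \ {e}) →
        F ⊆ M.closure (insert y (I \ {e})) := by
      rintro y ⟨hy, hye⟩ hycl
      have hyI : y ∉ I := by
        intro hyI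
        exact hycl (M.mem_closure_of_mem' ⟨hyI, hye⟩ (hJ1.subset_ground ⟨hy, hye⟩))
      have h1 := hcon y hy hyI
      by_contra h2
      apply h1
      refine ⟨?_, fun _ => ?_⟩
      · rw [hins y hye, Matroid.insert_indep_iff]
        exact ⟨hI1, fun _ => ⟨hJ1.subset_ground ⟨hy, hye⟩, hycl⟩⟩
      · rwa [hins y hye]
    have hsub : J \ {e} ⊆ M.closure (insert f (I \ {e})) := by
      intro y hy
      by_cases hycl : y ∈ M.closure (I \ {e})
      · exact M.closure_subset_closure (subset_insert _ _) hycl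
      · exact (Matroid.closure_exchange (M := M) (e := f) (f := y) (X := I \ {e})
          ⟨hbad y hy hycl hf, hfI⟩).1
    have hcard := toolA hJ1 hsub
    have hfn : f ∉ I \ {e} := fun h => hfI (M.mem_closure_of_mem' h (hF hf))
    have hcard' : (J \ {e}).ncard ≤ (I \ {e}).ncard + 1 := by
      rw [encard_insert_of_notMem hfn, ← hJ0f.cast_ncard_eq, ← hI0f.cast_ncard_eq] at hcard
      exact_mod_cast hcard
    have heJ : e ∈ J := by
      by_contra heJ
      rw [sdiff_singleton_eq_self heJ] at hcard'
      omega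
    have hJc' := ncard_sdiff_singleton_add_one heJ hJf
    have hcl : M.closure (J \ {e}) = M.closure (insert f (I \ {e})) := by
      apply toolB hJ1 hJ0f hsub
      rw [encard_insert_of_notMem hfn, ← hJ0f.cast_ncard_eq, ← hI0f.cast_ncard_eq]
      have : (I \ {e}).ncard + 1 ≤ (J \ {e}).ncard := by omega
      exact_mod_cast this
    have hex : ∃ y ∈ J \ {e}, y ∉ M.closure (I \ {e}) := by
      by_contra h
      push Not at h
      have h2 := toolA hJ1 (show J \ {e} ⊆ M.closure (I \ {e}) from h)
      rw [← hJ0f.cast_ncard_eq, ← hI0f.cast_ncard_eq] at h2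
      have h3 : (J \ {e}).ncard ≤ (I \ {e}).ncard := by exact_mod_cast h2
      omega
    obtain ⟨y, hy, hycl⟩ := hex
    apply hJ2 heJ
    rw [hcl]
    refine (hbad y hy hycl).trans (M.closure_subset_closure_of_subset_closure ?_)
    apply insert_subset
    · exact hsub hy
    · intro z hz
      exact M.mem_closure_of_mem' (mem_insert_of_mem _ hz) (hI1.subset_ground hz)
  · have hI0 : I \ {e} = I := sdiff_singleton_eq_self heI
    rw [hI0] at hI1
    by_cases heJ : e ∈ J
    · by_cases hFI : F ⊆ M.closure I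
      · have hJc := ncard_sdiff_singleton_add_one heJ hJf
        have hex : ∃ y ∈ J \ {e}, y ∉ M.closure I := by
          by_contra h
          push Not at h
          apply hJ2 heJ
          rw [toolB hJ1 hJ0f h]
          · exact hFI
          · rw [← hJ0f.cast_ncard_eq, ← hIf.cast_ncard_eq]
            have : I.ncard ≤ (J \ {e}).ncard := by omega
            exact_mod_cast this
        obtain ⟨y, hy, hycl⟩ := hex
        have hyE := hJ1.subset_ground hy
        have hyI : y ∉ I := fun h => hycl (M.mem_closure_of_mem' h hyE)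
        have heins : e ∉ insert y I := by
          rintro (h | h)
          · exact hy.2 h.symm
          · exact heI h
        refine ⟨y, hy.1, hyI, ?_, fun h => absurd h heins⟩
        rw [sdiff_singleton_eq_self heins, Matroid.insert_indep_iff]
        exact ⟨hI1, fun _ => ⟨hyE, hycl⟩⟩
      · refine ⟨e, heJ, heI, ?_, fun _ => ?_⟩
        · rw [insert_sdiff_of_mem _ (mem_singleton e), hI0]
          exact hI1
        · rw [insert_sdiff_of_mem _ (mem_singleton e), hI0]
          exact hFI
    · rw [sdiff_singleton_eq_self heJ] at hJ1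
      have hlt' : I.encard < J.encard := by
        rw [← hIf.cast_ncard_eq, ← hJf.cast_ncard_eq]
        exact_mod_cast hlt
      obtain ⟨y, hy, hy'⟩ := hI1.exists_insert_of_encard_lt hJ1 hlt'
      have heins : e ∉ insert y I := by
        rintro (h | h)
        · rw [h] at heJ
          exact heJ hy.1
        · exact heI h
      refine ⟨y, hy.1, hy.2, ?_, fun h => absurd h heins⟩
      rwa [sdiff_singleton_eq_self heins]

/-- the principal extension of `M`: the new element `e` is added freely to the flat spanned by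
`F` -/
noncomputable def PE (M : Matroid α) [M.Finite] (F : Set α) (e : α) (he : e ∉ M.E)
    (hF : F ⊆ M.E) : Matroid α :=
  (IndepMatroid.ofFinite (E := insert e M.E) (M.ground_finite.insert e) (PEInd M F e)
    ⟨by simp, fun h => absurd h (notMem_empty e)⟩
    (by
      rintro I J ⟨h1, h2⟩ hIJ
      refine ⟨h1.subset (sdiff_subset_sdiff_left hIJ), fun h => ?_⟩
      intro h3
      exact h2 (hIJ h) (h3.trans (M.closure_subset_closure (sdiff_subset_sdiff_left hIJ))))
    (fun _ _ h h' h'' => PE_aug he hF h h' h'')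
    (by
      rintro I ⟨h1, -⟩ y hy
      by_cases hye : y = e
      · exact Or.inl hye
      · exact Or.inr (h1.subset_ground ⟨hy, hye⟩))).matroid

section PE

variable {M : Matroid α} [M.Finite] {F : Set α} {e : α} {he : e ∉ M.E} {hF : F ⊆ M.E}

theorem PE_E : (PE M F e he hF).E = insert e M.E := rfl

theorem PE_indep {I : Set α} : (PE M F e he hF).Indep I ↔ PEInd M F e I := by
  unfold PE
  rw [IndepMatroid.matroid_Indep]
  rfl

instance PE_finite : (PE M F e he hF).Finite := ⟨M.ground_finite.insert e⟩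

theorem Conf.relabel {N : Matroid α} {x : Fin 6 → α} {C : Set α} (h : Conf N x C)
    {g : Fin 6 → Fin 6} (hg : Function.Injective g)
    (hK : ∀ I : Finset (Fin 6), K4Ind (I.image g) ↔ K4Ind I) : Conf N (x ∘ g) C := by
  obtain ⟨hx, hd, h⟩ := h
  refine ⟨hx.comp hg, hd.mono_left (range_comp_subset_range _ _), fun I => ?_⟩
  rw [image_comp, ← Finset.coe_image, h, hK]

theorem k4_insert_zero : ∀ J : Finset (Fin 6), (0 : Fin 6) ∉ J → K4Ind (insert 0 J) →
    K4Ind J := by decide +kernel

/-- the case where the new element is the first element of the `M(K_4)` -/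
theorem hasK4_of_PE_zero {x : Fin 6 → α} {C : Set α} (h : Conf (PE M F e he hF) x C)
    (h0 : x 0 = e) : HasK4 M := by
  obtain ⟨hx, hd, h⟩ := h
  have heC : e ∉ C := fun h1 => Set.disjoint_left.1 hd ⟨0, h0⟩ h1
  have hxi : ∀ i : Fin 6, i ≠ 0 → x i ≠ e := by
    intro i hi h1
    rw [← h0] at h1
    exact hi (hx h1)
  have hxJ : ∀ J : Finset (Fin 6), (0 : Fin 6) ∉ J → e ∉ x '' (J : Set (Fin 6)) ∪ C := by
    rintro J hJ (⟨i, hi, hie⟩ | h1)
    · have : i ≠ 0 := by
        rintro rfl
        exact hJ (by exact_mod_cast hi)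
      exact hxi i this hie
    · exact heC h1
  have hJ1 : ∀ J : Finset (Fin 6), (0 : Fin 6) ∉ J →
      (M.Indep (x '' (J : Set (Fin 6)) ∪ C) ↔ K4Ind J) := by
    intro J hJ
    rw [← h J, PE_indep, PEInd, sdiff_singleton_eq_self (hxJ J hJ), and_iff_left]
    exact fun h1 => absurd h1 (hxJ J hJ)
  have hJ2 : ∀ J : Finset (Fin 6), (0 : Fin 6) ∉ J →
      ((M.Indep (x '' (J : Set (Fin 6)) ∪ C) ∧ ¬ F ⊆ M.closure (x '' (J : Set (Fin 6)) ∪ C)) ↔
        K4Ind (insert 0 J)) := by
    intro J hJ
    rw [← h (insert 0 J), PE_indep, PEInd, Finset.coe_insert, image_insert_eq, h0, insert_union,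
      insert_sdiff_of_mem _ (mem_singleton e), sdiff_singleton_eq_self (hxJ J hJ)]
    simp
  have hCi : M.Indep C := by simpa using (hJ1 ∅ (by simp)).2 k4_empty
  obtain ⟨f, hf, hfC⟩ : ∃ f ∈ F, f ∉ M.closure C := by
    have h1 := ((hJ2 ∅ (by simp)).2 (by decide)).2
    simpa using not_subset.1 h1
  have hfE := hF hf
  have hline : ∀ J : Finset (Fin 6), (0 : Fin 6) ∉ J → K4Ind J → ¬ K4Ind (insert 0 J) →
      F ⊆ M.closure (x '' (J : Set (Fin 6)) ∪ C) := by
    intro J hJ h1 h2
    by_contra h3
    exact h2 ((hJ2 J hJ).1 ⟨(hJ1 J hJ).2 h1, h3⟩)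
  have hF1 := hline {2, 4} (by decide) (by decide) (by decide)
  have hF2 := hline {3, 5} (by decide) (by decide) (by decide)
  -- `F` is in the closure of `f` and `C`
  have hsub : F ⊆ M.closure (insert f C) := by
    intro g hg
    by_contra hgn
    have hgE := hF hg
    have hgC : g ∉ C := fun h1 => hgn (M.mem_closure_of_mem' (mem_insert_of_mem _ h1) hgE)
    have hfC' : f ∉ C := fun h1 => hfC (M.mem_closure_of_mem' h1 hfE)
    have hgf : g ≠ f := by
      rintro rfl
      exact hgn (M.mem_closure_of_mem' (mem_insert _ _) hgE)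
    have hfi : (M ／ C).Indep {g, f} := by
      rw [hCi.contract_indep_iff]
      refine ⟨by simp [hgC, hfC'], ?_⟩
      rw [insert_union, singleton_union, Matroid.insert_indep_iff, Matroid.insert_indep_iff]
      exact ⟨⟨hCi, fun _ => ⟨hfE, hfC⟩⟩, fun _ => ⟨hgE, hgn⟩⟩
    have hd' : ∀ J : Finset (Fin 6), Disjoint (x '' (J : Set (Fin 6))) C :=
      fun J => hd.mono_left (image_subset_range _ _)
    have hcl : ∀ J : Finset (Fin 6), J.card = 2 →
        F ⊆ M.closure (x '' (J : Set (Fin 6)) ∪ C) →
        (M ／ C).closure {g, f} = (M ／ C).closure (x '' (J : Set (Fin 6))) := by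
      intro J hJ hFJ
      apply toolB hfi (by simp)
      · rw [contract_closure_eq]
        rintro y (rfl | rfl)
        · exact ⟨hFJ hg, hgC⟩
        · exact ⟨hFJ hf, hfC'⟩
      · rw [encard_im hx, hJ, encard_pair hgf]
        norm_num
    have c1 := hcl {2, 4} (by decide) hF1
    have c2 := hcl {3, 5} (by decide) hF2
    have hi : (M ／ C).Indep (x '' (({2, 3, 4} : Finset (Fin 6)) : Set (Fin 6))) := by
      rw [hCi.contract_indep_iff]
      exact ⟨hd' _, (hJ1 {2, 3, 4} (by decide)).2 (by decide)⟩
    have hmem : ∀ J : Finset (Fin 6), ∀ i ∈ J, i ∈ ({2, 3, 4, 5} : Finset (Fin 6)) →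
        x i ∈ (M ／ C).closure (x '' (J : Set (Fin 6))) := by
      intro J i hi1 hi2
      have hi3 : (0 : Fin 6) ∉ ({i} : Finset (Fin 6)) := by
        intro h1
        rw [Finset.mem_singleton] at h1
        rw [← h1] at hi2
        exact absurd hi2 (by decide)
      have hxiE : x i ∈ (M ／ C).E := by
        refine ⟨?_, fun h1 => Set.disjoint_left.1 hd ⟨i, rfl⟩ h1⟩
        exact ((hJ1 {i} hi3).2 (k4_single i)).subset_ground (Or.inl (by simp))
      exact (M ／ C).mem_closure_of_mem' (mem_image_of_mem x (by exact_mod_cast hi1)) hxiE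
    have h5 : x '' (({2, 3, 4} : Finset (Fin 6)) : Set (Fin 6)) ⊆
        (M ／ C).closure {g, f} := by
      rintro _ ⟨i, hi, rfl⟩
      have hi' : i ∈ ({2, 3, 4} : Finset (Fin 6)) := by exact_mod_cast hi
      fin_cases hi'
      · rw [c1]
        exact hmem _ _ (by decide) (by decide)
      · rw [c2]
        exact hmem _ _ (by decide) (by decide)
      · rw [c1]
        exact hmem _ _ (by decide) (by decide)
    have h6 := toolA hi h5
    rw [encard_im hx, encard_pair hgf] at h6
    exact absurd h6 (by decide)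
  have hiff : ∀ J : Finset (Fin 6), F ⊆ M.closure (x '' (J : Set (Fin 6)) ∪ C) ↔
      f ∈ M.closure (x '' (J : Set (Fin 6)) ∪ C) := by
    intro J
    constructor
    · intro h1
      exact h1 hf
    · intro h1
      refine hsub.trans (M.closure_subset_closure_of_subset_closure (insert_subset h1 ?_))
      intro y hy
      exact M.mem_closure_of_mem' (Or.inr hy) (hCi.subset_ground hy)
  have hfx : ∀ i : Fin 6, i ≠ 0 → f ≠ x i := by
    rintro i hi rfl
    have h1 : (0 : Fin 6) ∉ ({i} : Finset (Fin 6)) := by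
      rw [Finset.mem_singleton]
      exact Ne.symm hi
    have h2 := ((hJ2 {i} h1).2 (k4_pair i hi)).2
    apply h2
    rw [hiff]
    exact M.mem_closure_of_mem' (Or.inl (by simp)) hfE
  let x' : Fin 6 → α := Function.update x 0 f
  have hx'0 : x' 0 = f := Function.update_self 0 f x
  have hx'i : ∀ i : Fin 6, i ≠ 0 → x' i = x i := fun i hi => Function.update_of_ne hi f x
  have hinj : Function.Injective x' := by
    intro i j hij
    by_cases hi : i = 0
    · by_cases hj : j = 0
      · rw [hi, hj]
      · rw [hi, hx'0, hx'i j hj] at hij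
        exact absurd hij (hfx j hj)
    · by_cases hj : j = 0
      · rw [hj, hx'0, hx'i i hi] at hij
        exact absurd hij.symm (hfx i hi)
      · rw [hx'i i hi, hx'i j hj] at hij
        exact hx hij
  have him : ∀ J : Finset (Fin 6), (0 : Fin 6) ∉ J → x' '' (J : Set (Fin 6)) =
      x '' (J : Set (Fin 6)) := by
    intro J h0
    apply image_congr
    intro i hi
    apply hx'i
    rintro rfl
    exact h0 (by exact_mod_cast hi)
  refine ⟨x', C, hinj, ?_, fun I => ?_⟩
  · rw [Set.disjoint_left]
    rintro _ ⟨i, rfl⟩ hiC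
    by_cases hi : i = 0
    · rw [hi, hx'0] at hiC
      exact hfC (M.mem_closure_of_mem' hiC hfE)
    · rw [hx'i i hi] at hiC
      exact Set.disjoint_left.1 hd ⟨i, rfl⟩ hiC
  · by_cases h0 : (0 : Fin 6) ∈ I
    · obtain ⟨J, hJ0, rfl⟩ : ∃ J : Finset (Fin 6), (0 : Fin 6) ∉ J ∧ I = insert 0 J :=
        ⟨I.erase 0, Finset.notMem_erase _ _, (Finset.insert_erase h0).symm⟩
      rw [← hJ2 J hJ0, Finset.coe_insert, image_insert_eq, hx'0, him J hJ0, insert_union,
        Matroid.insert_indep_iff, hiff]
      have hfn : f ∉ x '' (J : Set (Fin 6)) ∪ C := by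
        rintro (⟨i, hi, hif⟩ | h1)
        · apply hfx i _ hif.symm
          rintro rfl
          exact hJ0 (by exact_mod_cast hi)
        · exact hfC (M.mem_closure_of_mem' h1 hfE)
      constructor
      · rintro ⟨h1, h2⟩
        exact ⟨h1, (h2 hfn).2⟩
      · rintro ⟨h1, h2⟩
        exact ⟨h1, fun _ => ⟨hfE, h2⟩⟩
    · rw [him I h0]
      exact hJ1 I h0

theorem HasK4.of_PE (h : HasK4 (PE M F e he hF)) : HasK4 M := by
  obtain ⟨x, C, hconf⟩ := h
  obtain ⟨hx, hd, h⟩ := hconf
  by_cases heC : e ∈ C
  · apply hasK4_of_truncation (C := C \ {e}) hF hx (hd.mono_right sdiff_subset)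
    intro I
    have h1 : e ∉ x '' (I : Set (Fin 6)) := by
      intro h1
      exact Set.disjoint_left.1 hd (image_subset_range _ _ h1) heC
    have h2 : (x '' (I : Set (Fin 6)) ∪ C) \ {e} = x '' (I : Set (Fin 6)) ∪ (C \ {e}) := by
      rw [union_sdiff_distrib, sdiff_singleton_eq_self h1]
    rw [← h I, PE_indep, PEInd, h2]
    refine and_congr_right fun _ => ?_
    constructor
    · intro h3 _
      exact h3
    · intro h3
      exact h3 (Or.inr heC)
  by_cases hex : ∃ k, x k = e
  · obtain ⟨k, hk⟩ := hex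
    have hconf : Conf (PE M F e he hF) x C := ⟨hx, hd, h⟩
    fin_cases k
    · exact hasK4_of_PE_zero hconf hk
    · exact hasK4_of_PE_zero (hconf.relabel (g := ![1, 0, 2, 4, 3, 5]) (by decide)
        (by decide +kernel)) hk
    · exact hasK4_of_PE_zero (hconf.relabel (g := ![2, 5, 0, 3, 4, 1]) (by decide)
        (by decide +kernel)) hk
    · exact hasK4_of_PE_zero (hconf.relabel (g := ![3, 4, 0, 2, 5, 1]) (by decide)
        (by decide +kernel)) hk
    · exact hasK4_of_PE_zero (hconf.relabel (g := ![4, 3, 0, 5, 2, 1]) (by decide)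
        (by decide +kernel)) hk
    · exact hasK4_of_PE_zero (hconf.relabel (g := ![5, 2, 0, 4, 3, 1]) (by decide)
        (by decide +kernel)) hk
  · refine ⟨x, C, hx, hd, fun I => ?_⟩
    have h1 : e ∉ x '' (I : Set (Fin 6)) ∪ C := by
      rintro (⟨i, -, hi⟩ | h1)
      · exact hex ⟨i, hi⟩
      · exact heC h1
    rw [← h I, PE_indep, PEInd, sdiff_singleton_eq_self h1, and_iff_left]
    exact fun h2 => absurd h2 h1

end PE

/-- truncation does not create `M(K_4)`-minors -/
theorem HasK4.of_truncation {M T : Matroid α} [M.Finite]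
    (hT : ∀ I, T.Indep I ↔ M.Indep I ∧ I.encard < M.eRank) (h : HasK4 T) : HasK4 M := by
  obtain ⟨x, C, hx, hd, h⟩ := h
  apply hasK4_of_truncation (M := M) (F := M.E) subset_rfl hx hd
  intro I
  rw [← h I, hT]
  refine and_congr_right fun hI => ?_
  rw [← not_iff_not, not_not, not_lt]
  constructor
  · intro h1
    have h2 := hI.isBase_of_ground_subset_closure h1
    rw [h2.encard_eq_eRank]
  · intro h1
    have hfin : (x '' (I : Set (Fin 6)) ∪ C).Finite := M.ground_finite.subset hI.subset_ground
    have h2 : M.IsBase (x '' (I : Set (Fin 6)) ∪ C) := by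
      apply hI.isBase_of_eRk_ge hfin
      rw [hI.eRk_eq_encard]
      exact h1
    rw [h2.closure_eq]

end Pool.Agent.N357.K4
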