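import Mathlib
import Pool.Agent.N357.K4Ext

set_option autoImplicit false

/-!
# Induction through bipartite graphs and through directed graphs
-/

namespace Pool.Agent.N357.K4

open Set Matroid

universe u v

/-- induction through a bipartite graph by repeated principal extension -/
theorem bip {γ : Type u} [Finite γ] (M : Matroid γ) (R : γ → Set γ)
    (hR : ∀ v, R v ⊆ M.E) (s : Finset γ) (hs : Disjoint (s : Set γ) M.E) :
    ∃ M' : Matroid γ, M'.E = M.E ∪ s ∧ (HasK4 M' → HasK4 M) ∧
      ∀ I : Set γ, M'.Indep I ↔ ∃ g : γ → γ, (∀ v ∈ I ∩ s, g v ∈ R v ∧ g v ∉ I) ∧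
        InjOn g (I ∩ s) ∧ M.Indep ((I \ s) ∪ g '' (I ∩ s)) := by
  classical
  induction s using Finset.induction_on with
  | empty =>
    refine ⟨M, by simp, id, fun I => ?_⟩
    constructor
    · intro h
      exact ⟨id, by simp, by simp, by simpa using h⟩
    · rintro ⟨g, -, -, h⟩
      simpa using h
  | insert e s hes ih =>
    have hs' : Disjoint (s : Set γ) M.E := hs.mono_left (by simp)
    have heE : e ∉ M.E := fun h => Set.disjoint_left.1 hs (by simp) h
    obtain ⟨M₁, hE, hK, hI⟩ := ih hs'
    have hfin : M₁.Finite := ⟨toFinite _⟩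
    have he : e ∉ M₁.E := by
      rw [hE]
      rintro (h | h)
      · exact heE h
      · exact hes (by exact_mod_cast h)
    have hF : R e ⊆ M₁.E := by
      rw [hE]
      exact (hR e).trans subset_union_left
    refine ⟨PE M₁ (R e) e he hF, ?_, fun h => hK h.of_PE, fun I => ?_⟩
    · rw [PE_E, hE, Finset.coe_insert, ← union_insert]
    · rw [PE_indep, PEInd]
      by_cases heI : e ∈ I
      · have hIs : I ∩ ((insert e s : Finset γ) : Set γ) = insert e ((I \ {e}) ∩ s) := by
          ext v
          simp only [Finset.coe_insert, mem_inter_iff, mem_insert_iff, Finset.mem_coe,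
            mem_sdiff, mem_singleton_iff]
          constructor
          · rintro ⟨h1, h2 | h2⟩
            · exact Or.inl h2
            · by_cases hve : v = e
              · exact Or.inl hve
              · exact Or.inr ⟨⟨h1, hve⟩, h2⟩
          · rintro (h1 | ⟨⟨h1, h2⟩, h3⟩)
            · rw [h1]
              exact ⟨heI, Or.inl rfl⟩
            · exact ⟨h1, Or.inr h3⟩
        have hId : I \ ((insert e s : Finset γ) : Set γ) = (I \ {e}) \ s := by
          ext v
          simp only [Finset.coe_insert, mem_insert_iff, Finset.mem_coe,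
            mem_sdiff, mem_singleton_iff]
          tauto
        have h1 : (M₁.Indep (I \ {e}) ∧ (e ∈ I → ¬ R e ⊆ M₁.closure (I \ {e}))) ↔
            ∃ f ∈ R e, f ∉ I \ {e} ∧ M₁.Indep (insert f (I \ {e})) := by
          constructor
          · rintro ⟨h1, h2⟩
            obtain ⟨f, hf, hfc⟩ := not_subset.1 (h2 heI)
            refine ⟨f, hf, fun h => hfc (M₁.mem_closure_of_mem' h (hF hf)), ?_⟩
            rw [Matroid.insert_indep_iff]
            exact ⟨h1, fun _ => ⟨hF hf, hfc⟩⟩
          · rintro ⟨f, hf, hfI, h1⟩
            rw [Matroid.insert_indep_iff] at h1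
            refine ⟨h1.1, fun _ h2 => ?_⟩
            exact (h1.2 hfI).2 (h2 hf)
        rw [h1]
        have hfs : ∀ f ∈ R e, f ∉ s := by
          intro f hf hfs
          exact Set.disjoint_left.1 hs' (by exact_mod_cast hfs) (hR e hf)
        have h2 : ∀ f ∈ R e, insert f (I \ {e}) ∩ (s : Set γ) = (I \ {e}) ∩ s := by
          intro f hf
          rw [insert_inter_of_notMem]
          exact_mod_cast hfs f hf
        have h3 : ∀ f ∈ R e, insert f (I \ {e}) \ (s : Set γ) = insert f ((I \ {e}) \ s) := by
          intro f hf
          rw [insert_sdiff_of_notMem]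
          exact_mod_cast hfs f hf
        constructor
        · rintro ⟨f, hf, hfI, h4⟩
          rw [hI] at h4
          obtain ⟨g, hg1, hg2, hg3⟩ := h4
          rw [h2 f hf] at hg1 hg2 hg3
          rw [h3 f hf] at hg3
          have hgv : ∀ v ∈ (I \ {e}) ∩ s, Function.update g e f v = g v := by
            intro v hv
            exact Function.update_of_ne hv.1.2 _ _
          refine ⟨Function.update g e f, ?_, ?_, ?_⟩
          · rw [hIs]
            rintro v (rfl | hv)
            · rw [Function.update_self]
              refine ⟨hf, fun h => hfI ⟨h, ?_⟩⟩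
              rintro rfl
              exact heE (hR _ hf)
            · rw [hgv v hv]
              obtain ⟨h5, h6⟩ := hg1 v hv
              refine ⟨h5, fun h7 => h6 (Or.inr ⟨h7, ?_⟩)⟩
              intro h8
              rw [mem_singleton_iff] at h8
              rw [h8] at h5
              exact heE (hR _ h5)
          · rw [hIs, injOn_insert]
            · refine ⟨?_, ?_⟩
              · intro v hv w hw hvw
                rw [hgv v hv, hgv w hw] at hvw
                exact hg2 hv hw hvw
              · rw [Function.update_self]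
                rintro ⟨v, hv, hvf⟩
                rw [hgv v hv] at hvf
                exact (hg1 v hv).2 (Or.inl hvf)
            · exact fun h => h.1.2 rfl
          · rw [hIs, hId, image_insert_eq, Function.update_self]
            have h5 : Function.update g e f '' ((I \ {e}) ∩ s) = g '' ((I \ {e}) ∩ s) :=
              image_congr hgv
            rw [h5]
            rw [insert_union] at hg3
            rwa [union_insert]
        · rintro ⟨g, hg1, hg2, hg3⟩
          rw [hIs] at hg1 hg2 hg3
          rw [hId, image_insert_eq, union_insert, ← insert_union] at hg3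
          have hge := hg1 e (mem_insert _ _)
          refine ⟨g e, hge.1, fun h => hge.2 h.1, ?_⟩
          rw [hI]
          refine ⟨g, ?_, ?_, ?_⟩
          · rw [h2 _ hge.1]
            intro v hv
            obtain ⟨h5, h6⟩ := hg1 v (mem_insert_of_mem _ hv)
            refine ⟨h5, ?_⟩
            rintro (h7 | h7)
            · have := hg2 (mem_insert_of_mem _ hv) (mem_insert _ _) h7
              exact hv.1.2 this
            · exact h6 h7.1
          · rw [h2 _ hge.1]
            exact hg2.mono (subset_insert _ _)
          · rw [h2 _ hge.1, h3 _ hge.1]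
            exact hg3
      · have hIs : I ∩ ((insert e s : Finset γ) : Set γ) = I ∩ s := by
          ext v
          simp only [Finset.coe_insert, mem_inter_iff, mem_insert_iff, Finset.mem_coe]
          constructor
          · rintro ⟨h1, h2 | h2⟩
            · rw [h2] at h1
              exact absurd h1 heI
            · exact ⟨h1, h2⟩
          · rintro ⟨h1, h2⟩
            exact ⟨h1, Or.inr h2⟩
        have hId : I \ ((insert e s : Finset γ) : Set γ) = I \ s := by
          ext v
          simp only [Finset.coe_insert, mem_insert_iff, Finset.mem_coe, mem_sdiff]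
          constructor
          · rintro ⟨h1, h2⟩
            exact ⟨h1, fun h => h2 (Or.inr h)⟩
          · rintro ⟨h1, h2⟩
            refine ⟨h1, ?_⟩
            rintro (h | h)
            · rw [h] at h1
              exact heI h1
            · exact h2 h
        rw [sdiff_singleton_eq_self heI, hI, hIs, hId, and_iff_left]
        exact fun h => absurd h heI

/-- the sets which are linked onto independent sets of `M₀` by pairwise disjoint directed paths -/
def Linked {T : Type u} (Γ : T → T → Prop) (M₀ : Matroid T) (X : Set T) : Prop :=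
  ∃ (n : T → ℕ) (p : T → ℕ → T), (∀ x ∈ X, p x 0 = x) ∧
    (∀ x ∈ X, ∀ i < n x, Γ (p x i) (p x (i + 1))) ∧
    (∀ x ∈ X, ∀ y ∈ X, ∀ i ≤ n x, ∀ j ≤ n y, p x i = p y j → x = y ∧ i = j) ∧
    M₀.Indep ((fun x => p x (n x)) '' X)

/-- the linkage lemma -/
theorem linked_iff {T : Type u} [Finite T] {Γ : T → T → Prop} {M₀ : Matroid T} {X : Set T} :
    Linked Γ M₀ X ↔ ∃ (Y : Set T) (φ : T → T), M₀.Indep Y ∧ InjOn φ Yᶜ ∧
      ∀ v ∉ Y, φ v ∉ X ∧ (φ v = v ∨ Γ v (φ v)) := by
  classical
  constructor
  · rintro ⟨n, p, h0, h1, h2, h3⟩
    -- the vertices on the paths which are not the last ones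
    let φ : T → T := fun v => if h : ∃ x ∈ X, ∃ i < n x, p x i = v then
      p h.choose (h.choose_spec.2.choose + 1) else v
    have hφ1 : ∀ x ∈ X, ∀ i < n x, φ (p x i) = p x (i + 1) := by
      intro x hx i hi
      have h : ∃ x' ∈ X, ∃ i' < n x', p x' i' = p x i := ⟨x, hx, i, hi, rfl⟩
      have e1 : φ (p x i) = p h.choose (h.choose_spec.2.choose + 1) := dif_pos h
      obtain ⟨h4, h5⟩ := h.choose_spec.2.choose_spec
      obtain ⟨h6, h7⟩ := h2 _ h.choose_spec.1 x hx _ h4.le _ hi.le h5
      rw [e1, h7, h6]
    have hφ2 : ∀ v, (¬ ∃ x ∈ X, ∃ i < n x, p x i = v) → φ v = v := fun v h => dif_neg h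
    refine ⟨(fun x => p x (n x)) '' X, φ, h3, ?_, ?_⟩
    · intro v hv w hw hvw
      by_cases hv' : ∃ x ∈ X, ∃ i < n x, p x i = v
      · obtain ⟨x, hx, i, hi, rfl⟩ := hv'
        by_cases hw' : ∃ x ∈ X, ∃ i < n x, p x i = w
        · obtain ⟨y, hy, j, hj, rfl⟩ := hw'
          rw [hφ1 x hx i hi, hφ1 y hy j hj] at hvw
          obtain ⟨rfl, h4⟩ := h2 x hx y hy (i + 1) hi (j + 1) hj hvw
          rw [Nat.add_right_cancel h4]
        · rw [hφ1 x hx i hi, hφ2 w hw'] at hvw
          exfalso
          rcases Nat.lt_or_ge (i + 1) (n x) with h4 | h4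
          · exact hw' ⟨x, hx, i + 1, h4, hvw⟩
          · have h5 : i + 1 = n x := by omega
            rw [h5] at hvw
            exact hw ⟨x, hx, hvw⟩
      · by_cases hw' : ∃ x ∈ X, ∃ i < n x, p x i = w
        · obtain ⟨y, hy, j, hj, rfl⟩ := hw'
          rw [hφ1 y hy j hj, hφ2 v hv'] at hvw
          exfalso
          rcases Nat.lt_or_ge (j + 1) (n y) with h4 | h4
          · exact hv' ⟨y, hy, j + 1, h4, hvw.symm⟩
          · have h5 : j + 1 = n y := by omega
            rw [h5] at hvw
            exact hv ⟨y, hy, hvw.symm⟩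
        · rwa [hφ2 v hv', hφ2 w hw'] at hvw
    · intro v hv
      by_cases hv' : ∃ x ∈ X, ∃ i < n x, p x i = v
      · obtain ⟨x, hx, i, hi, rfl⟩ := hv'
        rw [hφ1 x hx i hi]
        refine ⟨fun h4 => ?_, Or.inr (h1 x hx i hi)⟩
        have h5 := h2 x hx _ h4 (i + 1) hi 0 (Nat.zero_le _) (h0 _ h4).symm
        exact absurd h5.2 (by omega)
      · rw [hφ2 v hv']
        refine ⟨fun h4 => ?_, Or.inl rfl⟩
        rcases Nat.eq_zero_or_pos (n v) with h5 | h5
        · apply hv
          refine ⟨v, h4, ?_⟩
          show p v (n v) = v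
          rw [h5]
          exact h0 v h4
        · exact hv' ⟨v, h4, 0, h5, h0 v h4⟩
  · rintro ⟨Y, φ, hY, hinj, hφ⟩
    -- iterating `φ` from a point of `X` reaches `Y`
    have hkey : ∀ i j : ℕ, ∀ x ∈ X, ∀ y ∈ X, (∀ k < i, φ^[k] x ∉ Y) → (∀ k < j, φ^[k] y ∉ Y) →
        φ^[i] x = φ^[j] y → x = y ∧ i = j := by
      intro i
      induction i with
      | zero =>
        intro j x hx y hy hi hj hij
        cases j with
        | zero => exact ⟨hij, rfl⟩
        | succ j =>
          exfalso
          rw [Function.iterate_succ_apply'] at hij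
          have h4 := (hφ _ (hj j (Nat.lt_succ_self j))).1
          rw [← hij] at h4
          exact h4 hx
      | succ i ih =>
        intro j x hx y hy hi hj hij
        cases j with
        | zero =>
          exfalso
          rw [Function.iterate_succ_apply'] at hij
          have h4 := (hφ _ (hi i (Nat.lt_succ_self i))).1
          rw [hij] at h4
          exact h4 hy
        | succ j =>
          rw [Function.iterate_succ_apply', Function.iterate_succ_apply'] at hij
          have h4 := hinj (hi i (Nat.lt_succ_self i)) (hj j (Nat.lt_succ_self j)) hij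
          obtain ⟨h5, h6⟩ := ih j x hx y hy (fun k hk => hi k (by omega))
            (fun k hk => hj k (by omega)) h4
          exact ⟨h5, by rw [h6]⟩
    have hreach : ∀ x ∈ X, ∃ i, φ^[i] x ∈ Y := by
      intro x hx
      by_contra hcon
      push Not at hcon
      have hinf : Function.Injective (fun i : ℕ => φ^[i] x) := by
        intro i j hij
        exact (hkey i j x hx x hx (fun k _ => hcon k) (fun k _ => hcon k) hij).2
      exact not_injective_infinite_finite _ hinf
    let n : T → ℕ := fun x => if h : ∃ i, φ^[i] x ∈ Y then Nat.find h else 0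
    have hn1 : ∀ x ∈ X, φ^[n x] x ∈ Y := by
      intro x hx
      have h := hreach x hx
      have e1 : n x = Nat.find h := dif_pos h
      rw [e1]
      exact Nat.find_spec h
    have hn2 : ∀ x ∈ X, ∀ k < n x, φ^[k] x ∉ Y := by
      intro x hx k hk
      have h := hreach x hx
      have e1 : n x = Nat.find h := dif_pos h
      rw [e1] at hk
      exact Nat.find_min h hk
    refine ⟨n, fun x i => φ^[i] x, fun x _ => rfl, ?_, ?_, ?_⟩
    · intro x hx i hi
      have h4 := hφ _ (hn2 x hx i hi)
      show Γ (φ^[i] x) (φ^[i + 1] x)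
      rw [Function.iterate_succ_apply']
      rcases h4.2 with h5 | h5
      · exfalso
        have h6 : φ^[i + 1] x = φ^[i] x := by rw [Function.iterate_succ_apply', h5]
        have h7 := hkey (i + 1) i x hx x hx (fun k hk => hn2 x hx k (by omega))
          (fun k hk => hn2 x hx k (by omega)) h6
        exact absurd h7.2 (by omega)
      · exact h5
    · intro x hx y hy i hi j hj hij
      exact hkey i j x hx y hy (fun k hk => hn2 x hx k (by omega))
        (fun k hk => hn2 y hy k (by omega)) hij
    · apply hY.subset
      rintro _ ⟨x, hx, rfl⟩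
      exact hn1 x hx

end Pool.Agent.N357.K4
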