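import Mathlib
import Pool.Agent.N357.K4Bip

set_option autoImplicit false

/-!
# Induction of matroids through directed graphs does not create `M(K_4)`-minors
-/

namespace Pool.Agent.N357.K4

open Set Matroid

universe u v

theorem not_hasK4_emptyOn {α : Type u} : ¬ HasK4 (emptyOn α) := by
  rintro ⟨x, C, -, -, h⟩
  have h1 := (h {0}).2 (k4_single 0)
  have h2 := h1.subset_ground (Or.inl ⟨0, by simp, rfl⟩ : x 0 ∈ _)
  simp at h2

theorem HasK4.of_comap {α : Type u} {β : Type v} {M : Matroid β} {f : α → β}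
    (hf : Function.Injective f) (h : HasK4 (M.comap f)) : HasK4 M := by
  obtain ⟨x, C, hx, hd, h⟩ := h
  refine ⟨f ∘ x, f '' C, hf.comp hx, ?_, fun I => ?_⟩
  · rw [range_comp, disjoint_image_iff hf]
    exact hd
  · rw [← h I, comap_indep_iff, image_comp, ← image_union, and_iff_left hf.injOn]

/-- the matroid induced through a bipartite graph -/
theorem bip' {T : Type u} [Finite T] (P : Matroid T) (hP : P.E = univ) (Γ : T → T → Prop) :
    ∃ Q : Matroid T, Q.E = univ ∧ (HasK4 Q → HasK4 P) ∧
      ∀ Z : Set T, Q.Indep Z ↔ ∃ ψ : T → T, (∀ z ∈ Z, z = ψ z ∨ Γ (ψ z) z) ∧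
        InjOn ψ Z ∧ P.Indep (ψ '' Z) := by
  classical
  have := Fintype.ofFinite T
  let M : Matroid (T ⊕ T) := P.sum (emptyOn T)
  have hME : M.E = range Sum.inl := by
    show (P.sum (emptyOn T)).E = _
    rw [sum_ground, hP, emptyOn_ground, image_empty, union_empty, image_univ]
  let R : T ⊕ T → Set (T ⊕ T) := Sum.elim (fun _ => ∅) (fun z => Sum.inl '' {v | z = v ∨ Γ v z})
  have hR : ∀ v, R v ⊆ M.E := by
    rintro (v | v)
    · exact empty_subset _
    · rw [hME]
      exact image_subset_range _ _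
  let s : Finset (T ⊕ T) := Finset.univ.map ⟨Sum.inr, Sum.inr_injective⟩
  have hs : (s : Set (T ⊕ T)) = range Sum.inr := by
    ext v
    simp [s]
  obtain ⟨M', hE, hK, hI⟩ := bip M R hR s (by
    rw [hs, hME, Set.disjoint_left]
    rintro _ ⟨a, rfl⟩ ⟨b, hb⟩
    exact absurd hb (by simp))
  refine ⟨M'.comap Sum.inr, ?_, ?_, ?_⟩
  · rw [comap_ground_eq, hE, hs]
    ext v
    simp
  · intro h
    rcases (hK (h.of_comap Sum.inr_injective)).of_sum with h1 | h1
    · exact h1
    · exact absurd h1 not_hasK4_emptyOn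
  · intro Z
    rw [comap_indep_iff, and_iff_left Sum.inr_injective.injOn, hI]
    have e1 : (Sum.inr '' Z : Set (T ⊕ T)) ∩ s = Sum.inr '' Z := by
      rw [hs]
      exact inter_eq_left.2 (image_subset_range _ _)
    have e2 : (Sum.inr '' Z : Set (T ⊕ T)) \ s = ∅ := by
      rw [hs]
      exact sdiff_eq_empty.2 (image_subset_range _ _)
    rw [e1, e2]
    have hMi : ∀ S : Set T, M.Indep (Sum.inl '' S) ↔ P.Indep S := by
      intro S
      show (P.sum (emptyOn T)).Indep _ ↔ _
      rw [sum_indep_iff, preimage_image_eq _ Sum.inl_injective, and_iff_left]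
      have : (Sum.inr ⁻¹' (Sum.inl '' S) : Set T) = ∅ := by
        ext v
        simp
      rw [this]
      exact empty_indep _
    constructor
    · rintro ⟨g, hg1, hg2, hg3⟩
      have h1 : ∀ z : T, ∃ v : T, z ∈ Z → g (Sum.inr z) = Sum.inl v ∧ (z = v ∨ Γ v z) := by
        intro z
        by_cases hz : z ∈ Z
        · obtain ⟨⟨v, hv, hv'⟩, -⟩ := hg1 (Sum.inr z) (mem_image_of_mem _ hz)
          exact ⟨v, fun _ => ⟨hv'.symm, hv⟩⟩
        · exact ⟨z, fun h => absurd h hz⟩
      choose ψ hψ using h1
      refine ⟨ψ, fun z hz => (hψ z hz).2, ?_, ?_⟩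
      · intro z hz w hw hzw
        apply Sum.inr_injective (α := T)
        apply hg2 (mem_image_of_mem _ hz) (mem_image_of_mem _ hw)
        rw [(hψ z hz).1, (hψ w hw).1, hzw]
      · rw [← hMi]
        have e3 : (Sum.inl '' (ψ '' Z) : Set (T ⊕ T)) = ∅ ∪ g '' (Sum.inr '' Z) := by
          rw [empty_union, image_image, image_image]
          apply image_congr
          intro z hz
          exact (hψ z hz).1.symm
        rw [e3]
        exact hg3
    · rintro ⟨ψ, h1, h2, h3⟩
      refine ⟨Sum.elim Sum.inl (fun z => Sum.inl (ψ z)), ?_, ?_, ?_⟩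
      · rintro _ ⟨z, hz, rfl⟩
        refine ⟨⟨ψ z, h1 z hz, rfl⟩, ?_⟩
        rintro ⟨w, -, hw⟩
        exact absurd hw (by simp)
      · rintro _ ⟨z, hz, rfl⟩ _ ⟨w, hw, rfl⟩ hzw
        have : ψ z = ψ w := by simpa using hzw
        rw [h2 hz hw this]
      · rw [empty_union, image_image]
        show M.Indep ((fun z => Sum.inl (ψ z)) '' Z)
        rw [← image_image Sum.inl ψ, hMi]
        exact h3

/-- **induction through directed graphs** -/
theorem exists_induced {T : Type u} [Finite T] (Γ : T → T → Prop) (M₀ : Matroid T) (A : Set T) :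
    ∃ N : Matroid T, N.E = A ∧ (∀ I, N.Indep I ↔ I ⊆ A ∧ Linked Γ M₀ I) ∧
      (HasK4 N → HasK4 M₀) := by
  classical
  let P : Matroid T := (M₀ ↾ univ)✶
  have hPE : P.E = univ := rfl
  have hPd : P✶ = M₀ ↾ univ := dual_dual _
  obtain ⟨Q, hQE, hQK, hQI⟩ := bip' P hPE Γ
  have hfinP : P.Finite := ⟨toFinite _⟩
  have hfinQ : Q.Finite := ⟨toFinite _⟩
  refine ⟨Q✶ ↾ A, rfl, fun I => ?_, fun h => ?_⟩
  · rw [restrict_indep_iff, and_comm]
    refine and_congr_right fun _ => ?_
    rw [linked_iff, dual_indep_iff_exists']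
    obtain ⟨B, hB⟩ := P.exists_isBase
    have hBQ : Q.Indep B := by
      rw [hQI]
      exact ⟨id, fun z _ => Or.inl rfl, injOn_id _, by simpa using hB.indep⟩
    have hQrk : ∀ Z, Q.Indep Z → Z.encard ≤ B.encard := by
      intro Z hZ
      obtain ⟨ψ, -, h1, h2⟩ := (hQI Z).1 hZ
      rw [← h1.encard_image]
      exact h2.encard_le_eRank.trans hB.encard_eq_eRank.ge
    have hBbase : Q.IsBase B := by
      apply hBQ.isBase_of_eRk_ge (toFinite _)
      rw [hBQ.eRk_eq_encard]
      obtain ⟨B', hB'⟩ := Q.exists_isBase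
      rw [← hB'.encard_eq_eRank]
      exact hQrk B' hB'.indep
    constructor
    · rintro ⟨-, Z, hZ, hdis⟩
      obtain ⟨ψ, h1, h2, h3⟩ := (hQI Z).1 hZ.indep
      have hψZ : P.IsBase (ψ '' Z) := by
        apply h3.isBase_of_eRk_ge (toFinite _)
        rw [h3.eRk_eq_encard, h2.encard_image, ← hB.encard_eq_eRank, hZ.encard_eq_eRank,
          hBbase.encard_eq_eRank]
      rcases Z.eq_empty_or_nonempty with hZe | hZne
      · subst hZe
        refine ⟨univ, id, ?_, by simp, by simp⟩
        have h4 := hψZ.compl_isBase_dual.indep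
        rw [hPd, hPE, image_empty, sdiff_empty, restrict_indep_iff] at h4
        exact h4.1
      have : Nonempty T := ⟨hZne.some⟩
      refine ⟨(ψ '' Z)ᶜ, Function.invFunOn ψ Z, ?_, ?_, ?_⟩
      · have h4 := hψZ.compl_isBase_dual.indep
        rw [hPd, hPE, restrict_indep_iff] at h4
        rw [compl_eq_univ_sdiff]
        exact h4.1
      · rw [compl_compl]
        exact Function.invFunOn_injOn_image ψ Z
      · intro v hv
        rw [notMem_compl_iff] at hv
        have h5 : Function.invFunOn ψ Z v ∈ Z := Function.invFunOn_mem hv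
        have h6 : ψ (Function.invFunOn ψ Z v) = v := Function.invFunOn_eq hv
        refine ⟨fun h7 => Set.disjoint_left.1 hdis h7 h5, ?_⟩
        have h7 := h1 _ h5
        rwa [h6] at h7
    · rintro ⟨Y, φ, hY, hinj, hφ⟩
      have hYd : P✶.Indep Y := by
        rw [hPd, restrict_indep_iff]
        exact ⟨hY, subset_univ _⟩
      rw [dual_indep_iff_exists'] at hYd
      obtain ⟨-, B', hB', hdis⟩ := hYd
      have hinj' : InjOn φ B' := hinj.mono fun v hv hvY => Set.disjoint_left.1 hdis hvY hv
      have hB'Y : ∀ v ∈ B', v ∉ Y := fun v hv hvY => Set.disjoint_left.1 hdis hvY hv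
      refine ⟨by rw [hQE]; exact subset_univ _, φ '' B', ?_, ?_⟩
      · rcases B'.eq_empty_or_nonempty with hBe | hBne
        · subst hBe
          have h4 : B.encard = 0 := by
            rw [hB.encard_eq_eRank, ← hB'.encard_eq_eRank, encard_empty]
          rw [encard_eq_zero] at h4
          rw [image_empty, ← h4]
          exact hBbase
        have : Nonempty T := ⟨hBne.some⟩
        have h4 : Q.Indep (φ '' B') := by
          rw [hQI]
          have h5 : ∀ v ∈ B', Function.invFunOn φ B' (φ v) = v := fun v hv =>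
            hinj'.leftInvOn_invFunOn hv
          refine ⟨Function.invFunOn φ B', ?_, Function.invFunOn_injOn_image φ B', ?_⟩
          · rintro _ ⟨v, hv, rfl⟩
            rw [h5 v hv]
            exact (hφ v (hB'Y v hv)).2
          · have h6 : Function.invFunOn φ B' '' (φ '' B') = B' := by
              rw [image_image]
              conv_rhs => rw [← image_id B']
              exact image_congr h5
            rw [h6]
            exact hB'.indep
        apply h4.isBase_of_eRk_ge (toFinite _)
        rw [h4.eRk_eq_encard, hinj'.encard_image, ← hBbase.encard_eq_eRank,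
          hB.encard_eq_eRank, hB'.encard_eq_eRank]
      · rw [Set.disjoint_right]
        rintro _ ⟨v, hv, rfl⟩ hvI
        exact (hφ v (hB'Y v hv)).1 hvI
  · exact (hasK4_dual_iff.1 (hQK (hasK4_dual_iff.1 h.of_restrict))).of_restrict

end Pool.Agent.N357.K4
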