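import Mathlib
import Pool.Agent.N357.K4Link

set_option autoImplicit false

/-!
# Complete classes of matroids and `M(K_4)`: bridging to the definitions
-/

namespace Pool.Agent.N357.K4

open Set Matroid

/-- the edges of `K_4`, in the order of the labels -/
def lab : Fin 6 → Sym2 (Fin 4) := ![s(2, 3), s(0, 1), s(1, 3), s(0, 3), s(1, 2), s(0, 2)]

theorem lab_inj : Function.Injective lab := by decide +kernel

theorem lab_surj : ∀ e : Sym2 (Fin 4), ¬ e.IsDiag → ∃ i, lab i = e := by decide +kernel

theorem lab_not_diag : ∀ i, ¬ (lab i).IsDiag := by decide +kernel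

/-- the subgraph of `K_4` with the edges labelled by `J` -/
def Gr (J : Finset (Fin 6)) : SimpleGraph (Fin 4) :=
  SimpleGraph.fromEdgeSet ((J.image lab : Finset (Sym2 (Fin 4))) : Set (Sym2 (Fin 4)))

instance (J : Finset (Fin 6)) : DecidableRel (Gr J).Adj := fun u v => by
  unfold Gr
  simp only [SimpleGraph.fromEdgeSet_adj, Finset.mem_coe]
  infer_instance

theorem Gr_dec : ∀ J : Finset (Fin 6), (∀ u v, (Gr J).Adj u v →
    ¬ ((Gr J).deleteEdges {s(u, v)}).Reachable u v) ↔ K4Ind J := by
  decide +kernel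

theorem Gr_acyclic (J : Finset (Fin 6)) : (Gr J).IsAcyclic ↔ K4Ind J := by
  rw [← Gr_dec, SimpleGraph.isAcyclic_iff_forall_adj_isBridge]
  constructor
  · intro h u v huv
    exact SimpleGraph.isBridge_iff.1 (h huv)
  · intro h u v huv
    exact SimpleGraph.isBridge_iff.2 (h u v huv)

/-- `N` is isomorphic to the cycle matroid `M(K_4)` of the complete graph on four vertices: its
elements are in bijection with the edges of the complete graph on `Fin 4` such that the
independent sets are exactly the edge sets of the forests. -/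
def IsMK4 {α : Type} (N : Matroid α) : Prop :=
  ∃ e : N.E ≃ (⊤ : SimpleGraph (Fin 4)).edgeSet, ∀ I : Set N.E,
    N.Indep (Subtype.val '' I) ↔
      (SimpleGraph.fromEdgeSet (Subtype.val '' (e '' I))).IsAcyclic

theorem lab_mem (i : Fin 6) : lab i ∈ (⊤ : SimpleGraph (Fin 4)).edgeSet := by
  rw [SimpleGraph.edgeSet_top]
  exact lab_not_diag i

/-- the labelling as an equivalence -/
noncomputable def labE : Fin 6 ≃ (⊤ : SimpleGraph (Fin 4)).edgeSet :=
  Equiv.ofBijective (fun i => ⟨lab i, lab_mem i⟩) (by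
    constructor
    · intro i j hij
      exact lab_inj (congrArg Subtype.val hij)
    · rintro ⟨e, he⟩
      rw [SimpleGraph.edgeSet_top] at he
      obtain ⟨i, hi⟩ := lab_surj e he
      exact ⟨i, Subtype.ext hi⟩)

theorem labE_val (i : Fin 6) : ((labE i : (⊤ : SimpleGraph (Fin 4)).edgeSet) : Sym2 (Fin 4)) =
    lab i := rfl

theorem IsMK4.hasK4 {α : Type} {N : Matroid α} (h : IsMK4 N) : HasK4 N := by
  classical
  obtain ⟨e, he⟩ := h
  refine ⟨fun i => (e.symm (labE i) : α), ∅, ?_, disjoint_empty _, fun I => ?_⟩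
  · intro i j hij
    exact labE.injective (e.symm.injective (Subtype.ext hij))
  · rw [union_empty, ← Gr_acyclic, Gr]
    have h1 : (fun i => (e.symm (labE i) : α)) '' (I : Set (Fin 6)) =
        Subtype.val '' ((fun i => e.symm (labE i)) '' (I : Set (Fin 6))) := by
      rw [image_image]
    rw [h1, he]
    have h2 : (Subtype.val '' (e '' ((fun i => e.symm (labE i)) '' (I : Set (Fin 6)))) :
        Set (Sym2 (Fin 4))) = ((I.image lab : Finset (Sym2 (Fin 4))) : Set (Sym2 (Fin 4))) := by
      rw [image_image, image_image, Finset.coe_image]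
      apply image_congr
      intro i _
      rw [Equiv.apply_symm_apply, labE_val]
    rw [h2]

theorem isMK4_of_labelling {α : Type} {N : Matroid α} (x : Fin 6 → α)
    (hx : Function.Injective x) (hE : N.E = range x)
    (h : ∀ I : Finset (Fin 6), N.Indep (x '' (I : Set (Fin 6))) ↔ K4Ind I) : IsMK4 N := by
  classical
  have hm : ∀ i, x i ∈ N.E := by
    intro i
    rw [hE]
    exact ⟨i, rfl⟩
  have hb : Function.Bijective (fun i => (⟨x i, hm i⟩ : N.E)) := by
    constructor
    · intro i j hij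
      exact hx (congrArg Subtype.val hij)
    · rintro ⟨v, hv⟩
      have hv' := hv
      rw [hE] at hv'
      obtain ⟨i, rfl⟩ := hv'
      exact ⟨i, rfl⟩
  let f : Fin 6 ≃ N.E := Equiv.ofBijective _ hb
  have hf : ∀ i, ((f i : N.E) : α) = x i := fun i => rfl
  refine ⟨f.symm.trans labE, fun I => ?_⟩
  obtain ⟨J, rfl⟩ : ∃ J : Finset (Fin 6), I = f '' (J : Set (Fin 6)) := by
    refine ⟨(f ⁻¹' I).toFinite.toFinset, ?_⟩
    rw [Finite.coe_toFinset, image_preimage_eq _ f.surjective]
  have e1 : (Subtype.val '' (f '' (J : Set (Fin 6))) : Set α) = x '' (J : Set (Fin 6)) := by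
    rw [image_image]
    exact image_congr fun i _ => hf i
  have e2 : (Subtype.val '' ((f.symm.trans labE) '' (f '' (J : Set (Fin 6)))) :
      Set (Sym2 (Fin 4))) = ((J.image lab : Finset (Sym2 (Fin 4))) : Set (Sym2 (Fin 4))) := by
    rw [Finset.coe_image, image_image, image_image]
    apply image_congr
    intro i _
    show (labE (f.symm (f i)) : Sym2 (Fin 4)) = lab i
    rw [Equiv.symm_apply_apply, labE_val]
  rw [e1, e2, h, ← Gr_acyclic, Gr]

theorem hasK4_iff {α : Type} {M : Matroid α} : HasK4 M ↔ ∃ N : Matroid α, N ≤m M ∧ IsMK4 N := by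
  constructor
  · rintro ⟨x, C, hx, hd, h⟩
    have hCi : M.Indep C := by simpa using (h ∅).2 k4_empty
    have hxE : ∀ i, x i ∈ M.E := by
      intro i
      exact ((h {i}).2 (k4_single i)).subset_ground (Or.inl (by simp))
    have hsub : range x ⊆ (M ／ C).E := by
      rintro _ ⟨i, rfl⟩
      exact ⟨hxE i, fun hi => Set.disjoint_left.1 hd ⟨i, rfl⟩ hi⟩
    refine ⟨(M ／ C) ↾ (range x), ?_, ?_⟩
    · rw [← delete_compl hsub]
      exact contract_delete_isMinor _ _ _
    · apply isMK4_of_labelling x hx rfl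
      intro J
      rw [restrict_indep_iff, hCi.contract_indep_iff, ← h J]
      constructor
      · rintro ⟨⟨-, h1⟩, -⟩
        exact h1
      · intro h1
        exact ⟨⟨hd.mono_left (image_subset_range _ _), h1⟩, image_subset_range _ _⟩
  · rintro ⟨N, hN, h⟩
    exact h.hasK4.of_isMinor hN

/-- isomorphism of matroids -/
def Iso {α β : Type} (M : Matroid α) (N : Matroid β) : Prop :=
  ∃ e : M.E ≃ N.E, ∀ I : Set M.E, M.Indep (Subtype.val '' I) ↔ N.Indep (Subtype.val '' (e '' I))

theorem Iso.hasK4 {α β : Type} {M : Matroid α} {N : Matroid β} (h : Iso M N) (hN : HasK4 N) :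
    HasK4 M := by
  obtain ⟨e, he⟩ := h
  obtain ⟨x, C, hx, hd, h⟩ := hN
  have hCi : N.Indep C := by simpa using (h ∅).2 k4_empty
  have hxE : ∀ i, x i ∈ N.E := by
    intro i
    exact ((h {i}).2 (k4_single i)).subset_ground (Or.inl (by simp))
  have hCE := hCi.subset_ground
  refine ⟨fun i => (e.symm ⟨x i, hxE i⟩ : α), Subtype.val '' (e.symm '' (Subtype.val ⁻¹' C)),
    ?_, ?_, fun I => ?_⟩
  · intro i j hij
    have h1 := e.symm.injective (Subtype.ext hij)
    exact hx (congrArg Subtype.val h1)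
  · rw [Set.disjoint_left]
    rintro _ ⟨i, rfl⟩ ⟨_, ⟨y, hy, rfl⟩, hyi⟩
    have h1 := e.symm.injective (Subtype.ext hyi)
    rw [h1] at hy
    exact Set.disjoint_left.1 hd ⟨i, rfl⟩ hy
  · rw [← h I]
    have e1 : (fun i => (e.symm ⟨x i, hxE i⟩ : α)) '' (I : Set (Fin 6)) ∪
        Subtype.val '' (e.symm '' (Subtype.val ⁻¹' C)) = Subtype.val '' (e.symm ''
          ((fun i => ⟨x i, hxE i⟩) '' (I : Set (Fin 6)) ∪ Subtype.val ⁻¹' C)) := by
      rw [image_union, image_union, image_image, image_image, image_image]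
    have e2 : (Subtype.val '' (e '' (e.symm ''
          ((fun i => (⟨x i, hxE i⟩ : N.E)) '' (I : Set (Fin 6)) ∪ Subtype.val ⁻¹' C))) : Set β) =
        x '' (I : Set (Fin 6)) ∪ C := by
      rw [Equiv.image_symm_image, image_union, image_image, Subtype.image_preimage_val,
        inter_eq_right.2 hCE]
    rw [e1, he, e2]

/-- `T` is the truncation of `M` -/
def IsTruncation {α : Type} (M T : Matroid α) : Prop :=
  T.E = M.E ∧ ∀ I, T.Indep I ↔ M.Indep I ∧ ¬ M.IsBase I

theorem not_isBase_iff {α : Type} {M : Matroid α} [M.Finite] {I : Set α} (hI : M.Indep I) :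
    ¬ M.IsBase I ↔ I.encard < M.eRank := by
  rw [← not_le, not_iff_not]
  constructor
  · intro h
    rw [h.encard_eq_eRank]
  · intro h
    apply hI.isBase_of_eRk_ge (M.ground_finite.subset hI.subset_ground)
    rwa [hI.eRk_eq_encard]

theorem IsTruncation.hasK4 {α : Type} {M T : Matroid α} [M.Finite] (h : IsTruncation M T)
    (hT : HasK4 T) : HasK4 M := by
  apply hT.of_truncation
  intro I
  rw [h.2]
  exact and_congr_right fun hI => not_isBase_iff hI

theorem exists_truncation {α : Type} (M : Matroid α) [M.Finite] (hM : ¬ M.IsBase ∅) :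
    ∃ T, IsTruncation M T := by
  refine ⟨(IndepMatroid.ofFinite (E := M.E) M.ground_finite
    (fun I => M.Indep I ∧ ¬ M.IsBase I) ⟨M.empty_indep, hM⟩ ?_ ?_ ?_).matroid, rfl, fun I => ?_⟩
  · rintro I J ⟨h1, h2⟩ hIJ
    refine ⟨h1.subset hIJ, fun h3 => h2 ?_⟩
    rwa [← h3.eq_of_subset_indep h1 hIJ]
  · rintro I J ⟨hI1, hI2⟩ ⟨hJ1, hJ2⟩ hlt
    have hIf := M.ground_finite.subset hI1.subset_ground
    have hJf := M.ground_finite.subset hJ1.subset_ground
    have hlt' : I.encard < J.encard := by
      rw [← hIf.cast_ncard_eq, ← hJf.cast_ncard_eq]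
      exact_mod_cast hlt
    obtain ⟨y, hy, hy'⟩ := hI1.exists_insert_of_encard_lt hJ1 hlt'
    refine ⟨y, hy.1, hy.2, hy', ?_⟩
    rw [not_isBase_iff hy']
    rw [not_isBase_iff hJ1] at hJ2
    refine lt_of_le_of_lt ?_ hJ2
    rw [encard_insert_of_notMem hy.2]
    exact Order.add_one_le_of_lt hlt'
  · rintro I ⟨h1, -⟩
    exact h1.subset_ground
  · rw [IndepMatroid.matroid_Indep]
    rfl

/-- the cycle matroid of `K_4` exists -/
theorem exists_isMK4 : ∃ N : Matroid (Fin 6), IsMK4 N := by
  classical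
  let N : Matroid (Fin 6) := (IndepMatroid.ofFinite (E := univ) (toFinite _)
    (fun I => K4Ind I.toFinite.toFinset) (by
      have : (∅ : Set (Fin 6)).toFinite.toFinset = ∅ := Finite.toFinset_empty _
      rw [this]
      exact k4_empty) (by
      intro I J hJ hIJ
      have h1 : ∀ A B : Finset (Fin 6), K4Ind B → A ⊆ B → K4Ind A := by decide +kernel
      exact h1 _ _ hJ (Finite.toFinset_subset_toFinset.2 hIJ)) (by
      intro I J hI hJ hlt
      have h1 : ∀ A B : Finset (Fin 6), K4Ind A → K4Ind B → A.card < B.card →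
        ∃ e ∈ B, e ∉ A ∧ K4Ind (insert e A) := by decide +kernel
      obtain ⟨e, he1, he2, he3⟩ := h1 _ _ hI hJ (by
        rwa [← ncard_eq_toFinset_card, ← ncard_eq_toFinset_card])
      refine ⟨e, (Finite.mem_toFinset _).1 he1, fun h => he2 ((Finite.mem_toFinset _).2 h), ?_⟩
      have h2 : (insert e I).toFinite.toFinset = insert e I.toFinite.toFinset := by
        ext v
        rw [Finite.mem_toFinset, Finset.mem_insert, Finite.mem_toFinset, mem_insert_iff]
      rw [h2]
      exact he3) (fun _ _ => subset_univ _)).matroid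
  refine ⟨N, isMK4_of_labelling id Function.injective_id ?_ fun I => ?_⟩
  · rw [range_id]
    rfl
  · rw [image_id, IndepMatroid.matroid_Indep]
    show K4Ind (I : Set (Fin 6)).toFinite.toFinset ↔ K4Ind I
    rw [Finset.finite_toSet_toFinset]

end Pool.Agent.N357.K4
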