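import Pool.Agent.N357.LPMCore

set_option linter.unusedSectionVars false

open Set Matroid

namespace Pool.Agent.N357.LPM

universe u

variable {V : Type u} [Finite V] {M : Matroid V} {e : V → ℤ} {A Z : Set V}

/-- the elements before the first element of a class form a break -/
lemma brk_lt_min {p : V} (hp : ∀ v, Near e A Z v p → e p ≤ e v) : Brk e A Z {v | e v < e p} := by
  refine ⟨low_lt e _, ?_⟩
  by_cases hne : ({v | e v < e p} : Set V).Nonempty
  · obtain ⟨v₀, hv₀, hmax⟩ := Set.exists_max_image _ e (Set.toFinite _) hne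
    have hv₀' : e v₀ < e p := hv₀
    have hnn : ¬ Near e A Z v₀ p := fun h => absurd (hp v₀ h) (not_le.mpr hv₀')
    simp only [Near, not_forall] at hnn
    obtain ⟨D, hD, hnD⟩ := hnn
    have hpD : p ∉ D := fun hpD => hnD ⟨fun _ => hpD, fun _ => hD.1 v₀ p hv₀'.le hpD⟩
    have hvD : v₀ ∈ D := by
      by_contra hvD
      exact hnD ⟨fun h => absurd h hvD, fun h => absurd h hpD⟩
    have hDe : D = {v | e v < e p} := by
      ext v
      constructor
      · intro hv
        by_contra hlt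
        exact hpD (hD.1 p v (not_lt.mp hlt) hv)
      · intro hv
        exact hD.1 v v₀ (hmax v hv) hvD
    rw [← hDe]
    exact hD.2
  · rw [Set.not_nonempty_iff_eq_empty] at hne
    rw [hne]
    simp

lemma count_le_key (hinj : Function.Injective e) (B : Set V) (p : V) :
    (p ∈ B → (B ∩ {v | e v ≤ e p}).ncard = (B ∩ {v | e v < e p}).ncard + 1) ∧
    (p ∉ B → (B ∩ {v | e v ≤ e p}).ncard = (B ∩ {v | e v < e p}).ncard) := by
  constructor
  · intro hp
    have : B ∩ {v | e v ≤ e p} = insert p (B ∩ {v | e v < e p}) := by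
      ext v
      constructor
      · rintro ⟨h1, h2⟩
        rcases lt_or_eq_of_le (show e v ≤ e p from h2) with h3 | h3
        · exact Or.inr ⟨h1, h3⟩
        · exact Or.inl (hinj h3)
      · rintro (h | h)
        · subst h; exact ⟨hp, le_refl (e v)⟩
        · exact ⟨h.1, show e v ≤ e p from le_of_lt h.2⟩
    rw [this]
    exact Set.ncard_insert_of_notMem (fun h => lt_irrefl (e p) h.2) (Set.toFinite _)
  · intro hp
    congr 1
    ext v
    constructor
    · rintro ⟨h1, h2⟩
      rcases lt_or_eq_of_le (show e v ≤ e p from h2) with h3 | h3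
      · exact ⟨h1, h3⟩
      · exact absurd (by rw [← hinj h3]; exact h1) hp
    · rintro h
      exact ⟨h.1, show e v ≤ e p from le_of_lt h.2⟩

/-- the first element of a nontrivial class is in the upper path and not in the lower path -/
lemma LP.min_class (h : LP M e A Z) {p q : V} (hp : ∀ v, Near e A Z v p → e p ≤ e v)
    (hq : Near e A Z q p) (hne : q ≠ p) : p ∈ A ∧ p ∉ Z := by
  have h1 := (brk_lt_min hp).2
  have hlt : e p < e q := lt_of_le_of_ne (hp q hq) (fun h' => hne (h.inj h').symm)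
  have h2 : (Z ∩ {v | e v ≤ e p}).ncard ≠ (A ∩ {v | e v ≤ e p}).ncard := by
    intro h'
    have := (hq {v | e v ≤ e p} ⟨low_le e _, h'⟩).2 (le_refl (e p))
    exact absurd this (not_le.mpr hlt)
  have h3 := h.le h.baseZ (low_le e (e p))
  have hA := count_le_key h.inj A p
  have hZ := count_le_key h.inj Z p
  by_cases hpA : p ∈ A
  · refine ⟨hpA, fun hpZ => ?_⟩
    have := hA.1 hpA
    have := hZ.1 hpZ
    omega
  · exfalso
    have := hA.2 hpA
    by_cases hpZ : p ∈ Z
    · have := hZ.1 hpZ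
      omega
    · have := hZ.2 hpZ
      omega

lemma LP.sim_of_near (h : LP M e A Z) (hE : M.E = univ) {x y : V} (hxy : Near e A Z x y) :
    Sim M.Indep x y := by
  by_cases hne : x = y
  · subst hne; exact Sim.refl _ _
  obtain ⟨p, hp, hmin⟩ := Set.exists_min_image {v | Near e A Z v x} e (Set.toFinite _)
    ⟨x, Near.refl x⟩
  obtain ⟨q, hq, hmax⟩ := Set.exists_max_image {v | Near e A Z v x} e (Set.toFinite _)
    ⟨x, Near.refl x⟩
  have hp' : Near e A Z p x := hp
  have hq' : Near e A Z q x := hq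
  have hpq : e p < e q := by
    have h1 := hmin x (Near.refl x)
    have h2 := hmin y hxy.symm
    have h3 := hmax x (Near.refl x)
    have h4 := hmax y hxy.symm
    have h5 : e x ≠ e y := fun h' => hne (h.inj h')
    omega
  have hpA : p ∈ A := by
    refine (h.min_class (p := p) (q := q) ?_ ?_ ?_).1
    · intro v hv
      exact hmin v (hv.trans hp')
    · exact hq'.trans hp'.symm
    · rintro rfl; exact lt_irrefl _ hpq
  have hqA : q ∉ A := by
    refine (h.dual.min_class (p := q) (q := p) ?_ ?_ ?_).2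
    · intro v hv
      have h1 : Near e A Z v q := by
        have := Near.dual h.dual hv
        simpa using this
      have := hmax v (h1.trans hq')
      simpa using this
    · exact Near.dual h (hp'.trans hq'.symm)
    · rintro rfl; exact lt_irrefl _ hpq
  have hall : ∀ v, Near e A Z v x → Sim M.Indep v q := by
    intro v hv
    have hpsim : Sim M.Indep p q := by
      refine sim_of_swap hE h.baseA hpA hqA ((h.swap_iff hpA hqA).2 ⟨hpq, ?_⟩)
      intro D hD hpD
      exact ((hq'.trans hp'.symm) D hD).2 hpD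
    by_cases hvA : v ∈ A
    · have hvq : v ≠ q := fun h' => hqA (h' ▸ hvA)
      have hlt : e v < e q := lt_of_le_of_ne (hmax v hv) (fun h' => hvq (h.inj h'))
      refine sim_of_swap hE h.baseA hvA hqA ((h.swap_iff hvA hqA).2 ⟨hlt, ?_⟩)
      intro D hD hvD
      exact ((hq'.trans hv.symm) D hD).2 hvD
    · have hvp : v ≠ p := fun h' => hvA (h' ▸ hpA)
      have hlt : e p < e v := lt_of_le_of_ne (hmin v hv) (fun h' => hvp (h.inj h').symm)
      refine Sim.trans (Sim.symm (sim_of_swap hE h.baseA hpA hvA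
        ((h.swap_iff hpA hvA).2 ⟨hlt, ?_⟩))) hpsim
      intro D hD hpD
      exact ((hv.trans hp'.symm) D hD).2 hpD
  exact (hall x (Near.refl x)).trans (hall y hxy.symm).symm

/-- description of the local prefix of `l` -/
lemma LP.mem_XX (h : LP M e A Z) (hE : M.E = univ) {l : V} (hl : l ∈ A) (f : V) :
    f ∈ XX M.Indep A l ↔ Sim M.Indep f l ∧ ∃ g, g ∉ A ∧ Sim M.Indep g l ∧ e f ≤ e g ∧ e g < e l := by
  have key : ∀ a, a ∈ A → ∀ g, g ∉ A → Sim M.Indep g a →
      (IsB M.Indep (swap A a g) ↔ e a < e g) := by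
    intro a ha g hg hs
    rw [isB_iff, h.swap_iff ha hg]
    constructor
    · exact fun h' => h'.1
    · intro h'
      exact ⟨h', fun D hD haD => (h.near_of_sim hs D hD).2 haD⟩
  constructor
  · rintro ⟨hfl, g, hg, hgl, hns, hf⟩
    refine ⟨hfl, g, hg, hgl, ?_, ?_⟩
    · rcases hf with rfl | ⟨hfA, hs⟩
      · exact le_refl _
      · exact ((key f hfA g hg (hgl.trans hfl.symm)).1 hs).le
    · rw [key l hl g hg hgl] at hns
      exact lt_of_le_of_ne (not_lt.mp hns) (fun h' => hg (by rw [h.inj h']; exact hl))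
  · rintro ⟨hfl, g, hg, hgl, hfg, hlt⟩
    refine ⟨hfl, ?_⟩
    by_cases hfA : f ∈ A
    · refine ⟨g, hg, hgl, ?_, Or.inr ⟨hfA, ?_⟩⟩
      · rw [key l hl g hg hgl]; exact not_lt.mpr hlt.le
      · rw [key f hfA g hg (hgl.trans hfl.symm)]
        exact lt_of_le_of_ne hfg (fun h' => hg (by rw [← h.inj h']; exact hfA))
    · refine ⟨f, hfA, hfl, ?_, Or.inl rfl⟩
      rw [key l hl f hfA hfl]
      exact not_lt.mpr (hfg.trans hlt.le)

lemma LP.chain (h : LP M e A Z) (hE : M.E = univ) : ∀ l ∈ A, ∀ l' ∈ A, Sim M.Indep l l' →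
    XX M.Indep A l ⊆ XX M.Indep A l' ∨ XX M.Indep A l' ⊆ XX M.Indep A l := by
  have key : ∀ l ∈ A, ∀ l' ∈ A, Sim M.Indep l l' → e l ≤ e l' →
      XX M.Indep A l ⊆ XX M.Indep A l' := by
    intro l hl l' hl' hs hle f hf
    rw [h.mem_XX hE hl] at hf
    rw [h.mem_XX hE hl']
    obtain ⟨hf, g, hg, hgl, h1, h2⟩ := hf
    exact ⟨hf.trans hs, g, hg, hgl.trans hs, h1, lt_of_lt_of_le h2 hle⟩
  intro l hl l' hl' hs
  rcases le_total (e l) (e l') with h1 | h1
  · exact Or.inl (key l hl l' hl' hs h1)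
  · exact Or.inr (key l' hl' l hl hs.symm h1)

lemma LP.cross (h : LP M e A Z) (hE : M.E = univ) : ∀ l ∈ A, ∀ u ∈ Z, Sim M.Indep l u →
    (∀ f, f ∈ XX M.Indep A l → f ∉ XX M.Indep Z u) ∨
    (∀ f, Sim M.Indep f l → f ∈ XX M.Indep A l ∨ f ∈ XX M.Indep Z u) := by
  intro l hl u hu hs
  by_cases hd : ∀ f, f ∈ XX M.Indep A l → f ∉ XX M.Indep Z u
  · exact Or.inl hd
  · right
    push Not at hd
    obtain ⟨f₀, h1, h2⟩ := hd
    rw [h.mem_XX hE hl] at h1
    rw [h.dual.mem_XX hE hu] at h2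
    obtain ⟨_, g, hg, hgl, hg1, hg2⟩ := h1
    obtain ⟨_, g', hg', hgl', hg1', hg2'⟩ := h2
    intro f hf
    rcases le_total (e f) (e f₀) with h3 | h3
    · left
      rw [h.mem_XX hE hl]
      exact ⟨hf, g, hg, hgl, h3.trans hg1, hg2⟩
    · right
      rw [h.dual.mem_XX hE hu]
      refine ⟨hf.trans hs, g', hg', hgl', ?_, hg2'⟩
      have : - e f ≤ - e f₀ := by omega
      exact this.trans hg1'

lemma LP.crit (h : LP M e A Z) (hE : M.E = univ) {B : Set V} (hB : M.IsBase B) {x y : V}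
    (hx : x ∈ B) (hy : y ∉ B) (hs : Sim M.Indep x y) (hlt : e y < e x)
    (hns : ¬ M.IsBase (swap B x y)) :
    ∃ l ∈ A, y ∈ XX M.Indep A l ∧ x ∉ XX M.Indep A l ∧ Spans M.Indep B (XX M.Indep A l) := by
  -- a tight down-closed set
  have hT : ∃ D, Low e D ∧ y ∈ D ∧ x ∉ D ∧ (B ∩ D).ncard = (A ∩ D).ncard := by
    by_contra hcon
    push Not at hcon
    apply hns
    rw [h.base_iff]
    refine ⟨(card_swap hx hy).trans (h.card hB), ?_⟩
    intro D hD
    have h1 := h.le hB hD
    have h2 := h.ge hB hD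
    by_cases hxD : x ∈ D
    · have hyD : y ∈ D := hD y x hlt.le hxD
      rw [count_in_in hx hy hxD hyD]
      exact ⟨h2, h1⟩
    · by_cases hyD : y ∈ D
      · have h3 := count_out_in (B := B) hy hxD hyD
        have h4 := hcon D hD hyD hxD
        omega
      · rw [count_out_out hxD hyD]
        exact ⟨h2, h1⟩
  obtain ⟨D, hD, hyD, hxD, hDt⟩ := hT
  -- the first element of `A` outside `D`
  have hAD : ∃ l, l ∈ A ∧ l ∉ D ∧ e l ≤ e x := by
    by_contra hcon
    push Not at hcon
    have h1 : A ∩ {v | e v ≤ e x} ⊆ A ∩ D := by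
      rintro v ⟨hv, hvx⟩
      refine ⟨hv, ?_⟩
      by_contra hvD
      exact absurd (show e v ≤ e x from hvx) (not_le.mpr (hcon v hv hvD))
    have h2 := Set.ncard_le_ncard h1 (Set.toFinite _)
    have h3 : insert x (B ∩ D) ⊆ B ∩ {v | e v ≤ e x} := by
      rintro v (hv | hv)
      · subst hv; exact ⟨hx, le_refl (e v)⟩
      · refine ⟨hv.1, ?_⟩
        by_contra hc
        exact hxD (hD x v (le_of_lt (not_le.mp hc)) hv.2)
    have h4 := Set.ncard_le_ncard h3 (Set.toFinite _)
    rw [Set.ncard_insert_of_notMem (fun h' => hxD h'.2) (Set.toFinite _)] at h4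
    have h5 := h.le hB (low_le e (e x))
    omega
  obtain ⟨l₁, hl₁, hl₁D, hl₁x⟩ := hAD
  obtain ⟨l, hl', hlmin⟩ := Set.exists_min_image (A \ D) e (Set.toFinite _) ⟨l₁, hl₁, hl₁D⟩
  have hl : l ∈ A := hl'.1
  have hlD : l ∉ D := hl'.2
  have hlx : e l ≤ e x := (hlmin l₁ ⟨hl₁, hl₁D⟩).trans hl₁x
  have hD' : D ⊆ {v | e v < e l} := by
    intro v hv
    by_contra hc
    exact hlD (hD l v (not_lt.mp hc) hv)
  have hAD' : A ∩ {v | e v < e l} = A ∩ D := by
    apply Set.Subset.antisymm
    · rintro v ⟨hv, hvl⟩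
      refine ⟨hv, ?_⟩
      by_contra hvD
      exact absurd (hlmin v ⟨hv, hvD⟩) (not_le.mpr hvl)
    · exact Set.inter_subset_inter_right _ hD'
  have ht' : (B ∩ {v | e v < e l}).ncard = (A ∩ {v | e v < e l}).ncard := by
    have h1 := h.le hB (low_lt e (e l))
    have h2 := count_mono B hD'
    rw [hAD'] at h1 ⊢
    omega
  -- the critical prefix
  set W : Set V := {v | ∃ g, g ∉ A ∧ e v ≤ e g ∧ e g < e l} with hW
  have hWlow : Low e W := by
    rintro v w hvw ⟨g, hg, h1, h2⟩
    exact ⟨g, hg, hvw.trans h1, h2⟩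
  have hWsub : W ⊆ {v | e v < e l} := by
    rintro v ⟨g, hg, h1, h2⟩
    exact lt_of_le_of_lt h1 h2
  have hdA : ({v | e v < e l} : Set V) \ W ⊆ A := by
    rintro v ⟨hv, hvW⟩
    by_contra hvA
    exact hvW ⟨v, hvA, le_refl _, hv⟩
  have hdA' : A ∩ (({v | e v < e l} : Set V) \ W) = ({v | e v < e l} : Set V) \ W :=
    Set.inter_eq_right.mpr hdA
  have c1 := count_split A hWsub
  have c2 := count_split B hWsub
  rw [hdA'] at c1
  have c3 := count_le B (({v | e v < e l} : Set V) \ W)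
  have c4 := h.le hB hWlow
  have hWt : (B ∩ W).ncard = (A ∩ W).ncard := by omega
  have hyW : y ∈ W := by
    by_contra hyW
    have := count_lt hy (show y ∈ ({v | e v < e l} : Set V) \ W from ⟨hD' hyD, hyW⟩)
    omega
  -- the first element of the class
  obtain ⟨p, hp, hmin⟩ := Set.exists_min_image {v | Near e A Z v l} e (Set.toFinite _)
    ⟨l, Near.refl l⟩
  have hp' : Near e A Z p l := hp
  have hyl : e y < e l := hWsub hyW
  have hnxy : Near e A Z x y := h.near_of_sim hs
  have hly : Near e A Z l y := Near.between (hnxy.symm) hyl.le hlx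
  have hply : e p ≤ e y := hmin y hly.symm
  have hbrk : Brk e A Z {v | e v < e p} := brk_lt_min (fun v hv => hmin v (hv.trans hp'))
  have hsim : ∀ v, Near e A Z v l → Sim M.Indep v l := fun v hv => h.sim_of_near hE hv
  obtain ⟨g, hg, hyg, hgl⟩ := hyW
  have hgn : Near e A Z g l := (Near.between (z := g) hnxy.symm hyg (hgl.le.trans hlx)).trans hly.symm
  have hX : ∀ f, f ∈ XX M.Indep A l ↔ f ∈ W ∧ ¬ (e f < e p) := by
    intro f
    rw [h.mem_XX hE hl]
    constructor
    · rintro ⟨h1, g', hg', hgl', h2, h3⟩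
      refine ⟨⟨g', hg', h2, h3⟩, ?_⟩
      exact not_lt.mpr (hmin f (h.near_of_sim h1))
    · rintro ⟨⟨g', hg', h2, h3⟩, h4⟩
      have hfn : Near e A Z f l := (Near.between (z := f) hp' (not_lt.mp h4) (h2.trans h3.le)).trans hp'
      have hgn' : Near e A Z g' l :=
        (Near.between (z := g') hp' ((not_lt.mp h4).trans h2) h3.le).trans hp'
      exact ⟨hsim f hfn, g', hg', hsim g' hgn', h2, h3⟩
  have hXe : XX M.Indep A l = W \ {v | e v < e p} := by
    ext f; rw [hX f]; rfl
  have hsub : ({v | e v < e p} : Set V) ⊆ W := by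
    intro v hv
    exact ⟨g, hg, (le_of_lt (lt_of_lt_of_le hv hply)).trans hyg, hgl⟩
  refine ⟨l, hl, ?_, ?_, ?_⟩
  · rw [hX]; exact ⟨⟨g, hg, hyg, hgl⟩, not_lt.mpr hply⟩
  · rw [hX]
    rintro ⟨hxW, _⟩
    have : e x < e l := hWsub hxW
    omega
  · intro I hI hIX hBI
    obtain ⟨B2, hB2, hIB2⟩ := hI.exists_isBase_superset
    have d1 : I ⊆ B2 ∩ XX M.Indep A l := fun v hv => ⟨hIB2 hv, hIX hv⟩
    have d2 := Set.ncard_le_ncard d1 (Set.toFinite _)
    rw [hXe] at d2 hBI
    have d3 := count_split B2 hsub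
    have d4 := count_split B hsub
    have d5 := h.le hB2 hWlow
    have d6 := h.le hB2 hbrk.1
    have d7 := h.ge hB2 hbrk.1
    have d8 := hbrk.2
    have d9 := h.le hB hbrk.1
    have d10 := h.ge hB hbrk.1
    have hcard : I.ncard ≤ (B ∩ (W \ {v | e v < e p})).ncard := by omega
    have := Set.eq_of_subset_of_ncard_le hBI hcard (Set.toFinite _)
    rw [← this]
    exact Set.inter_subset_left

theorem LP.phi (h : LP M e A Z) (hE : M.E = univ) : Phi M.Indep := by
  refine ⟨A, Z, (isB_iff M A).2 h.baseA, (isB_iff M Z).2 h.baseZ, h.chain hE, h.dual.chain hE,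
    h.cross hE, ?_⟩
  intro B hB x hx y hy hs hns
  rw [isB_iff] at hB hns
  have hne : x ≠ y := fun h' => hy (h' ▸ hx)
  rcases lt_or_gt_of_ne (fun h' => hne (h.inj h') : e x ≠ e y) with h1 | h1
  · right
    exact h.dual.crit hE hB hx hy hs (by simpa using h1) hns
  · left
    exact h.crit hE hB hx hy hs h1 hns

end Pool.Agent.N357.LPM
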