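import Mathlib

set_option linter.unusedSectionVars false

open Set Matroid

namespace Pool.Agent.N357.LPM

universe u

variable {V : Type u}

/-- `S` is a separator of the independence system `Ind`: an independent subset of `S` together with
an independent set disjoint from `S` is independent. -/
def Sep (Ind : Set V → Prop) (S : Set V) : Prop :=
  ∀ I J U : Set V, Ind I → I ⊆ S → Ind J → Disjoint J S → U ⊆ I ∪ J → Ind U

/-- `a` and `b` lie in the same separators. -/
def Sim (Ind : Set V → Prop) (a b : V) : Prop := ∀ S, Sep Ind S → (a ∈ S ↔ b ∈ S)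

/-- maximal independent set. -/
def IsB (Ind : Set V → Prop) (B : Set V) : Prop := Ind B ∧ ∀ S, Ind S → B ⊆ S → S ⊆ B

/-- the set `A - l + g`. -/
def swap (A : Set V) (l g : V) : Set V := insert g (A \ {l})

/-- the local prefix attached to `l`. -/
def XX (Ind : Set V → Prop) (A : Set V) (l : V) : Set V :=
  {f | Sim Ind f l ∧ ∃ g, g ∉ A ∧ Sim Ind g l ∧ ¬ IsB Ind (swap A l g) ∧
    (f = g ∨ (f ∈ A ∧ IsB Ind (swap A f g)))}

/-- `B ∩ X` is a maximal independent subset of `X`. -/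
def Spans (Ind : Set V → Prop) (B X : Set V) : Prop :=
  ∀ I, Ind I → I ⊆ X → B ∩ X ⊆ I → I ⊆ B

/-- the combinatorial condition expressed by the sentence. -/
def Phi (Ind : Set V → Prop) : Prop :=
  ∃ A Z : Set V, IsB Ind A ∧ IsB Ind Z ∧
    (∀ l ∈ A, ∀ l' ∈ A, Sim Ind l l' → XX Ind A l ⊆ XX Ind A l' ∨ XX Ind A l' ⊆ XX Ind A l) ∧
    (∀ l ∈ Z, ∀ l' ∈ Z, Sim Ind l l' → XX Ind Z l ⊆ XX Ind Z l' ∨ XX Ind Z l' ⊆ XX Ind Z l) ∧
    (∀ l ∈ A, ∀ u ∈ Z, Sim Ind l u →
      (∀ f, f ∈ XX Ind A l → f ∉ XX Ind Z u) ∨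
      (∀ f, Sim Ind f l → f ∈ XX Ind A l ∨ f ∈ XX Ind Z u)) ∧
    (∀ B, IsB Ind B → ∀ x ∈ B, ∀ y, y ∉ B → Sim Ind x y → ¬ IsB Ind (swap B x y) →
      (∃ l ∈ A, y ∈ XX Ind A l ∧ x ∉ XX Ind A l ∧ Spans Ind B (XX Ind A l)) ∨
      (∃ u ∈ Z, y ∈ XX Ind Z u ∧ x ∉ XX Ind Z u ∧ Spans Ind B (XX Ind Z u)))

lemma isB_iff (M : Matroid V) (B : Set V) : IsB M.Indep B ↔ M.IsBase B := by
  rw [Matroid.isBase_iff_maximal_indep]
  constructor
  · rintro ⟨h1, h2⟩
    exact ⟨h1, fun S hS hBS => h2 S hS hBS⟩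
  · rintro ⟨h1, h2⟩
    exact ⟨h1, fun S hS hBS => h2 hS hBS⟩

lemma Sim.refl (Ind : Set V → Prop) (a : V) : Sim Ind a a := fun _ _ => Iff.rfl
lemma Sim.symm {Ind : Set V → Prop} {a b : V} (h : Sim Ind a b) : Sim Ind b a :=
  fun S hS => (h S hS).symm
lemma Sim.trans {Ind : Set V → Prop} {a b c : V} (h : Sim Ind a b) (h' : Sim Ind b c) :
    Sim Ind a c := fun S hS => (h S hS).trans (h' S hS)

/-! ### counting -/

section Count

variable [Finite V]

lemma count_in_out {B D : Set V} {x y : V} (hx : x ∈ B) (hxD : x ∈ D) (hyD : y ∉ D) :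
    (swap B x y ∩ D).ncard + 1 = (B ∩ D).ncard := by
  have : swap B x y ∩ D = (B ∩ D) \ {x} := by
    ext v
    simp only [swap, mem_inter_iff, mem_insert_iff, mem_sdiff, mem_singleton_iff]
    constructor
    · rintro ⟨h | h, h'⟩
      · subst h; exact absurd h' hyD
      · exact ⟨⟨h.1, h'⟩, h.2⟩
    · rintro ⟨⟨h1, h2⟩, h3⟩
      exact ⟨Or.inr ⟨h1, h3⟩, h2⟩
  rw [this]
  exact Set.ncard_sdiff_singleton_add_one ⟨hx, hxD⟩ (Set.toFinite _)

lemma count_out_in {B D : Set V} {x y : V} (hy : y ∉ B) (hxD : x ∉ D) (hyD : y ∈ D) :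
    (swap B x y ∩ D).ncard = (B ∩ D).ncard + 1 := by
  have : swap B x y ∩ D = insert y (B ∩ D) := by
    ext v
    simp only [swap, mem_inter_iff, mem_insert_iff, mem_sdiff, mem_singleton_iff]
    constructor
    · rintro ⟨h | h, h'⟩
      · exact Or.inl h
      · exact Or.inr ⟨h.1, h'⟩
    · rintro (h | h)
      · subst h; exact ⟨Or.inl rfl, hyD⟩
      · refine ⟨Or.inr ⟨h.1, ?_⟩, h.2⟩
        rintro rfl
        exact hxD h.2
  rw [this]
  exact Set.ncard_insert_of_notMem (fun h => hy h.1) (Set.toFinite _)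

lemma count_in_in {B D : Set V} {x y : V} (hx : x ∈ B) (hy : y ∉ B) (hxD : x ∈ D) (hyD : y ∈ D) :
    (swap B x y ∩ D).ncard = (B ∩ D).ncard := by
  have : swap B x y ∩ D = insert y ((B ∩ D) \ {x}) := by
    ext v
    simp only [swap, mem_inter_iff, mem_insert_iff, mem_sdiff, mem_singleton_iff]
    constructor
    · rintro ⟨h | h, h'⟩
      · exact Or.inl h
      · exact Or.inr ⟨⟨h.1, h'⟩, h.2⟩
    · rintro (h | h)
      · subst h; exact ⟨Or.inl rfl, hyD⟩
      · exact ⟨Or.inr ⟨h.1.1, h.2⟩, h.1.2⟩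
  rw [this, Set.ncard_insert_of_notMem (fun h => hy h.1.1) (Set.toFinite _)]
  exact Set.ncard_sdiff_singleton_add_one ⟨hx, hxD⟩ (Set.toFinite _)

lemma count_out_out {B D : Set V} {x y : V} (hxD : x ∉ D) (hyD : y ∉ D) :
    (swap B x y ∩ D).ncard = (B ∩ D).ncard := by
  have : swap B x y ∩ D = B ∩ D := by
    ext v
    simp only [swap, mem_inter_iff, mem_insert_iff, mem_sdiff, mem_singleton_iff]
    constructor
    · rintro ⟨h | h, h'⟩
      · subst h; exact absurd h' hyD
      · exact ⟨h.1, h'⟩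
    · rintro ⟨h1, h2⟩
      refine ⟨Or.inr ⟨h1, ?_⟩, h2⟩
      rintro rfl
      exact hxD h2
  rw [this]

lemma card_swap {B : Set V} {x y : V} (hx : x ∈ B) (hy : y ∉ B) : (swap B x y).ncard = B.ncard := by
  have := count_in_in (D := Set.univ) hx hy (mem_univ _) (mem_univ _)
  simpa using this

lemma count_split (B : Set V) {D D' : Set V} (h : D ⊆ D') :
    (B ∩ D').ncard = (B ∩ D).ncard + (B ∩ (D' \ D)).ncard := by
  rw [← Set.ncard_union_eq (by
    rw [Set.disjoint_left]
    rintro v ⟨_, h1⟩ ⟨_, h2⟩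
    exact h2.2 h1) (Set.toFinite _) (Set.toFinite _)]
  congr 1
  ext v
  simp only [mem_inter_iff, mem_union, mem_sdiff]
  constructor
  · rintro ⟨h1, h2⟩
    by_cases h3 : v ∈ D
    · exact Or.inl ⟨h1, h3⟩
    · exact Or.inr ⟨h1, h2, h3⟩
  · rintro (⟨h1, h2⟩ | ⟨h1, h2, h3⟩)
    · exact ⟨h1, h h2⟩
    · exact ⟨h1, h2⟩

lemma count_compl (B D : Set V) : B.ncard = (B ∩ D).ncard + (B ∩ Dᶜ).ncard := by
  have := count_split B (subset_univ D)
  rw [Set.inter_univ] at this
  rw [this]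
  congr 2
  rw [Set.compl_eq_univ_sdiff]

lemma count_mono (B : Set V) {D D' : Set V} (h : D ⊆ D') : (B ∩ D).ncard ≤ (B ∩ D').ncard :=
  Set.ncard_le_ncard (Set.inter_subset_inter_right _ h) (Set.toFinite _)

lemma count_le (B D : Set V) : (B ∩ D).ncard ≤ D.ncard :=
  Set.ncard_le_ncard Set.inter_subset_right (Set.toFinite _)

lemma count_lt {B D : Set V} {y : V} (hy : y ∉ B) (hyD : y ∈ D) : (B ∩ D).ncard < D.ncard :=
  Set.ncard_lt_ncard ⟨Set.inter_subset_right, fun h => hy (h hyD).1⟩ (Set.toFinite _)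

end Count

/-- down-closed with respect to the key `e`. -/
def Low (e : V → ℤ) (D : Set V) : Prop := ∀ v w, e v ≤ e w → w ∈ D → v ∈ D

lemma Low.compl {e : V → ℤ} {D : Set V} (h : Low e D) : Low (fun v => - e v) Dᶜ := by
  intro v w hvw hw hv
  have hvw' : e w ≤ e v := by simpa using hvw
  exact hw (h w v hvw' hv)

lemma Low.compl' {e : V → ℤ} {D : Set V} (h : Low (fun v => - e v) D) : Low e Dᶜ := by
  intro v w hvw hw hv
  exact hw (h w v (by simpa using hvw) hv)

lemma low_lt (e : V → ℤ) (a : ℤ) : Low e {v | e v < a} := fun _ _ h h' => lt_of_le_of_lt h h'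
lemma low_le (e : V → ℤ) (a : ℤ) : Low e {v | e v ≤ a} := fun _ _ h h' => le_trans h h'

lemma Low.total {e : V → ℤ} {D D' : Set V} (h : Low e D) (h' : Low e D') : D ⊆ D' ∨ D' ⊆ D := by
  by_cases hs : D ⊆ D'
  · exact Or.inl hs
  · right
    obtain ⟨v, hv, hv'⟩ := Set.not_subset.mp hs
    intro w hw
    rcases le_total (e v) (e w) with h1 | h1
    · exact absurd (h' v w h1 hw) hv'
    · exact h w v h1 hv

/-- `M` is the lattice path matroid, in the order given by the key `e`, between the sets of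
North steps `A` of the upper path and `Z` of the lower path. -/
structure LP (M : Matroid V) (e : V → ℤ) (A Z : Set V) : Prop where
  inj : Function.Injective e
  base_iff : ∀ B, M.IsBase B ↔ B.ncard = A.ncard ∧
    ∀ D, Low e D → (Z ∩ D).ncard ≤ (B ∩ D).ncard ∧ (B ∩ D).ncard ≤ (A ∩ D).ncard
  baseA : M.IsBase A
  baseZ : M.IsBase Z

section Complete

variable [Finite V] {M : Matroid V} {e : V → ℤ} {A Z : Set V}

lemma LP.card (h : LP M e A Z) {B : Set V} (hB : M.IsBase B) : B.ncard = A.ncard :=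
  ((h.base_iff B).1 hB).1

lemma LP.le (h : LP M e A Z) {B : Set V} (hB : M.IsBase B) {D : Set V} (hD : Low e D) :
    (B ∩ D).ncard ≤ (A ∩ D).ncard := (((h.base_iff B).1 hB).2 D hD).2

lemma LP.ge (h : LP M e A Z) {B : Set V} (hB : M.IsBase B) {D : Set V} (hD : Low e D) :
    (Z ∩ D).ncard ≤ (B ∩ D).ncard := (((h.base_iff B).1 hB).2 D hD).1

lemma LP.dual (h : LP M e A Z) : LP M (fun v => - e v) Z A := by
  refine ⟨fun a b hab => h.inj (by simpa using hab), ?_, h.baseZ, h.baseA⟩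
  intro B
  have hZ := h.card h.baseZ
  constructor
  · intro hB
    refine ⟨(h.card hB).trans hZ.symm, ?_⟩
    intro D hD
    have h1 := h.le hB hD.compl'
    have h2 := h.ge hB hD.compl'
    have h3 := count_compl A D
    have h4 := count_compl B D
    have h5 := count_compl Z D
    have h6 := h.card hB
    omega
  · rintro ⟨hc, hD⟩
    rw [h.base_iff]
    refine ⟨hc.trans hZ, ?_⟩
    intro D hDl
    have h1 := hD Dᶜ hDl.compl
    have h3 := count_compl A D
    have h4 := count_compl B D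
    have h5 := count_compl Z D
    omega

/-- a break: a down-closed set in which the two paths have the same height. -/
def Brk (e : V → ℤ) (A Z D : Set V) : Prop := Low e D ∧ (Z ∩ D).ncard = (A ∩ D).ncard

/-- not separated by a break. -/
def Near (e : V → ℤ) (A Z : Set V) (x y : V) : Prop := ∀ D, Brk e A Z D → (x ∈ D ↔ y ∈ D)

lemma Near.refl (x : V) : Near e A Z x x := fun _ _ => Iff.rfl
lemma Near.symm {x y : V} (h : Near e A Z x y) : Near e A Z y x := fun D hD => (h D hD).symm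
lemma Near.trans {x y z : V} (h : Near e A Z x y) (h' : Near e A Z y z) : Near e A Z x z :=
  fun D hD => (h D hD).trans (h' D hD)

lemma Brk.compl (h : LP M e A Z) {D : Set V} (hD : Brk e A Z D) :
    Brk (fun v => - e v) Z A Dᶜ := by
  refine ⟨hD.1.compl, ?_⟩
  have h3 := count_compl A D
  have h5 := count_compl Z D
  have := hD.2
  have := h.card h.baseZ
  omega

lemma Near.dual (h : LP M e A Z) {x y : V} (hxy : Near e A Z x y) :
    Near (fun v => - e v) Z A x y := by
  intro D hD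
  have h2 : Brk e A Z Dᶜ := by
    have := Brk.compl h.dual hD
    simpa using this
  have := hxy _ h2
  simp only [mem_compl_iff] at this
  exact not_iff_not.mp this

lemma Near.between {x y z : V} (h : Near e A Z x y) (h1 : e x ≤ e z) (h2 : e z ≤ e y) :
    Near e A Z z x := by
  intro D hD
  constructor
  · intro hz; exact hD.1 x z h1 hz
  · intro hx; exact hD.1 z y h2 ((h D hD).1 hx)

/-- fundamental exchanges at the upper path -/
lemma LP.swap_iff (h : LP M e A Z) {l g : V} (hl : l ∈ A) (hg : g ∉ A) :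
    M.IsBase (swap A l g) ↔ e l < e g ∧ ∀ D, Brk e A Z D → l ∈ D → g ∈ D := by
  constructor
  · intro hB
    constructor
    · by_contra hlt
      have hne : e g ≠ e l := fun h' => hg (by rw [h.inj h']; exact hl)
      have hlt' : e g < e l := lt_of_le_of_ne (not_lt.mp hlt) hne
      have h1 := h.le hB (low_le e (e g))
      have h2 := count_out_in (B := A) (D := {v | e v ≤ e g}) (x := l) hg
        (show ¬ (e l ≤ e g) from not_le.mpr hlt') (show e g ≤ e g from le_refl _)
      omega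
    · intro D hD hlD
      by_contra hgD
      have h1 := h.ge hB hD.1
      have h2 := count_in_out (B := A) (D := D) hl hlD hgD
      have := hD.2
      omega
  · rintro ⟨hlt, hbr⟩
    rw [h.base_iff]
    refine ⟨card_swap hl hg, ?_⟩
    intro D hD
    have hZ := h.ge h.baseA hD
    by_cases hlD : l ∈ D
    · by_cases hgD : g ∈ D
      · rw [count_in_in hl hg hlD hgD]; exact ⟨hZ, le_refl _⟩
      · have h2 := count_in_out (B := A) (D := D) hl hlD hgD
        have h3 : (Z ∩ D).ncard ≠ (A ∩ D).ncard := fun h' => hgD (hbr D ⟨hD, h'⟩ hlD)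
        omega
    · by_cases hgD : g ∈ D
      · exact absurd (hD l g hlt.le hgD) hlD
      · rw [count_out_out hlD hgD]; exact ⟨hZ, le_refl _⟩

/-- breaks are separators -/
lemma LP.brk_sep (h : LP M e A Z) {D : Set V} (hD : Brk e A Z D) : Sep M.Indep D := by
  intro I J U hI hID hJ hJD hU
  obtain ⟨B1, hB1, hIB1⟩ := hI.exists_isBase_superset
  obtain ⟨B2, hB2, hJB2⟩ := hJ.exists_isBase_superset
  have hb : M.IsBase ((B1 ∩ D) ∪ (B2 \ D)) := by
    rw [h.base_iff]
    have e1 : ∀ D', D' ⊆ D → ((B1 ∩ D) ∪ (B2 \ D)) ∩ D' = B1 ∩ D' := by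
      intro D' hD'
      ext v
      simp only [mem_inter_iff, mem_union, mem_sdiff]
      constructor
      · rintro ⟨⟨h1, h2⟩ | ⟨h1, h2⟩, h3⟩
        · exact ⟨h1, h3⟩
        · exact absurd (hD' h3) h2
      · rintro ⟨h1, h2⟩
        exact ⟨Or.inl ⟨h1, hD' h2⟩, h2⟩
    have e2 : ∀ D', ((B1 ∩ D) ∪ (B2 \ D)) ∩ (D' \ D) = B2 ∩ (D' \ D) := by
      intro D'
      ext v
      simp only [mem_inter_iff, mem_union, mem_sdiff]
      constructor
      · rintro ⟨⟨h1, h2⟩ | ⟨h1, h2⟩, h3⟩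
        · exact absurd h2 h3.2
        · exact ⟨h1, h3⟩
      · rintro ⟨h1, h2⟩
        exact ⟨Or.inr ⟨h1, h2.2⟩, h2⟩
    have c1 := h.le hB1 hD.1
    have c2 := h.ge hB1 hD.1
    have c3 := h.le hB2 hD.1
    have c4 := h.ge hB2 hD.1
    have c5 := hD.2
    have key : ∀ D', D ⊆ D' → (((B1 ∩ D) ∪ (B2 \ D)) ∩ D').ncard = (B2 ∩ D').ncard := by
      intro D' hD'
      rw [count_split _ hD', count_split B2 hD', e1 D (le_refl _), e2]
      omega
    constructor
    · have := key univ (subset_univ _)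
      rw [Set.inter_univ, Set.inter_univ] at this
      rw [this]
      exact h.card hB2
    · intro D' hD'
      rcases hD'.total hD.1 with h1 | h1
      · rw [e1 D' h1]
        exact ⟨h.ge hB1 hD', h.le hB1 hD'⟩
      · rw [key D' h1]
        exact ⟨h.ge hB2 hD', h.le hB2 hD'⟩
  refine hb.indep.subset (hU.trans ?_)
  apply Set.union_subset_union
  · exact fun v hv => ⟨hIB1 hv, hID hv⟩
  · exact fun v hv => ⟨hJB2 hv, fun hvD => (Set.disjoint_left.mp hJD) hv hvD⟩

lemma LP.near_of_sim (h : LP M e A Z) {x y : V} (hs : Sim M.Indep x y) : Near e A Z x y :=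
  fun D hD => hs D (h.brk_sep hD)

end Complete

/-! ### separators of a matroid -/

section SepM

variable {M : Matroid V}

lemma Sep.isBasis (hE : M.E = univ) {S B : Set V} (hS : Sep M.Indep S) (hB : M.IsBase B) :
    M.IsBasis (B ∩ S) S := by
  obtain ⟨I, hI, hBI⟩ := (hB.indep.subset (inter_subset_left (s := B) (t := S))).subset_isBasis_of_subset
    (X := S) inter_subset_right (by rw [hE]; exact subset_univ _)
  have h1 : M.Indep (I ∪ (B \ S)) := by
    refine hS I (B \ S) _ hI.indep hI.subset (hB.indep.subset Set.sdiff_subset) ?_ (le_refl _)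
    exact Set.disjoint_sdiff_left
  have h2 : B = I ∪ (B \ S) := by
    apply hB.eq_of_subset_indep h1
    intro v hv
    by_cases hvS : v ∈ S
    · exact Or.inl (hBI ⟨hv, hvS⟩)
    · exact Or.inr ⟨hv, hvS⟩
  have h3 : I ⊆ B ∩ S := by
    intro v hv
    refine ⟨?_, hI.subset hv⟩
    rw [h2]; exact Or.inl hv
  have h4 : I = B ∩ S := Set.Subset.antisymm h3 hBI
  rwa [h4] at hI

lemma sim_of_swap (hE : M.E = univ) {A : Set V} (hA : M.IsBase A) {l g : V} (hl : l ∈ A)
    (hg : g ∉ A) (hs : M.IsBase (swap A l g)) : Sim M.Indep l g := by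
  intro S hS
  have h1 := hS.isBasis hE hA
  have h2 := hS.isBasis hE hs
  constructor
  · intro hlS
    by_contra hgS
    have hsub : swap A l g ∩ S ⊆ A ∩ S := by
      rintro v ⟨hv | hv, hvS⟩
      · subst hv; exact absurd hvS hgS
      · exact ⟨hv.1, hvS⟩
    have heq := h2.eq_of_subset_indep h1.indep hsub h1.subset
    have : l ∈ swap A l g ∩ S := by rw [heq]; exact ⟨hl, hlS⟩
    rcases this.1 with h3 | h3
    · subst h3; exact hg hl
    · exact h3.2 rfl
  · intro hgS
    by_contra hlS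
    have hsub : A ∩ S ⊆ swap A l g ∩ S := by
      rintro v ⟨hv, hvS⟩
      refine ⟨Or.inr ⟨hv, ?_⟩, hvS⟩
      rintro rfl
      exact hlS hvS
    have heq := h1.eq_of_subset_indep h2.indep hsub h2.subset
    have : g ∈ A ∩ S := by rw [heq]; exact ⟨Or.inl rfl, hgS⟩
    exact hg this.1

end SepM

end Pool.Agent.N357.LPM
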