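import Pool.Agent.N357.LPMCore

set_option linter.unusedSectionVars false

open Set Matroid

namespace Pool.Agent.N357.LPM

universe u

variable {V : Type u} {M : Matroid V}

lemma Sep.compl {Ind : Set V → Prop} {S : Set V} (hS : Sep Ind S) : Sep Ind Sᶜ := by
  intro I J U hI hIS hJ hJS hU
  refine hS J I U hJ ?_ hI ?_ ?_
  · intro v hv
    by_contra hvS
    exact Set.disjoint_left.mp hJS hv hvS
  · rw [Set.disjoint_left]
    exact fun v hv hvS => hIS hv hvS
  · rw [Set.union_comm]; exact hU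

lemma Sep.inter {S T : Set V} (hS : Sep M.Indep S) (hT : Sep M.Indep T) :
    Sep M.Indep (S ∩ T) := by
  intro I J U hI hIS hJ hJS hU
  have h1 : M.Indep (I ∪ (J ∩ S)) := by
    refine hT I (J ∩ S) _ hI (fun v hv => (hIS hv).2) (hJ.subset inter_subset_left) ?_ (le_refl _)
    rw [Set.disjoint_left]
    rintro v ⟨hv, hvS⟩ hvT
    exact Set.disjoint_left.mp hJS hv ⟨hvS, hvT⟩
  have h2 : M.Indep ((I ∪ (J ∩ S)) ∪ (J \ S)) := by
    refine hS _ (J \ S) _ h1 ?_ (hJ.subset Set.sdiff_subset) Set.disjoint_sdiff_left (le_refl _)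
    rintro v (hv | hv)
    · exact (hIS hv).1
    · exact hv.2
  refine h2.subset (hU.trans ?_)
  rintro v (hv | hv)
  · exact Or.inl (Or.inl hv)
  · by_cases hvS : v ∈ S
    · exact Or.inl (Or.inr ⟨hv, hvS⟩)
    · exact Or.inr ⟨hv, hvS⟩

lemma sep_univ : Sep M.Indep univ := by
  intro I J U hI _ _ hJS hU
  refine hI.subset (hU.trans ?_)
  rintro v (hv | hv)
  · exact hv
  · exact absurd (mem_univ v) (Set.disjoint_left.mp hJS hv)

variable [Finite V]

lemma exists_class_sep (M : Matroid V) (v : V) :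
    ∃ S, Sep M.Indep S ∧ v ∈ S ∧ ∀ w ∈ S, Sim M.Indep w v := by
  obtain ⟨S, hS, hmin⟩ := Set.exists_min_image {S : Set V | Sep M.Indep S ∧ v ∈ S} Set.ncard
    (Set.toFinite _) ⟨univ, sep_univ, mem_univ v⟩
  have hsub : ∀ T, Sep M.Indep T → v ∈ T → S ⊆ T := by
    intro T hT hvT
    have h1 := hmin (S ∩ T) ⟨hS.1.inter hT, hS.2, hvT⟩
    have h2 := Set.eq_of_subset_of_ncard_le (Set.inter_subset_left (s := S) (t := T)) h1
      (Set.toFinite _)
    rw [← h2]
    exact Set.inter_subset_right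
  refine ⟨S, hS.1, hS.2, ?_⟩
  intro w hw T hT
  constructor
  · intro hwT
    by_contra hvT
    exact hsub Tᶜ hT.compl hvT hw hwT
  · intro hvT
    exact hsub T hT hvT hw

lemma closed_span (hE : M.E = univ) {S : Set V}
    (hS : ∀ v w, Sim M.Indep v w → v ∈ S → w ∈ S) {B : Set V} (hB : M.IsBase B) :
    S ⊆ M.closure (B ∩ S) := by
  intro v hv
  obtain ⟨T, hT, hvT, hTs⟩ := exists_class_sep M v
  have h1 := (hT.isBasis hE hB).subset_closure hvT
  refine M.closure_subset_closure ?_ h1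
  rintro w ⟨hwB, hwT⟩
  exact ⟨hwB, hS v w (hTs w hwT).symm hv⟩

lemma Spans.closure (hE : M.E = univ) {B X : Set V} (hB : M.IsBase B)
    (h : Spans M.Indep B X) : X ⊆ M.closure (B ∩ X) := by
  obtain ⟨I, hI, hBI⟩ := (hB.indep.subset (inter_subset_left (s := B) (t := X))).subset_isBasis_of_subset
    (X := X) inter_subset_right (by rw [hE]; exact subset_univ _)
  have h1 := h I hI.indep hI.subset hBI
  have h2 : I = B ∩ X := Set.Subset.antisymm (fun v hv => ⟨h1 hv, hI.subset hv⟩) hBI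
  rw [← h2]
  exact hI.subset_closure

/-- a key adapted to a finite family of requirements -/
lemma exists_key {L : Type*} [LinearOrder L] (f : V → L) (hf : Function.Injective f) :
    ∃ e : V → ℤ, Function.Injective e ∧ (∀ v w, f v < f w → e v < e w) ∧
      (∀ v, 0 ≤ e v ∧ e v < Nat.card V) := by
  have hlt : ∀ v w, f v < f w → (({u | f u < f v} : Set V).ncard : ℤ) <
      (({u | f u < f w} : Set V).ncard : ℤ) := by
    intro v w h
    have : ({u | f u < f v} : Set V).ncard < ({u | f u < f w} : Set V).ncard := by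
      refine Set.ncard_lt_ncard ⟨fun u hu => lt_trans hu h, fun hsub => ?_⟩ (Set.toFinite _)
      exact lt_irrefl (f v) (hsub h)
    exact_mod_cast this
  refine ⟨fun v => (({u | f u < f v} : Set V).ncard : ℤ), ?_, hlt, ?_⟩
  · intro v w h
    by_contra hne
    rcases lt_or_gt_of_ne (fun h' => hne (hf h') : f v ≠ f w) with h1 | h1
    · exact absurd h (ne_of_lt (hlt _ _ h1))
    · exact absurd h (ne_of_gt (hlt _ _ h1))
  · intro v
    refine ⟨by positivity, ?_⟩
    have : ({u | f u < f v} : Set V).ncard < (univ : Set V).ncard := by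
      refine Set.ncard_lt_ncard ⟨subset_univ _, fun hsub => ?_⟩ (Set.toFinite _)
      exact lt_irrefl (f v) (hsub (mem_univ v))
    rw [Set.ncard_univ] at this
    show (({u | f u < f v} : Set V).ncard : ℤ) < (Nat.card V : ℤ)
    exact_mod_cast this

/-- the exchange property relative to the key -/
def Star (M : Matroid V) (e : V → ℤ) : Prop :=
  ∀ B, M.IsBase B → ∀ x ∈ B, ∀ y, y ∉ B → ¬ M.IsBase (swap B x y) →
    ∃ D, Low e D ∧ ((y ∈ D ∧ x ∉ D ∧ D ⊆ M.closure (B ∩ D)) ∨
      (y ∉ D ∧ x ∈ D ∧ Dᶜ ⊆ M.closure (B ∩ Dᶜ)))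

theorem exists_star (hE : M.E = univ) (h : Phi M.Indep) :
    ∃ e : V → ℤ, Function.Injective e ∧ (∀ v, 0 ≤ e v ∧ e v < Nat.card V) ∧ Star M e := by
  obtain ⟨A, Z, hA, hZ, hcA, hcZ, hx, hcrit⟩ := h
  -- the class index
  let s : Setoid V := ⟨Sim M.Indep, ⟨Sim.refl _, Sim.symm, Sim.trans⟩⟩
  let h₁ : V → ℕ := fun v => (Finite.equivFin (Quotient s) (Quotient.mk s v) : ℕ)
  have hh₁ : ∀ v w, h₁ v = h₁ w ↔ Sim M.Indep v w := by
    intro v w
    constructor
    · intro h
      have := (Finite.equivFin (Quotient s)).injective (Fin.ext h)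
      exact Quotient.exact this
    · intro h
      have : Quotient.mk s v = Quotient.mk s w := Quotient.sound h
      simp only [h₁, this]
  let h₂ : V → ℕ := fun v => ({l | l ∈ A ∧ Sim M.Indep l v ∧ v ∉ XX M.Indep A l} : Set V).ncard +
    ({l | l ∈ Z ∧ Sim M.Indep l v ∧ v ∈ XX M.Indep Z l} : Set V).ncard
  have hA2 : ∀ l ∈ A, ∀ v w, Sim M.Indep v w → v ∈ XX M.Indep A l → w ∉ XX M.Indep A l →
      h₂ v < h₂ w := by
    intro l hl v w hvw hv hw
    have hlv : Sim M.Indep v l := hv.1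
    have e1 : ({l | l ∈ A ∧ Sim M.Indep l v ∧ v ∉ XX M.Indep A l} : Set V).ncard <
        ({l | l ∈ A ∧ Sim M.Indep l w ∧ w ∉ XX M.Indep A l} : Set V).ncard := by
      refine Set.ncard_lt_ncard ⟨?_, fun hsub => ?_⟩ (Set.toFinite _)
      · rintro l' ⟨hl', hs', hv'⟩
        refine ⟨hl', hs'.trans hvw, fun hw' => ?_⟩
        rcases hcA l hl l' hl' (hlv.symm.trans hs'.symm) with h1 | h1
        · exact hv' (h1 hv)
        · exact hw (h1 hw')
      · exact (hsub (show l ∈ _ from ⟨hl, hlv.symm.trans hvw, hw⟩)).2.2 hv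
    have e2 : ({l | l ∈ Z ∧ Sim M.Indep l v ∧ v ∈ XX M.Indep Z l} : Set V).ncard ≤
        ({l | l ∈ Z ∧ Sim M.Indep l w ∧ w ∈ XX M.Indep Z l} : Set V).ncard := by
      refine Set.ncard_le_ncard ?_ (Set.toFinite _)
      rintro l' ⟨hl', hs', hv'⟩
      refine ⟨hl', hs'.trans hvw, ?_⟩
      rcases hx l hl l' hl' (hlv.symm.trans hs'.symm) with h1 | h1
      · exact absurd hv' (h1 v hv)
      · rcases h1 w (hvw.symm.trans hlv) with h2 | h2
        · exact absurd h2 hw
        · exact h2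
    simp only [h₂]
    omega
  have hZ2 : ∀ l ∈ Z, ∀ v w, Sim M.Indep v w → v ∉ XX M.Indep Z l → w ∈ XX M.Indep Z l →
      h₂ v < h₂ w := by
    intro l hl v w hvw hv hw
    have hlw : Sim M.Indep w l := hw.1
    have e1 : ({l | l ∈ Z ∧ Sim M.Indep l v ∧ v ∈ XX M.Indep Z l} : Set V).ncard <
        ({l | l ∈ Z ∧ Sim M.Indep l w ∧ w ∈ XX M.Indep Z l} : Set V).ncard := by
      refine Set.ncard_lt_ncard ⟨?_, fun hsub => ?_⟩ (Set.toFinite _)
      · rintro l' ⟨hl', hs', hv'⟩
        refine ⟨hl', hs'.trans hvw, ?_⟩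
        rcases hcZ l hl l' hl' (hlw.symm.trans (hvw.symm.trans hs'.symm)) with h1 | h1
        · exact h1 hw
        · exact absurd (h1 hv') hv
      · exact hv (hsub (show l ∈ _ from ⟨hl, hlw.symm, hw⟩)).2.2
    have e2 : ({l | l ∈ A ∧ Sim M.Indep l v ∧ v ∉ XX M.Indep A l} : Set V).ncard ≤
        ({l | l ∈ A ∧ Sim M.Indep l w ∧ w ∉ XX M.Indep A l} : Set V).ncard := by
      refine Set.ncard_le_ncard ?_ (Set.toFinite _)
      rintro l' ⟨hl', hs', hv'⟩
      refine ⟨hl', hs'.trans hvw, fun hw' => ?_⟩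
      rcases hx l' hl' l hl ((hs'.trans hvw).trans hlw) with h1 | h1
      · exact h1 w hw' hw
      · rcases h1 v hs'.symm with h2 | h2
        · exact hv' h2
        · exact hv h2
    simp only [h₂]
    omega
  -- the key
  obtain ⟨e, hinj, hmono, hbd⟩ := exists_key
    (fun v : V => (toLex (h₁ v, toLex (h₂ v, (Finite.equivFin V v : ℕ))) : ℕ ×ₗ (ℕ ×ₗ ℕ)))
    (by
      intro v w h
      have h1 := congrArg ofLex h
      simp only [ofLex_toLex, Prod.mk.injEq] at h1
      have h2 := congrArg ofLex h1.2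
      simp only [ofLex_toLex, Prod.mk.injEq] at h2
      exact (Finite.equivFin V).injective (Fin.ext h2.2))
  have k1 : ∀ v w, h₁ v < h₁ w → e v < e w := by
    intro v w h
    apply hmono
    rw [Prod.Lex.lt_iff]
    exact Or.inl h
  have k2 : ∀ v w, h₁ v = h₁ w → h₂ v < h₂ w → e v < e w := by
    intro v w h h'
    apply hmono
    rw [Prod.Lex.lt_iff]
    refine Or.inr ⟨h, ?_⟩
    rw [Prod.Lex.lt_iff]
    exact Or.inl h'
  have hlow : ∀ D : Set V, (∀ v w, v ∈ D → w ∉ D → e v < e w) → Low e D := by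
    intro D hD v w hvw hw
    by_contra hv
    exact absurd (hD w v hw hv) (not_lt.mpr hvw)
  refine ⟨e, hinj, hbd, ?_⟩
  intro B hB x hxB y hyB hns
  have hcl1 : ∀ (P : ℕ → Prop), {v | P (h₁ v)} ⊆ M.closure (B ∩ {v | P (h₁ v)}) := by
    intro P
    apply closed_span hE _ hB
    intro v w hvw hv
    have : h₁ v = h₁ w := (hh₁ v w).2 hvw
    show P (h₁ w)
    rw [← this]; exact hv
  rcases lt_trichotomy (h₁ x) (h₁ y) with hxy | hxy | hxy
  · -- different classes, `x` first
    refine ⟨{v | h₁ v < h₁ y}, hlow _ ?_, Or.inr ⟨lt_irrefl (h₁ y), hxy, ?_⟩⟩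
    · intro v w hv hw
      exact k1 v w (lt_of_lt_of_le hv (not_lt.mp hw))
    · exact hcl1 (fun n => ¬ n < h₁ y)
  · -- same class
    have hs : Sim M.Indep x y := (hh₁ x y).1 hxy
    rcases hcrit B ((isB_iff M B).2 hB) x hxB y hyB hs (by rw [isB_iff]; exact hns) with
      ⟨l, hl, hyl, hxl, hsp⟩ | ⟨l, hl, hyl, hxl, hsp⟩
    · have hl1 : h₁ y = h₁ l := (hh₁ y l).2 hyl.1
      refine ⟨{v | h₁ v < h₁ l} ∪ XX M.Indep A l, hlow _ ?_, Or.inl ⟨Or.inr hyl, ?_, ?_⟩⟩
      · rintro v w hv hw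
        have hw1 : ¬ h₁ w < h₁ l := fun h' => hw (Or.inl h')
        have hw2 : w ∉ XX M.Indep A l := fun h' => hw (Or.inr h')
        rcases hv with hv | hv
        · exact k1 v w (lt_of_lt_of_le hv (not_lt.mp hw1))
        · have hvl : h₁ v = h₁ l := (hh₁ v l).2 hv.1
          rcases lt_or_eq_of_le (not_lt.mp hw1) with h3 | h3
          · exact k1 v w (by rw [hvl]; exact h3)
          · exact k2 v w (hvl.trans h3) (hA2 l hl v w ((hh₁ v w).1 (hvl.trans h3)) hv hw2)
      · rintro (h' | h')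
        · have : h₁ x < h₁ l := h'
          omega
        · exact hxl h'
      · rintro v (hv | hv)
        · refine M.closure_subset_closure ?_ (hcl1 (fun n => n < h₁ l) hv)
          exact fun w hw => ⟨hw.1, Or.inl hw.2⟩
        · refine M.closure_subset_closure ?_ (hsp.closure hE hB hv)
          exact fun w hw => ⟨hw.1, Or.inr hw.2⟩
    · have hl1 : h₁ y = h₁ l := (hh₁ y l).2 hyl.1
      refine ⟨({v | h₁ l < h₁ v} ∪ XX M.Indep Z l)ᶜ, hlow _ ?_, Or.inr ⟨?_, ?_, ?_⟩⟩
      · rintro v w hv hw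
        have hv1 : ¬ h₁ l < h₁ v := fun h' => hv (Or.inl h')
        have hv2 : v ∉ XX M.Indep Z l := fun h' => hv (Or.inr h')
        rw [Set.notMem_compl_iff] at hw
        rcases hw with hw | hw
        · exact k1 v w (lt_of_le_of_lt (not_lt.mp hv1) hw)
        · have hwl : h₁ w = h₁ l := (hh₁ w l).2 hw.1
          rcases lt_or_eq_of_le (not_lt.mp hv1) with h3 | h3
          · exact k1 v w (by rw [hwl]; exact h3)
          · exact k2 v w (h3.trans hwl.symm)
              (hZ2 l hl v w ((hh₁ v w).1 (h3.trans hwl.symm)) hv2 hw)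
      · rw [Set.notMem_compl_iff]; exact Or.inr hyl
      · rintro (h' | h')
        · have : h₁ l < h₁ x := h'
          omega
        · exact hxl h'
      · rw [compl_compl]
        rintro v (hv | hv)
        · refine M.closure_subset_closure ?_ (hcl1 (fun n => h₁ l < n) hv)
          exact fun w hw => ⟨hw.1, Or.inl hw.2⟩
        · refine M.closure_subset_closure ?_ (hsp.closure hE hB hv)
          exact fun w hw => ⟨hw.1, Or.inr hw.2⟩
  · -- different classes, `y` first
    refine ⟨{v | h₁ v < h₁ x}, hlow _ ?_, Or.inl ⟨hxy, lt_irrefl (h₁ x), ?_⟩⟩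
    · intro v w hv hw
      exact k1 v w (lt_of_lt_of_le hv (not_lt.mp hw))
    · exact hcl1 (fun n => n < h₁ x)

/-! ### from the exchange property to a lattice path presentation -/

lemma greedy (hE : M.E = univ) (F : ℕ → Set V) (hF : Monotone F) : ∀ k : ℕ,
    ∃ J, M.IsBasis J (F k) ∧ ∀ j ≤ k, M.IsBasis (J ∩ F j) (F j) := by
  intro k
  induction k with
  | zero =>
    obtain ⟨J, hJ⟩ := M.exists_isBasis (F 0) (by rw [hE]; exact subset_univ _)
    refine ⟨J, hJ, ?_⟩
    intro j hj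
    obtain rfl : j = 0 := Nat.le_zero.mp hj
    rwa [Set.inter_eq_left.mpr hJ.subset]
  | succ k ih =>
    obtain ⟨J, hJ, hJ'⟩ := ih
    obtain ⟨J', hJ1, hJ2⟩ := hJ.exists_isBasis_inter_eq_of_superset (hF (Nat.le_succ k))
      (by rw [hE]; exact subset_univ _)
    refine ⟨J', hJ1, ?_⟩
    intro j hj
    rcases Nat.lt_or_ge k j with h | h
    · obtain rfl : j = k + 1 := by omega
      rwa [Set.inter_eq_left.mpr hJ1.subset]
    · have : J' ∩ F j = J ∩ F j := by
        rw [← hJ2, Set.inter_assoc, Set.inter_eq_right.mpr (hF h)]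
      rw [this]
      exact hJ' j h

lemma basis_ncard {I J X : Set V} (hI : M.IsBasis I X) (hJ : M.Indep J) (hJX : J ⊆ X) :
    J.ncard ≤ I.ncard := by
  have h1 := hJ.encard_le_eRk_of_subset hJX
  rw [← hI.encard_eq_eRk, ← (Set.toFinite J).cast_ncard_eq, ← (Set.toFinite I).cast_ncard_eq] at h1
  exact_mod_cast h1

theorem lp_of_star (hE : M.E = univ) {e : V → ℤ} (hinj : Function.Injective e)
    (hbd : ∀ v, 0 ≤ e v ∧ e v < Nat.card V) (hstar : Star M e) : ∃ A Z, LP M e A Z := by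
  set n : ℕ := Nat.card V with hn
  obtain ⟨A, hA, hA'⟩ := greedy hE (fun k : ℕ => {v | e v < k})
    (by intro a b hab v hv
        have h1 : e v < a := hv
        have h2 : (a : ℤ) ≤ b := by exact_mod_cast hab
        exact lt_of_lt_of_le h1 h2) n
  obtain ⟨Z, hZ, hZ'⟩ := greedy hE (fun k : ℕ => {v | (n : ℤ) - k ≤ e v})
    (by intro a b hab v hv
        have h1 : (n : ℤ) - a ≤ e v := hv
        have h2 : (a : ℤ) ≤ b := by exact_mod_cast hab
        show (n : ℤ) - b ≤ e v
        omega) n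
  have hu1 : ({v | e v < (n : ℤ)} : Set V) = univ := by
    ext v; exact ⟨fun _ => mem_univ v, fun _ => (hbd v).2⟩
  have hu2 : ({v | (n : ℤ) - (n : ℤ) ≤ e v} : Set V) = univ := by
    ext v
    refine ⟨fun _ => mem_univ v, fun _ => ?_⟩
    show (n : ℤ) - (n : ℤ) ≤ e v
    rw [sub_self]; exact (hbd v).1
  have hAb : M.IsBase A := by
    rw [← isBasis_ground_iff, hE]
    have := hA
    simp only [hu1] at this
    exact this
  have hZb : M.IsBase Z := by
    rw [← isBasis_ground_iff, hE]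
    have := hZ
    simp only [hu2] at this
    exact this
  -- every down-closed set is a threshold set
  have hthr : ∀ D, Low e D → ∃ k : ℕ, k ≤ n ∧ D = {v | e v < k} := by
    intro D hD
    by_cases hne : (Dᶜ : Set V).Nonempty
    · obtain ⟨v₀, hv₀, hmin⟩ := Set.exists_min_image Dᶜ e (Set.toFinite _) hne
      refine ⟨(e v₀).toNat, ?_, ?_⟩
      · have := hbd v₀; omega
      · have h0 : ((e v₀).toNat : ℤ) = e v₀ := Int.toNat_of_nonneg (hbd v₀).1
        rw [h0]
        ext v
        constructor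
        · intro hv
          by_contra hlt
          exact hv₀ (hD v₀ v (not_lt.mp hlt) hv)
        · intro hv
          by_contra hvD
          exact absurd (hmin v hvD) (not_le.mpr hv)
    · rw [Set.not_nonempty_iff_eq_empty, Set.compl_empty_iff] at hne
      exact ⟨n, le_refl _, by rw [hne, hu1]⟩
  have hAD : ∀ D, Low e D → M.IsBasis (A ∩ D) D := by
    intro D hD
    obtain ⟨k, hk, rfl⟩ := hthr D hD
    exact hA' k hk
  have hZD : ∀ D, Low e D → M.IsBasis (Z ∩ Dᶜ) Dᶜ := by
    intro D hD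
    obtain ⟨k, hk, rfl⟩ := hthr D hD
    have h1 := hZ' (n - k) (Nat.sub_le _ _)
    have h2 : ({v | (n : ℤ) - ((n - k : ℕ) : ℤ) ≤ e v} : Set V) = ({v | e v < (k : ℤ)} : Set V)ᶜ := by
      ext v
      constructor
      · intro hv hv'
        have h3 : (n : ℤ) - ((n - k : ℕ) : ℤ) ≤ e v := hv
        have h4 : e v < k := hv'
        omega
      · intro hv
        have h4 : ¬ e v < k := hv
        show (n : ℤ) - ((n - k : ℕ) : ℤ) ≤ e v
        omega
    simp only [h2] at h1
    exact h1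
  have hcard : ∀ B, M.IsBase B → B.ncard = A.ncard := by
    intro B hB
    exact hB.ncard_eq_ncard_of_isBase hAb
  have hle : ∀ B, M.IsBase B → ∀ D, Low e D → (B ∩ D).ncard ≤ (A ∩ D).ncard := by
    intro B hB D hD
    exact basis_ncard (hAD D hD) (hB.indep.subset inter_subset_left) inter_subset_right
  have hge' : ∀ B, M.IsBase B → ∀ D, Low e D → (B ∩ Dᶜ).ncard ≤ (Z ∩ Dᶜ).ncard := by
    intro B hB D hD
    exact basis_ncard (hZD D hD) (hB.indep.subset inter_subset_left) inter_subset_right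
  have hge : ∀ B, M.IsBase B → ∀ D, Low e D → (Z ∩ D).ncard ≤ (B ∩ D).ncard := by
    intro B hB D hD
    have h1 := hge' B hB D hD
    have h2 := count_compl B D
    have h3 := count_compl Z D
    have h4 := hcard B hB
    have h5 := hcard Z hZb
    omega
  refine ⟨A, Z, hinj, ?_, hAb, hZb⟩
  intro B
  refine ⟨fun hB => ⟨hcard B hB, fun D hD => ⟨hge B hB D hD, hle B hB D hD⟩⟩, ?_⟩
  rintro ⟨hBc, hBD⟩
  obtain ⟨B', hB', hmin⟩ := Set.exists_min_image {B' : Set V | M.IsBase B'}
    (fun B' => (B' \ B).ncard) (Set.toFinite _) ⟨A, hAb⟩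
  have hB'b : M.IsBase B' := hB'
  by_cases hemp : B' \ B = ∅
  · have hsub : B' ⊆ B := Set.sdiff_eq_empty.mp hemp
    have := Set.eq_of_subset_of_ncard_le hsub (by rw [hBc, hcard B' hB'b]) (Set.toFinite _)
    rw [← this]; exact hB'b
  exfalso
  have hne1 : (B' \ B).Nonempty := Set.nonempty_iff_ne_empty.mpr hemp
  have hne2 : (B \ B').Nonempty := by
    rw [Set.nonempty_iff_ne_empty]
    intro h'
    have hsub : B ⊆ B' := Set.sdiff_eq_empty.mp h'
    have := Set.eq_of_subset_of_ncard_le hsub (by rw [hBc, hcard B' hB'b]) (Set.toFinite _)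
    rw [this] at hemp
    simp at hemp
  obtain ⟨x, hx, hxmin⟩ := Set.exists_min_image (B' \ B) e (Set.toFinite _) hne1
  obtain ⟨y, hy, hymin⟩ := Set.exists_min_image (B \ B') e (Set.toFinite _) hne2
  have hns : ¬ M.IsBase (swap B' x y) := by
    intro hb
    have h1 := hmin (swap B' x y) hb
    have h2 : (swap B' x y \ B).ncard < (B' \ B).ncard := by
      refine Set.ncard_lt_ncard ⟨?_, fun hsub => ?_⟩ (Set.toFinite _)
      · rintro v ⟨hv | hv, hvB⟩
        · subst hv; exact absurd hy.1 hvB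
        · exact ⟨hv.1, hvB⟩
      · rcases (hsub hx).1 with h3 | h3
        · subst h3; exact hx.2 hy.1
        · exact h3.2 rfl
    omega
  obtain ⟨D, hD, ⟨hyD, hxD, hcl⟩ | ⟨hyD, hxD, hcl⟩⟩ := hstar B' hB'b x hx.1 y hy.2 hns
  · have hbas : M.IsBasis (B' ∩ D) D :=
      (hB'b.indep.subset inter_subset_left).isBasis_of_subset_of_subset_closure
        inter_subset_right hcl
    have h1 : (A ∩ D).ncard ≤ (B' ∩ D).ncard :=
      basis_ncard hbas (hAb.indep.subset inter_subset_left) inter_subset_right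
    have h2 : (B' ∩ D).ncard < (B ∩ D).ncard := by
      refine Set.ncard_lt_ncard ⟨?_, fun hsub => ?_⟩ (Set.toFinite _)
      · rintro v ⟨hv, hvD⟩
        refine ⟨?_, hvD⟩
        by_contra hvB
        exact hxD (hD x v (hxmin v ⟨hv, hvB⟩) hvD)
      · exact hy.2 (hsub ⟨hy.1, hyD⟩).1
    have h3 := (hBD D hD).2
    omega
  · have hbas : M.IsBasis (B' ∩ Dᶜ) Dᶜ :=
      (hB'b.indep.subset inter_subset_left).isBasis_of_subset_of_subset_closure
        inter_subset_right hcl
    have h1 : (Z ∩ Dᶜ).ncard ≤ (B' ∩ Dᶜ).ncard :=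
      basis_ncard hbas (hZb.indep.subset inter_subset_left) inter_subset_right
    have h2 : (B ∩ D).ncard < (B' ∩ D).ncard := by
      refine Set.ncard_lt_ncard ⟨?_, fun hsub => ?_⟩ (Set.toFinite _)
      · rintro v ⟨hv, hvD⟩
        refine ⟨?_, hvD⟩
        by_contra hvB
        exact hyD (hD y v (hymin v ⟨hv, hvB⟩) hvD)
      · exact hx.2 (hsub ⟨hx.1, hxD⟩).1
    have h3 := (hBD D hD).1
    have h4 := count_compl B D
    have h5 := count_compl B' D
    have h6 := count_compl Z D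
    have h7 := hcard B' hB'b
    have h8 := hcard Z hZb
    omega

end Pool.Agent.N357.LPM
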