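import Pool.Agent.N357.MSFormula
import Pool.Agent.N357.LPMComplete
import Pool.Agent.N357.LPMSound

set_option linter.unusedSectionVars false

open Set Matroid

namespace Pool.Agent.N357.MS

universe u

open Pool.Agent.N357.LPM

section

variable {V : Type u} {m r : ℕ}

/-- the path with North steps at the positions of the elements of `S` -/
noncomputable def mkPath (E : V ≃ Fin (m + r)) (S : Set V) (hS : S.ncard = r) :
    LatticePath m r := by
  classical
  exact
  { step := fun i => decide (E.symm i ∈ S)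
    north := by
      have : {i : Fin (m + r) | decide (E.symm i ∈ S) = true} = E '' S := by
        ext i
        simp only [decide_eq_true_eq, mem_ofPred_eq, mem_image]
        constructor
        · intro h
          exact ⟨_, h, E.apply_symm_apply i⟩
        · rintro ⟨v, hv, rfl⟩
          rwa [E.symm_apply_apply]
      rw [this, Set.ncard_image_of_injective _ E.injective, hS] }

lemma mkPath_step (E : V ≃ Fin (m + r)) (S : Set V) (hS : S.ncard = r) (i : Fin (m + r)) :
    (mkPath E S hS).step i = true ↔ E.symm i ∈ S := by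
  simp [mkPath]

lemma mkPath_north (E : V ≃ Fin (m + r)) (S : Set V) (hS : S.ncard = r) :
    (mkPath E S hS).northSet = E '' S := by
  ext i
  show (mkPath E S hS).step i = true ↔ _
  rw [mkPath_step]
  constructor
  · intro h
    exact ⟨_, h, E.apply_symm_apply i⟩
  · rintro ⟨v, hv, rfl⟩
    rwa [E.symm_apply_apply]

lemma height_eq (E : V ≃ Fin (m + r)) (S : Set V) (R : LatticePath m r)
    (hR : E '' S = R.northSet) (k : ℕ) :
    R.height k = (S ∩ {v | ((E v : ℕ) : ℤ) < (k : ℤ)}).ncard := by
  have : {j : Fin (m + r) | (j : ℕ) < k ∧ R.step j = true} =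
      E '' (S ∩ {v | ((E v : ℕ) : ℤ) < (k : ℤ)}) := by
    ext j
    constructor
    · rintro ⟨h1, h2⟩
      have h3 : j ∈ R.northSet := h2
      rw [← hR] at h3
      obtain ⟨v, hv, rfl⟩ := h3
      refine ⟨v, ⟨hv, ?_⟩, rfl⟩
      show ((E v : ℕ) : ℤ) < (k : ℤ)
      exact_mod_cast h1
    · rintro ⟨v, ⟨hv, hvk⟩, rfl⟩
      have h1 : ((E v : ℕ) : ℤ) < (k : ℤ) := hvk
      refine ⟨by exact_mod_cast h1, ?_⟩
      have h3 : E v ∈ R.northSet := by
        rw [← hR]; exact ⟨v, hv, rfl⟩
      exact h3
  rw [LatticePath.height, this, Set.ncard_image_of_injective _ E.injective]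

lemma low_thr (E : V ≃ Fin (m + r)) (D : Set V)
    (hD : Low (fun v => ((E v : ℕ) : ℤ)) D) :
    ∃ k : ℕ, k ≤ m + r ∧ D = {v | ((E v : ℕ) : ℤ) < (k : ℤ)} := by
  have : Finite V := Finite.of_equiv _ E.symm
  by_cases hne : (Dᶜ : Set V).Nonempty
  · obtain ⟨v₀, hv₀, hmin⟩ := Set.exists_min_image Dᶜ (fun v => ((E v : ℕ) : ℤ))
      (Set.toFinite _) hne
    refine ⟨(E v₀ : ℕ), (E v₀).2.le, ?_⟩
    ext v
    constructor
    · intro hv
      by_contra hlt
      exact hv₀ (hD v₀ v (not_lt.mp hlt) hv)
    · intro hv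
      by_contra hvD
      exact absurd (hmin v hvD) (not_le.mpr hv)
  · rw [Set.not_nonempty_iff_eq_empty, Set.compl_empty_iff] at hne
    refine ⟨m + r, le_refl _, ?_⟩
    rw [hne]
    ext v
    refine ⟨fun _ => ?_, fun _ => mem_univ v⟩
    show ((E v : ℕ) : ℤ) < ((m + r : ℕ) : ℤ)
    exact_mod_cast (E v).2

lemma below_iff (E : V ≃ Fin (m + r)) (S T : Set V) (R R' : LatticePath m r)
    (hR : E '' S = R.northSet) (hR' : E '' T = R'.northSet) :
    R.Below R' ↔ ∀ D, Low (fun v => ((E v : ℕ) : ℤ)) D → (S ∩ D).ncard ≤ (T ∩ D).ncard := by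
  constructor
  · intro h D hD
    obtain ⟨k, hk, rfl⟩ := low_thr E D hD
    rw [← height_eq E S R hR, ← height_eq E T R' hR']
    exact h k hk
  · intro h k _
    rw [height_eq E S R hR, height_eq E T R' hR']
    exact h _ (low_lt (fun v => ((E v : ℕ) : ℤ)) (k : ℤ))

lemma preimage_ncard (E : V ≃ Fin (m + r)) (R : LatticePath m r) :
    (E ⁻¹' R.northSet).ncard = r := by
  rw [← Set.ncard_image_of_injective _ E.injective, Set.image_preimage_eq _ E.surjective]
  exact R.north

end

theorem lp_iff {V : Type u} [Finite V] (N : Matroid V) (hE : N.E = univ) :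
    (∃ e : V → ℤ, Function.Injective e ∧ (∀ v, 0 ≤ e v ∧ e v < Nat.card V) ∧
      ∃ A Z, LP N e A Z) ↔
    ∃ (m r : ℕ) (P Q : LatticePath m r), P.Below Q ∧ ∃ E : V ≃ Fin (m + r), ∀ B : Set V,
      N.IsBase B ↔ ∃ R : LatticePath m r, P.Below R ∧ R.Below Q ∧ E '' B = R.northSet := by
  constructor
  · rintro ⟨e, hinj, hbd, A, Z, h⟩
    obtain ⟨m, r, hmr, hr⟩ : ∃ m r : ℕ, m + r = Nat.card V ∧ A.ncard = r := by
      refine ⟨Nat.card V - A.ncard, A.ncard, ?_, rfl⟩
      have : A.ncard ≤ (univ : Set V).ncard := Set.ncard_le_ncard (subset_univ _) (Set.toFinite _)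
      rw [Set.ncard_univ] at this
      omega
    have hb : ∀ v, (e v).toNat < m + r := by
      intro v
      have := hbd v
      omega
    let f : V → Fin (m + r) := fun v => ⟨(e v).toNat, hb v⟩
    have hf : Function.Injective f := by
      intro v w hvw
      have h1 : (e v).toNat = (e w).toNat := congrArg Fin.val hvw
      have h2 := hbd v
      have h3 := hbd w
      apply hinj
      omega
    have hbij : Function.Bijective f := by
      rw [Nat.bijective_iff_injective_and_card]
      refine ⟨hf, ?_⟩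
      rw [Nat.card_eq_fintype_card (α := Fin (m + r)), Fintype.card_fin, hmr]
    let E : V ≃ Fin (m + r) := Equiv.ofBijective f hbij
    have hEe : e = fun v => ((E v : ℕ) : ℤ) := by
      funext v
      show e v = (((e v).toNat : ℕ) : ℤ)
      exact (Int.toNat_of_nonneg (hbd v).1).symm
    rw [hEe] at h
    have hZr : Z.ncard = r := (h.card h.baseZ).trans hr
    refine ⟨m, r, mkPath E Z hZr, mkPath E A hr, ?_, E, ?_⟩
    · rw [below_iff E Z A _ _ (mkPath_north E Z hZr).symm (mkPath_north E A hr).symm]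
      exact fun D hD => h.le h.baseZ hD
    · intro B
      constructor
      · intro hB
        have hBr : B.ncard = r := (h.card hB).trans hr
        refine ⟨mkPath E B hBr, ?_, ?_, (mkPath_north E B hBr).symm⟩
        · rw [below_iff E Z B _ _ (mkPath_north E Z hZr).symm (mkPath_north E B hBr).symm]
          exact fun D hD => h.ge hB hD
        · rw [below_iff E B A _ _ (mkPath_north E B hBr).symm (mkPath_north E A hr).symm]
          exact fun D hD => h.le hB hD
      · rintro ⟨R, h1, h2, h3⟩
        rw [below_iff E Z B _ _ (mkPath_north E Z hZr).symm h3] at h1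
        rw [below_iff E B A _ _ h3 (mkPath_north E A hr).symm] at h2
        rw [h.base_iff]
        refine ⟨?_, fun D hD => ⟨h1 D hD, h2 D hD⟩⟩
        have h4 := congrArg Set.ncard h3
        rw [Set.ncard_image_of_injective _ E.injective] at h4
        rw [h4, hr]
        exact R.north
  · rintro ⟨m, r, P, Q, hPQ, E, hB⟩
    refine ⟨fun v => ((E v : ℕ) : ℤ), ?_, ?_, E ⁻¹' Q.northSet, E ⁻¹' P.northSet, ?_, ?_, ?_, ?_⟩
    · intro v w h
      have h1 : ((E v : ℕ) : ℤ) = ((E w : ℕ) : ℤ) := h
      exact E.injective (Fin.ext (by exact_mod_cast h1))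
    · intro v
      refine ⟨by positivity, ?_⟩
      have h1 : Nat.card V = m + r := by
        rw [Nat.card_congr E, Nat.card_eq_fintype_card, Fintype.card_fin]
      rw [h1]
      show ((E v : ℕ) : ℤ) < ((m + r : ℕ) : ℤ)
      exact_mod_cast (E v).2
    · intro v w h
      have h1 : ((E v : ℕ) : ℤ) = ((E w : ℕ) : ℤ) := h
      exact E.injective (Fin.ext (by exact_mod_cast h1))
    · intro B
      have hQ : E '' (E ⁻¹' Q.northSet) = Q.northSet := Set.image_preimage_eq _ E.surjective
      have hP : E '' (E ⁻¹' P.northSet) = P.northSet := Set.image_preimage_eq _ E.surjective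
      rw [hB]
      constructor
      · rintro ⟨R, h1, h2, h3⟩
        rw [below_iff E _ B _ _ hP h3] at h1
        rw [below_iff E B _ _ _ h3 hQ] at h2
        refine ⟨?_, fun D hD => ⟨h1 D hD, h2 D hD⟩⟩
        rw [preimage_ncard E Q]
        have h4 := congrArg Set.ncard h3
        rw [Set.ncard_image_of_injective _ E.injective] at h4
        rw [h4]
        exact R.north
      · rintro ⟨h1, h2⟩
        rw [preimage_ncard E Q] at h1
        refine ⟨mkPath E B h1, ?_, ?_, (mkPath_north E B h1).symm⟩
        · rw [below_iff E _ B _ _ hP (mkPath_north E B h1).symm]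
          exact fun D hD => (h2 D hD).1
        · rw [below_iff E B _ _ _ (mkPath_north E B h1).symm hQ]
          exact fun D hD => (h2 D hD).2
    · rw [hB]
      exact ⟨Q, hPQ, fun i _ => le_refl _, Set.image_preimage_eq _ E.surjective⟩
    · rw [hB]
      exact ⟨P, fun i _ => le_refl _, hPQ, Set.image_preimage_eq _ E.surjective⟩

theorem phi_iff {V : Type u} [Finite V] (N : Matroid V) (hE : N.E = univ) :
    Phi N.Indep ↔
    ∃ (m r : ℕ) (P Q : LatticePath m r), P.Below Q ∧ ∃ E : V ≃ Fin (m + r), ∀ B : Set V,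
      N.IsBase B ↔ ∃ R : LatticePath m r, P.Below R ∧ R.Below Q ∧ E '' B = R.northSet := by
  rw [← lp_iff N hE]
  constructor
  · intro h
    obtain ⟨e, hinj, hbd, hstar⟩ := exists_star hE h
    exact ⟨e, hinj, hbd, lp_of_star hE hinj hbd hstar⟩
  · rintro ⟨e, _, _, A, Z, h⟩
    exact h.phi hE

theorem main {α : Type u} (M : Matroid α) (hM : M.Finite) :
    Models M Formula.lpm ↔ IsLatticePathMatroid M := by
  have : Finite M.E := hM.ground_finite.to_subtype
  have hE : (M.restrictSubtype M.E).E = univ := Matroid.restrictSubtype_ground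
  have h1 : (fun X : Set M.E => M.Indep (Subtype.val '' X)) = (M.restrictSubtype M.E).Indep := by
    funext X
    rw [Matroid.restrictSubtype_indep_iff]
  have h2 : ∀ B : Set M.E, (M.restrictSubtype M.E).IsBase B ↔ M.IsBase (Subtype.val '' B) := by
    intro B
    rw [← isB_iff, ← isB_iff, ← h1]
    constructor
    · rintro ⟨h3, h4⟩
      refine ⟨h3, ?_⟩
      intro S hS hBS
      have h5 : S = Subtype.val '' (Subtype.val ⁻¹' S : Set M.E) := by
        rw [Subtype.image_preimage_coe, Set.inter_eq_right.mpr hS.subset_ground]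
      rw [h5] at hS ⊢
      apply Set.image_mono
      apply h4 _ hS
      intro x hx
      exact hBS ⟨x, hx, rfl⟩
    · rintro ⟨h3, h4⟩
      refine ⟨h3, ?_⟩
      intro S hS hBS
      have h5 := h4 _ hS (Set.image_mono hBS)
      intro x hx
      obtain ⟨y, hy, hyx⟩ := h5 ⟨x, hx, rfl⟩
      rwa [← Subtype.val_injective hyx]
  rw [Models, sat_lpm, h1, phi_iff _ hE, IsLatticePathMatroid]
  simp only [h2]

end Pool.Agent.N357.MS
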