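import Mathlib

/-!
# The monadic second-order logic `MS₀` of matroids and lattice path matroids
-/

namespace Pool.Agent.N357.MS

universe u

/-- Formulas of the logic `MS₀` whose free variables are among `n` set variables, which are numbered
by `Fin n`. The atomic formulas are `Ind(X)` and `X ⊆ Y`; formulas are closed under `¬`, `∧`, `∨`,
`→` and under `∃ X` and `∀ X`. In `ex φ` and `all φ` the quantified variable is the variable `0`
of `φ`, and the variable `i.succ` of `φ` is the variable `i` of `ex φ`, `all φ`. -/
inductive Formula : ℕ → Type
  /-- `Ind(X)` -/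
  | ind {n : ℕ} (x : Fin n) : Formula n
  /-- `X ⊆ Y` -/
  | sub {n : ℕ} (x y : Fin n) : Formula n
  /-- negation -/
  | neg {n : ℕ} (φ : Formula n) : Formula n
  /-- conjunction -/
  | and {n : ℕ} (φ ψ : Formula n) : Formula n
  /-- disjunction -/
  | or {n : ℕ} (φ ψ : Formula n) : Formula n
  /-- implication -/
  | imp {n : ℕ} (φ ψ : Formula n) : Formula n
  /-- `∃ X` -/
  | ex {n : ℕ} (φ : Formula (n + 1)) : Formula n
  /-- `∀ X` -/
  | all {n : ℕ} (φ : Formula (n + 1)) : Formula n

/-- A sentence is a formula without free variables. -/
abbrev Sentence : Type := Formula 0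

/-- Satisfaction of a formula on a ground set `V` with the family `Ind` of independent sets, under
the valuation `v` of the free variables by subsets of `V`. -/
def Sat {V : Type u} (Ind : Set V → Prop) : {n : ℕ} → (Fin n → Set V) → Formula n → Prop
  | _, v, .ind x => Ind (v x)
  | _, v, .sub x y => v x ⊆ v y
  | _, v, .neg φ => ¬ Sat Ind v φ
  | _, v, .and φ ψ => Sat Ind v φ ∧ Sat Ind v ψ
  | _, v, .or φ ψ => Sat Ind v φ ∨ Sat Ind v ψ
  | _, v, .imp φ ψ => Sat Ind v φ → Sat Ind v ψ
  | _, v, .ex φ => ∃ X : Set V, Sat Ind (Fin.cons X v) φ
  | _, v, .all φ => ∀ X : Set V, Sat Ind (Fin.cons X v) φ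

/-- `M ⊨ φ`: the sentence `φ` holds in the matroid `M`. The variables range over the subsets of the
ground set `M.E`, and `Ind(X)` says that `X` is independent in `M`. -/
def Models {α : Type u} (M : Matroid α) (φ : Sentence) : Prop :=
  Sat (V := M.E) (fun X : Set M.E => M.Indep (Subtype.val '' X)) Fin.elim0 φ

/-- A lattice path from `(0,0)` to `(m,r)`: a sequence of `m + r` unit steps, each North (`true`)
or East (`false`), of which exactly `r` are North (and hence `m` are East). -/
structure LatticePath (m r : ℕ) where
  /-- the steps -/
  step : Fin (m + r) → Bool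
  /-- exactly `r` steps are North -/
  north : {i : Fin (m + r) | step i = true}.ncard = r

namespace LatticePath

variable {m r : ℕ}

/-- The set `B(R)` of the indices of the North steps of the path `R`. -/
def northSet (R : LatticePath m r) : Set (Fin (m + r)) := {i | R.step i = true}

/-- The second coordinate of the point that `R` reaches after its first `i` steps, that is, the
number of North steps among them. -/
noncomputable def height (R : LatticePath m r) (i : ℕ) : ℕ :=
  {j : Fin (m + r) | (j : ℕ) < i ∧ R.step j = true}.ncard

/-- `R` never goes above `S`: after each number `i` of steps (when both paths are on the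
antidiagonal `x + y = i`) the point of `R` is not higher than the point of `S`. -/
def Below (R S : LatticePath m r) : Prop := ∀ i, i ≤ m + r → R.height i ≤ S.height i

end LatticePath

/-- `M` is a lattice path matroid: it is isomorphic, by some bijection `e`, to a matroid `M[P,Q]`
on the `m + r` indices of steps, whose bases are the sets `B(R)` for the lattice paths `R` from
`(0,0)` to `(m,r)` in the region between `P` and `Q`, where `P` never goes above `Q`. -/
def IsLatticePathMatroid {α : Type u} (M : Matroid α) : Prop :=
  ∃ (m r : ℕ) (P Q : LatticePath m r), P.Below Q ∧ ∃ e : M.E ≃ Fin (m + r), ∀ B : Set M.E,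
    M.IsBase (Subtype.val '' B) ↔
      ∃ R : LatticePath m r, P.Below R ∧ R.Below Q ∧ e '' B = R.northSet

end Pool.Agent.N357.MS
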