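import Pool.Agent.N357.MSDefs
import Pool.Agent.N357.LPMCore

open Set

namespace Pool.Agent.N357.MS

universe u

open Pool.Agent.N357.LPM

namespace Formula

variable {n : ℕ}

/-- bi-implication -/
def iff' (φ ψ : Formula n) : Formula n := and (imp φ ψ) (imp ψ φ)

/-- `X` is a singleton -/
def sing (x : Fin n) : Formula n :=
  and (neg (all (sub x.succ 0)))
    (all (imp (sub 0 x.succ) (or (sub x.succ 0) (all (sub (Fin.succ 0) 0)))))

/-- quantification over elements -/
def exE (φ : Formula (n + 1)) : Formula n := ex (and (sing 0) φ)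
/-- quantification over elements -/
def allE (φ : Formula (n + 1)) : Formula n := all (imp (sing 0) φ)

/-- `X` is a maximal independent set -/
def base (x : Fin n) : Formula n :=
  and (ind x) (all (imp (ind 0) (imp (sub x.succ 0) (sub 0 x.succ))))

/-- `(A - l) ∪ g` is a maximal independent set -/
def swapBase (A l g : Fin n) : Formula n :=
  ex (and (base 0) (allE (iff' (sub 0 (Fin.succ 0))
    (or (sub 0 g.succ.succ) (and (sub 0 A.succ.succ) (neg (sub 0 l.succ.succ)))))))

/-- `S` is a separator -/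
def sep (S : Fin n) : Formula n :=
  all (all (all (imp (ind (Fin.succ (Fin.succ 0))) (imp (sub (Fin.succ (Fin.succ 0)) S.succ.succ.succ)
    (imp (ind (Fin.succ 0))
      (imp (allE (imp (sub 0 (Fin.succ (Fin.succ 0))) (neg (sub 0 S.succ.succ.succ.succ))))
        (imp (allE (imp (sub 0 (Fin.succ 0))
            (or (sub 0 (Fin.succ (Fin.succ (Fin.succ 0)))) (sub 0 (Fin.succ (Fin.succ 0))))))
          (ind 0))))))))

/-- the elements `x`, `y` lie in the same separators -/
def sim (x y : Fin n) : Formula n := all (imp (sep 0) (iff' (sub x.succ 0) (sub y.succ 0)))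

/-- `f ∈ XX A l` -/
def memX (A l f : Fin n) : Formula n :=
  and (sim f l) (exE (and (neg (sub 0 A.succ)) (and (sim 0 l.succ)
    (and (neg (swapBase A.succ l.succ 0))
      (or (sub f.succ 0) (and (sub f.succ A.succ) (swapBase A.succ f.succ 0)))))))

/-- the chain condition for one base -/
def chainF (A : Fin n) : Formula n :=
  allE (imp (sub 0 A.succ) (allE (imp (sub 0 A.succ.succ) (imp (sim (Fin.succ 0) 0)
    (or
      (allE (imp (memX A.succ.succ.succ (Fin.succ (Fin.succ 0)) 0)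
        (memX A.succ.succ.succ (Fin.succ 0) 0)))
      (allE (imp (memX A.succ.succ.succ (Fin.succ 0) 0)
        (memX A.succ.succ.succ (Fin.succ (Fin.succ 0)) 0))))))))

/-- the mixed chain condition -/
def crossF (A Z : Fin n) : Formula n :=
  allE (imp (sub 0 A.succ) (allE (imp (sub 0 Z.succ.succ) (imp (sim (Fin.succ 0) 0)
    (or
      (allE (imp (memX A.succ.succ.succ (Fin.succ (Fin.succ 0)) 0)
        (neg (memX Z.succ.succ.succ (Fin.succ 0) 0))))
      (allE (imp (sim 0 (Fin.succ (Fin.succ 0)))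
        (or (memX A.succ.succ.succ (Fin.succ (Fin.succ 0)) 0)
          (memX Z.succ.succ.succ (Fin.succ 0) 0)))))))))

/-- `B ∩ XX A l` spans `XX A l` -/
def spansX (B A l : Fin n) : Formula n :=
  all (imp (ind 0) (imp (allE (imp (sub 0 (Fin.succ 0)) (memX A.succ.succ l.succ.succ 0)))
    (imp (allE (imp (sub 0 B.succ.succ) (imp (memX A.succ.succ l.succ.succ 0)
      (sub 0 (Fin.succ 0))))) (sub 0 B.succ))))

/-- one alternative of the exchange criterion -/
def altF (A B x y : Fin n) : Formula n :=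
  exE (and (sub 0 A.succ) (and (memX A.succ 0 y.succ) (and (neg (memX A.succ 0 x.succ))
    (spansX B.succ A.succ 0))))

/-- the exchange criterion -/
def critF (A Z : Fin n) : Formula n :=
  all (imp (base 0) (allE (imp (sub 0 (Fin.succ 0)) (allE (imp (neg (sub 0 (Fin.succ (Fin.succ 0))))
    (imp (sim (Fin.succ 0) 0) (imp (neg (swapBase (Fin.succ (Fin.succ 0)) (Fin.succ 0) 0))
      (or (altF A.succ.succ.succ (Fin.succ (Fin.succ 0)) (Fin.succ 0) 0)
        (altF Z.succ.succ.succ (Fin.succ (Fin.succ 0)) (Fin.succ 0) 0)))))))))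

/-- the sentence that characterises lattice path matroids -/
def lpm : Formula 0 :=
  ex (ex (and (base (Fin.succ 0)) (and (base 0) (and (chainF (Fin.succ 0)) (and (chainF 0)
    (and (crossF (Fin.succ 0) 0) (critF (Fin.succ 0) 0)))))))

end Formula

open Formula

variable {V : Type u} {Ind : Set V → Prop} {n : ℕ} {v : Fin n → Set V}

@[simp] lemma sat_ind (x : Fin n) : Sat Ind v (ind x) ↔ Ind (v x) := Iff.rfl
@[simp] lemma sat_sub (x y : Fin n) : Sat Ind v (sub x y) ↔ v x ⊆ v y := Iff.rfl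
@[simp] lemma sat_neg (φ : Formula n) : Sat Ind v (neg φ) ↔ ¬ Sat Ind v φ := Iff.rfl
@[simp] lemma sat_and (φ ψ : Formula n) : Sat Ind v (and φ ψ) ↔ (Sat Ind v φ ∧ Sat Ind v ψ) :=
  Iff.rfl
@[simp] lemma sat_or (φ ψ : Formula n) : Sat Ind v (Formula.or φ ψ) ↔
  (Sat Ind v φ ∨ Sat Ind v ψ) := Iff.rfl
@[simp] lemma sat_imp (φ ψ : Formula n) : Sat Ind v (imp φ ψ) ↔ (Sat Ind v φ → Sat Ind v ψ) :=
  Iff.rfl
@[simp] lemma sat_ex (φ : Formula (n + 1)) : Sat Ind v (ex φ) ↔
  ∃ X : Set V, Sat Ind (Fin.cons X v) φ := Iff.rfl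
@[simp] lemma sat_all (φ : Formula (n + 1)) : Sat Ind v (all φ) ↔
  ∀ X : Set V, Sat Ind (Fin.cons X v) φ := Iff.rfl

@[simp] lemma cons0 (X : Set V) (v : Fin n → Set V) :
    (Fin.cons X v : Fin (n + 1) → Set V) 0 = X := rfl
@[simp] lemma consS (X : Set V) (v : Fin n → Set V) (x : Fin n) :
    (Fin.cons X v : Fin (n + 1) → Set V) x.succ = v x := rfl

@[simp] lemma sat_iff (φ ψ : Formula n) : Sat Ind v (iff' φ ψ) ↔ (Sat Ind v φ ↔ Sat Ind v ψ) := by
  simp only [iff', sat_and, sat_imp]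
  exact iff_iff_implies_and_implies.symm

@[simp] lemma sat_sing (x : Fin n) : Sat Ind v (sing x) ↔ ∃ a, v x = {a} := by
  simp only [sing, sat_and, sat_neg, sat_all, sat_sub, sat_imp, sat_or, cons0, consS]
  constructor
  · rintro ⟨h1, h2⟩
    have h3 : (v x).Nonempty := by
      rw [Set.nonempty_iff_ne_empty]
      intro h
      apply h1
      intro S
      rw [h]
      exact Set.empty_subset _
    obtain ⟨a, ha⟩ := h3
    refine ⟨a, ?_⟩
    rcases h2 {a} (Set.singleton_subset_iff.mpr ha) with h | h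
    · exact Set.Subset.antisymm h (Set.singleton_subset_iff.mpr ha)
    · exact absurd (h ∅ (Set.mem_singleton a)) (Set.notMem_empty a)
  · rintro ⟨a, ha⟩
    rw [ha]
    constructor
    · intro h
      exact absurd (h ∅ (Set.mem_singleton a)) (Set.notMem_empty a)
    · intro S hS
      rcases Set.subset_singleton_iff_eq.mp hS with h | h
      · right; intro T; rw [h]; exact Set.empty_subset _
      · left; rw [h]

@[simp] lemma sat_exE (φ : Formula (n + 1)) : Sat Ind v (exE φ) ↔
    ∃ a : V, Sat Ind (Fin.cons {a} v) φ := by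
  simp only [exE, sat_ex, sat_and, sat_sing, cons0]
  constructor
  · rintro ⟨X, ⟨a, rfl⟩, h⟩
    exact ⟨a, h⟩
  · rintro ⟨a, h⟩
    exact ⟨_, ⟨a, rfl⟩, h⟩

@[simp] lemma sat_allE (φ : Formula (n + 1)) : Sat Ind v (allE φ) ↔
    ∀ a : V, Sat Ind (Fin.cons {a} v) φ := by
  simp only [allE, sat_all, sat_imp, sat_sing, cons0]
  constructor
  · intro h a
    exact h _ ⟨a, rfl⟩
  · rintro h X ⟨a, rfl⟩
    exact h a

@[simp] lemma sat_base (x : Fin n) : Sat Ind v (base x) ↔ IsB Ind (v x) := by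
  simp only [base, sat_and, sat_ind, sat_all, sat_imp, sat_sub, cons0, consS]
  exact Iff.rfl

@[simp] lemma sat_swapBase (A l g : Fin n) : Sat Ind v (swapBase A l g) ↔
    IsB Ind ((v A \ v l) ∪ v g) := by
  simp only [swapBase, sat_ex, sat_and, sat_base, sat_allE, sat_iff, sat_sub, sat_or, sat_neg,
    cons0, consS, Set.singleton_subset_iff]
  constructor
  · rintro ⟨X, hX, h⟩
    have : X = (v A \ v l) ∪ v g := by
      ext a
      rw [h a]
      constructor
      · rintro (h1 | h1)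
        · exact Or.inr h1
        · exact Or.inl h1
      · rintro (h1 | h1)
        · exact Or.inr h1
        · exact Or.inl h1
    rwa [← this]
  · intro h
    refine ⟨_, h, fun a => ?_⟩
    constructor
    · rintro (h1 | h1)
      · exact Or.inr h1
      · exact Or.inl h1
    · rintro (h1 | h1)
      · exact Or.inr h1
      · exact Or.inl h1

lemma swap_eq (A : Set V) (l g : V) : (A \ {l}) ∪ {g} = swap A l g := by
  rw [Set.union_singleton]; rfl

@[simp] lemma sat_sep (S : Fin n) : Sat Ind v (sep S) ↔ Sep Ind (v S) := by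
  simp only [sep, sat_all, sat_imp, sat_ind, sat_sub, sat_allE, sat_neg, sat_or, cons0, consS,
    Set.singleton_subset_iff]
  constructor
  · intro h I J U hI hIS hJ hJS hU
    exact h I J U hI hIS hJ (fun a ha => Set.disjoint_left.mp hJS ha) (fun a ha => hU ha)
  · intro h I J U hI hIS hJ hJS hU
    exact h I J U hI hIS hJ (Set.disjoint_left.mpr (fun {a} ha => hJS a ha)) (fun a ha => hU a ha)

/-- meaning of `sim` for sets -/
def SimS (Ind : Set V → Prop) (X Y : Set V) : Prop := ∀ S, Sep Ind S → (X ⊆ S ↔ Y ⊆ S)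

@[simp] lemma simS_singleton (a b : V) : SimS Ind {a} {b} ↔ Sim Ind a b := by
  simp only [SimS, Sim, Set.singleton_subset_iff]

@[simp] lemma sat_sim (x y : Fin n) : Sat Ind v (sim x y) ↔ SimS Ind (v x) (v y) := by
  simp only [sim, sat_all, sat_imp, sat_iff, sat_sep, sat_sub, cons0, consS]
  exact Iff.rfl

/-- meaning of `memX` for sets -/
def MemXS (Ind : Set V → Prop) (A L F : Set V) : Prop :=
  SimS Ind F L ∧ ∃ g : V, g ∉ A ∧ SimS Ind {g} L ∧ ¬ IsB Ind ((A \ L) ∪ {g}) ∧
    (F ⊆ {g} ∨ (F ⊆ A ∧ IsB Ind ((A \ F) ∪ {g})))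

@[simp] lemma memXS_singleton (A : Set V) (l f : V) :
    MemXS Ind A {l} {f} ↔ f ∈ XX Ind A l := by
  simp only [MemXS, simS_singleton, swap_eq, Set.singleton_subset_iff, Set.mem_singleton_iff]
  exact Iff.rfl

@[simp] lemma sat_memX (A l f : Fin n) : Sat Ind v (memX A l f) ↔
    MemXS Ind (v A) (v l) (v f) := by
  simp only [memX, sat_and, sat_sim, sat_exE, sat_neg, sat_sub, sat_swapBase, sat_or, cons0, consS,
    Set.singleton_subset_iff]
  exact Iff.rfl

@[simp] lemma sat_chainF (A : Fin n) : Sat Ind v (chainF A) ↔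
    ∀ l ∈ v A, ∀ l' ∈ v A, Sim Ind l l' →
      XX Ind (v A) l ⊆ XX Ind (v A) l' ∨ XX Ind (v A) l' ⊆ XX Ind (v A) l := by
  simp only [chainF, sat_allE, sat_imp, sat_sub, sat_sim, sat_or, sat_memX, cons0, consS,
    Set.singleton_subset_iff, simS_singleton, memXS_singleton]
  exact Iff.rfl

@[simp] lemma sat_crossF (A Z : Fin n) : Sat Ind v (crossF A Z) ↔
    ∀ l ∈ v A, ∀ u ∈ v Z, Sim Ind l u →
      (∀ f, f ∈ XX Ind (v A) l → f ∉ XX Ind (v Z) u) ∨
      (∀ f, Sim Ind f l → f ∈ XX Ind (v A) l ∨ f ∈ XX Ind (v Z) u) := by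
  simp only [crossF, sat_allE, sat_imp, sat_sub, sat_sim, sat_or, sat_neg, sat_memX, cons0, consS,
    Set.singleton_subset_iff, simS_singleton, memXS_singleton]

/-- meaning of `spansX` for sets -/
def SpansXS (Ind : Set V → Prop) (B A L : Set V) : Prop :=
  ∀ I, Ind I → (∀ f, f ∈ I → MemXS Ind A L {f}) → (∀ f, f ∈ B → MemXS Ind A L {f} → f ∈ I) → I ⊆ B

@[simp] lemma sat_spansX (B A l : Fin n) : Sat Ind v (spansX B A l) ↔
    SpansXS Ind (v B) (v A) (v l) := by
  simp only [spansX, sat_all, sat_imp, sat_ind, sat_allE, sat_sub, sat_memX, cons0, consS,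
    Set.singleton_subset_iff]
  exact Iff.rfl

@[simp] lemma spansXS_singleton (B A : Set V) (l : V) :
    SpansXS Ind B A {l} ↔ Spans Ind B (XX Ind A l) := by
  simp only [SpansXS, memXS_singleton]
  constructor
  · intro h I hI hIX hBI
    exact h I hI hIX (fun f hf hf' => hBI ⟨hf, hf'⟩)
  · intro h I hI hIX hBI
    exact h I hI hIX (fun f hf => hBI f hf.1 hf.2)

@[simp] lemma sat_critF (A Z : Fin n) : Sat Ind v (critF A Z) ↔
    ∀ B, IsB Ind B → ∀ x ∈ B, ∀ y, y ∉ B → Sim Ind x y → ¬ IsB Ind (swap B x y) →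
      (∃ l ∈ v A, y ∈ XX Ind (v A) l ∧ x ∉ XX Ind (v A) l ∧ Spans Ind B (XX Ind (v A) l)) ∨
      (∃ u ∈ v Z, y ∈ XX Ind (v Z) u ∧ x ∉ XX Ind (v Z) u ∧ Spans Ind B (XX Ind (v Z) u)) := by
  simp only [critF, altF, sat_all, sat_exE, sat_allE, sat_imp, sat_sub, sat_sim, sat_or, sat_neg,
    sat_and, sat_base, sat_swapBase, sat_memX, sat_spansX, cons0, consS,
    Set.singleton_subset_iff, simS_singleton, memXS_singleton, spansXS_singleton, swap_eq]

theorem sat_lpm (v : Fin 0 → Set V) : Sat Ind v lpm ↔ Phi Ind := by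
  simp only [lpm, sat_ex, sat_and, sat_base, sat_chainF, sat_crossF, sat_critF, cons0, consS]
  exact Iff.rfl

end Pool.Agent.N357.MS
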